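import Mathlib

/-!
Combinatorial core of the Lusternik-Schnirelmann theorem, written dually: chains are replaced by
the additive maps which they induce on functions on simplices (with values in `ZMod 2`).
-/

namespace NewtonLS

set_option linter.unusedSectionVars false

open Finset

/-- functions on simplices with `n` vertices -/
abbrev F (V : Type*) (n : ℕ) := (Fin n → V) → ZMod 2

variable {V : Type*}

/-- coboundary -/
def dl : (n : ℕ) → F V n → F V (n + 1)
  | 0, Φ, σ => Φ (Fin.tail σ)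
  | n + 1, Φ, σ => Φ (Fin.tail σ) + dl n (fun τ => Φ (Fin.cons (σ 0) τ)) (Fin.tail σ)

theorem dl_add (n : ℕ) (Φ Ψ : F V n) : dl n (Φ + Ψ) = dl n Φ + dl n Ψ := by
  induction n with
  | zero => funext σ; simp [dl]
  | succ n ih =>
    funext σ
    have h : (fun τ => (Φ + Ψ) (Fin.cons (σ 0) τ)) =
        (fun τ => Φ (Fin.cons (σ 0) τ)) + fun τ => Ψ (Fin.cons (σ 0) τ) := rfl
    change (Φ + Ψ) (Fin.tail σ) + dl n (fun τ => (Φ + Ψ) (Fin.cons (σ 0) τ)) (Fin.tail σ) = _
    rw [h, ih]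
    simp only [dl, Pi.add_apply]
    ring

theorem add_self_F {n : ℕ} (Φ : F V n) : Φ + Φ = 0 := by
  funext σ
  exact CharTwo.add_self_eq_zero _

theorem dl_zero (n : ℕ) : dl n (0 : F V n) = 0 := by
  have h := dl_add n (0 : F V n) 0
  rw [add_zero] at h
  rw [h, add_self_F]

theorem dl_dl (n : ℕ) (Φ : F V n) : dl (n + 1) (dl n Φ) = 0 := by
  induction n with
  | zero =>
    funext σ
    simp only [dl, Pi.zero_apply]
    have h : ∀ a b : Fin 0 → V, a = b := fun a b => Subsingleton.elim _ _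
    rw [h (Fin.tail (Fin.tail σ)) (Fin.tail (Fin.cons (σ 0) (Fin.tail (Fin.tail σ))))]
    exact CharTwo.add_self_eq_zero _
  | succ n ih =>
    funext σ
    rw [dl]
    have h : (fun τ => dl (n + 1) Φ (Fin.cons (σ 0) τ)) =
        Φ + dl n (fun τ => Φ (Fin.cons (σ 0) τ)) := by
      funext τ
      simp [dl]
    rw [h, dl_add, ih, add_zero]
    exact CharTwo.add_self_eq_zero _

variable [AddCommGroup V] [Module ℝ V]

/-- barycentre -/
noncomputable def bary {n : ℕ} (σ : Fin n → V) : V := (n : ℝ)⁻¹ • ∑ i, σ i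

/-- dual of the barycentric subdivision -/
noncomputable def sdv : (n : ℕ) → F V n → F V n
  | 0, Φ, σ => Φ σ
  | n + 1, Φ, σ => dl n (sdv n (fun τ => Φ (Fin.cons (bary σ) τ))) σ

theorem sdv_add (n : ℕ) (Φ Ψ : F V n) : sdv n (Φ + Ψ) = sdv n Φ + sdv n Ψ := by
  induction n with
  | zero => rfl
  | succ n ih =>
    funext σ
    have h : (fun τ => (Φ + Ψ) (Fin.cons (bary σ) τ)) =
        (fun τ => Φ (Fin.cons (bary σ) τ)) + fun τ => Ψ (Fin.cons (bary σ) τ) := rfl
    change dl n (sdv n (fun τ => (Φ + Ψ) (Fin.cons (bary σ) τ))) σ = _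
    rw [h, ih, dl_add]
    rfl

theorem sdv_dl (n : ℕ) (Φ : F V n) : sdv (n + 1) (dl n Φ) = dl n (sdv n Φ) := by
  induction n with
  | zero =>
    funext σ
    simp only [sdv, dl]
    congr 1
  | succ n ih =>
    funext σ
    rw [sdv]
    have h : (fun τ => dl (n + 1) Φ (Fin.cons (bary σ) τ)) =
        Φ + dl n (fun τ => Φ (Fin.cons (bary σ) τ)) := by
      funext τ
      simp [dl]
    rw [h, sdv_add, ih, dl_add, dl_dl, add_zero]

/-- iterated subdivision -/
theorem sdv_iter_dl (n N : ℕ) (Φ : F V n) :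
    (sdv (n + 1))^[N] (dl n Φ) = dl n ((sdv n)^[N] Φ) := by
  induction N generalizing Φ with
  | zero => rfl
  | succ N ih => rw [Function.iterate_succ_apply, sdv_dl, ih, ← Function.iterate_succ_apply]

theorem sdv_iter_add (n N : ℕ) (Φ Ψ : F V n) :
    (sdv n)^[N] (Φ + Ψ) = (sdv n)^[N] Φ + (sdv n)^[N] Ψ := by
  induction N generalizing Φ Ψ with
  | zero => rfl
  | succ N ih => rw [Function.iterate_succ_apply, sdv_add, ih]; rfl

/-- composition with the antipodal map -/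
def ng {n : ℕ} (Φ : F V n) : F V n := fun σ => Φ (-σ)

theorem neg_cons {n : ℕ} (x : V) (τ : Fin n → V) :
    -(Fin.cons x τ : Fin (n + 1) → V) = Fin.cons (-x) (-τ) := by
  funext i
  refine Fin.cases ?_ (fun j => ?_) i <;> simp

theorem neg_tail {n : ℕ} (σ : Fin (n + 1) → V) : -(Fin.tail σ) = Fin.tail (-σ) := by
  funext i
  simp [Fin.tail]

theorem dl_ng (n : ℕ) (Φ : F V n) : dl n (ng Φ) = ng (dl n Φ) := by
  induction n with
  | zero => funext σ; simp [dl, ng, neg_tail]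
  | succ n ih =>
    funext σ
    have h : (fun τ => ng Φ (Fin.cons (σ 0) τ)) = ng (fun τ => Φ (Fin.cons (-(σ 0)) τ)) := by
      funext τ
      simp [ng, neg_cons]
    rw [dl, h, ih]
    simp [ng, dl, neg_tail]

theorem bary_neg {n : ℕ} (σ : Fin n → V) : bary (-σ) = -bary σ := by
  simp [bary]

theorem sdv_ng (n : ℕ) (Φ : F V n) : sdv n (ng Φ) = ng (sdv n Φ) := by
  induction n with
  | zero => rfl
  | succ n ih =>
    funext σ
    have h : (fun τ => ng Φ (Fin.cons (bary σ) τ)) = ng (fun τ => Φ (Fin.cons (-(bary σ)) τ)) := by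
      funext τ
      simp [ng, neg_cons]
    rw [sdv, h, ih, dl_ng]
    simp [ng, sdv, bary_neg]

theorem sdv_iter_ng (n N : ℕ) (Φ : F V n) : (sdv n)^[N] (ng Φ) = ng ((sdv n)^[N] Φ) := by
  induction N generalizing Φ with
  | zero => rfl
  | succ N ih => rw [Function.iterate_succ_apply, sdv_ng, ih]; rfl

/-- the functional of the octahedral sphere spanned by `± e 0, …, ± e (k-1)` -/
def zf (e : ℕ → V) : (k : ℕ) → F V k → ZMod 2
  | 0, Φ => Φ Fin.elim0
  | k + 1, Φ => zf e k (fun τ => Φ (Fin.cons (e k) τ)) + zf e k (fun τ => Φ (Fin.cons (-e k) τ))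

theorem zf_add (e : ℕ → V) (k : ℕ) (Φ Ψ : F V k) : zf e k (Φ + Ψ) = zf e k Φ + zf e k Ψ := by
  induction k with
  | zero => rfl
  | succ k ih =>
    have h : ∀ x : V, (fun τ => (Φ + Ψ) (Fin.cons x τ)) =
        (fun τ => Φ (Fin.cons x τ)) + fun τ => Ψ (Fin.cons x τ) := fun x => rfl
    simp only [zf, h, ih]
    ring

theorem zf_dl (e : ℕ → V) (k : ℕ) (Φ : F V k) : zf e (k + 1) (dl k Φ) = 0 := by
  induction k with
  | zero =>
    simp only [zf, dl, Fin.tail_cons]
    exact CharTwo.add_self_eq_zero _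
  | succ k ih =>
    have h : ∀ x : V, (fun τ => dl (k + 1) Φ (Fin.cons x τ)) =
        Φ + dl k (fun τ => Φ (Fin.cons x τ)) := by
      intro x
      funext τ
      simp [dl]
    rw [zf, h, h, zf_add, zf_add, ih, ih, add_zero]
    exact CharTwo.add_self_eq_zero _

theorem zf_ng (e : ℕ → V) (k : ℕ) (Φ : F V k) : zf e k (ng Φ) = zf e k Φ := by
  induction k with
  | zero =>
    simp only [zf, ng]
    congr 1
    exact Subsingleton.elim _ _
  | succ k ih =>
    have h : ∀ x : V, (fun τ => ng Φ (Fin.cons x τ)) = ng (fun τ => Φ (Fin.cons (-x) τ)) := by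
      intro x
      funext τ
      simp [ng, neg_cons]
    rw [zf, h, h, ih, ih, neg_neg, zf, add_comm]

/-- the subdivided hemisphere -/
noncomputable def cN (e : ℕ → V) (N k : ℕ) (Φ : F V (k + 1)) : ZMod 2 :=
  zf e k (fun τ => (sdv (k + 1))^[N] Φ (Fin.cons (e k) τ))

theorem cN_add (e : ℕ → V) (N k : ℕ) (Φ Ψ : F V (k + 1)) :
    cN e N k (Φ + Ψ) = cN e N k Φ + cN e N k Ψ := by
  rw [cN, sdv_iter_add]
  exact zf_add e k _ _

theorem cN_dl_zero (e : ℕ → V) (N : ℕ) (Φ : F V 0) :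
    cN e N 0 (dl 0 Φ) = Φ Fin.elim0 := by
  rw [cN, sdv_iter_dl]
  have h : ∀ M : ℕ, (sdv 0)^[M] Φ = Φ := by
    intro M
    induction M with
    | zero => rfl
    | succ M ih =>
      rw [Function.iterate_succ_apply']
      rw [ih]
      rfl
  rw [h]
  simp only [zf, dl, Fin.tail_cons]

theorem zf_sdv_succ (e : ℕ → V) (N k : ℕ) (Φ : F V (k + 1)) :
    zf e (k + 1) ((sdv (k + 1))^[N] Φ) = cN e N k Φ + cN e N k (ng Φ) := by
  rw [zf, cN, cN, sdv_iter_ng]
  congr 1
  rw [← zf_ng]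
  congr 1
  funext τ
  simp [ng, neg_cons]

theorem cN_dl_succ (e : ℕ → V) (N k : ℕ) (Φ : F V (k + 1)) :
    cN e N (k + 1) (dl (k + 1) Φ) = cN e N k Φ + cN e N k (ng Φ) := by
  rw [cN, sdv_iter_dl]
  have h : (fun τ => dl (k + 1) ((sdv (k + 1))^[N] Φ) (Fin.cons (e (k + 1)) τ)) =
      (sdv (k + 1))^[N] Φ + dl k (fun τ => (sdv (k + 1))^[N] Φ (Fin.cons (e (k + 1)) τ)) := by
    funext τ
    simp [dl]
  rw [h, zf_add, zf_dl, add_zero, zf_sdv_succ]

/-- product of coboundaries -/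
def cup : (k : ℕ) → (ℕ → V → ZMod 2) → F V (k + 1)
  | 0, _, _ => 1
  | k + 1, g, σ => (g 0 (σ 0) + g 0 (σ 1)) * cup k (fun j => g (j + 1)) (Fin.tail σ)

/-- `g ∪ cup` -/
def cupQ (k : ℕ) (g : ℕ → V → ZMod 2) : F V (k + 1) :=
  fun σ => g 0 (σ 0) * cup k (fun j => g (j + 1)) σ

theorem dl_mul_const (n : ℕ) (c : ZMod 2) (Φ : F V n) :
    dl n (fun τ => c * Φ τ) = fun σ => c * dl n Φ σ := by
  induction n with
  | zero => rfl
  | succ n ih =>
    funext σ
    rw [dl, ih]
    simp only [dl]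
    ring

theorem cup_cocycle (k : ℕ) : ∀ g : ℕ → V → ZMod 2,
    dl (k + 1) (cup k g) = 0 ∧ dl (k + 1) (cupQ k g) = cup (k + 1) g := by
  induction k with
  | zero =>
    intro g
    constructor
    · funext σ
      simp only [dl, cup, Pi.zero_apply]
      decide
    · funext σ
      simp only [dl, cupQ, cup, mul_one]
      simp [Fin.tail, add_comm]
  | succ k ih =>
    intro g
    have h1 : dl (k + 2) (cup (k + 1) g) = 0 := by
      rw [← (ih g).2, dl_dl]
    refine ⟨h1, ?_⟩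
    funext σ
    have h2 : dl (k + 2) (cup (k + 1) fun j => g (j + 1)) = 0 := by
      rw [← (ih _).2, dl_dl]
    have h3 := congrFun h2 σ
    rw [dl] at h3
    rw [dl]
    have h4 : (fun τ => cupQ (k + 1) g (Fin.cons (σ 0) τ)) =
        fun τ => g 0 (σ 0) * cup (k + 1) (fun j => g (j + 1)) (Fin.cons (σ 0) τ) := by
      funext τ
      simp [cupQ]
    rw [h4, dl_mul_const]
    have h5 : dl (k + 1) (fun τ => cup (k + 1) (fun j => g (j + 1)) (Fin.cons (σ 0) τ))
        (Fin.tail σ) = cup (k + 1) (fun j => g (j + 1)) (Fin.tail σ) := by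
      have h6 : ∀ a b : ZMod 2, a + b = 0 → b = a := by decide
      exact h6 _ _ h3
    simp only [h5]
    change g 0 (σ 1) * cup (k + 1) (fun j => g (j + 1)) (Fin.tail σ) +
      g 0 (σ 0) * cup (k + 1) (fun j => g (j + 1)) (Fin.tail σ) =
      (g 0 (σ 0) + g 0 (σ 1)) * cup (k + 1) (fun j => g (j + 1)) (Fin.tail σ)
    ring

end NewtonLS
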