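import Pool.Agent.Lib.MP_54d165_co.BU1

/-!
The Lusternik-Schnirelmann theorem: `n` open sets `W i` with `W i ∩ -W i = ∅` such that the sets
`± W i` cover everything except the origin exist only in dimension at most `n`.
-/

namespace NewtonLS

set_option linter.unusedSectionVars false

open Finset Set

theorem dl_supp {V : Type*} (n : ℕ) : ∀ (Ψ : F V n) (σ : Fin (n + 1) → V)
    (_ : ∀ τ : Fin n → V, (∀ i, ∃ j, τ i = σ j) → Ψ τ = 0), dl n Ψ σ = 0 := by
  induction n with
  | zero =>
    intro Ψ σ h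
    exact h _ fun i => i.elim0
  | succ n ih =>
    intro Ψ σ h
    rw [dl, h (Fin.tail σ) fun i => ⟨i.succ, rfl⟩, zero_add]
    refine ih _ _ fun τ hτ => h _ fun i => ?_
    refine Fin.cases ⟨0, by simp⟩ (fun j => ?_) i
    obtain ⟨l, hl⟩ := hτ j
    exact ⟨l.succ, by simpa [Fin.tail] using hl⟩

variable {V : Type*} [NormedAddCommGroup V] [NormedSpace ℝ V]

theorem bary_mem {n : ℕ} (σ : Fin (n + 1) → V) {K : Set V} (hK : Convex ℝ K)
    (hσ : ∀ i, σ i ∈ K) : bary σ ∈ K := by
  rw [bary, Finset.smul_sum]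
  refine hK.sum_mem (fun i _ => by positivity) ?_ fun i _ => hσ i
  simp
  field_simp

theorem bary_dist {n : ℕ} (σ : Fin (n + 1) → V) {r : ℝ} (hσ : ∀ i j, dist (σ i) (σ j) ≤ r)
    (j : Fin (n + 1)) : dist (σ j) (bary σ) ≤ n / (n + 1) * r := by
  have hn : (0 : ℝ) < n + 1 := by positivity
  have h1 : bary σ - σ j = ((n : ℝ) + 1)⁻¹ • ∑ i, (σ i - σ j) := by
    rw [bary, Finset.sum_sub_distrib, smul_sub]
    congr 1
    · push_cast; rfl
    · simp only [Finset.sum_const, Finset.card_univ, Fintype.card_fin]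
      rw [← Nat.cast_smul_eq_nsmul ℝ, smul_smul]
      push_cast
      rw [inv_mul_cancel₀ hn.ne', one_smul]
  have h2 : ∑ i, ‖σ i - σ j‖ ≤ n * r := by
    rw [← Finset.add_sum_erase _ _ (Finset.mem_univ j), sub_self, norm_zero, zero_add]
    calc ∑ i ∈ Finset.univ.erase j, ‖σ i - σ j‖ ≤ ∑ _i ∈ Finset.univ.erase j, r :=
          Finset.sum_le_sum fun i _ => by rw [← dist_eq_norm]; exact hσ i j
      _ = n * r := by simp
  rw [dist_comm, dist_eq_norm, h1, norm_smul, Real.norm_of_nonneg (by positivity)]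
  calc ((n : ℝ) + 1)⁻¹ * ‖∑ i, (σ i - σ j)‖ ≤ ((n : ℝ) + 1)⁻¹ * (n * r) := by
        gcongr
        exact (norm_sum_le _ _).trans h2
    _ = n / (n + 1) * r := by field_simp

theorem sdv_supp (m : ℕ) : ∀ n ≤ m + 1, ∀ (K : Set V), Convex ℝ K → ∀ r : ℝ, 0 ≤ r →
    ∀ Φ : F V n, (∀ σ : Fin n → V, (∀ i, σ i ∈ K) →
      (∀ i j, dist (σ i) (σ j) ≤ m / (m + 1) * r) → Φ σ = 0) →
    ∀ σ : Fin n → V, (∀ i, σ i ∈ K) → (∀ i j, dist (σ i) (σ j) ≤ r) → sdv n Φ σ = 0 := by
  intro n
  induction n with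
  | zero =>
    intro _ K _ r _ Φ hΦ σ hσ hσr
    exact hΦ σ hσ fun i => i.elim0
  | succ n ih =>
    intro hn K hK r hr Φ hΦ σ hσ hσr
    rw [sdv]
    refine dl_supp n _ σ fun τ0 hτ0 => ?_
    have hc : (0 : ℝ) ≤ m / (m + 1) * r := by positivity
    have hK' : Convex ℝ (K ∩ Metric.closedBall (bary σ) (m / (m + 1) * r)) :=
      hK.inter (convex_closedBall _ _)
    refine ih (by omega) _ hK' r hr _ ?_ τ0 ?_ ?_
    · intro τ hτ hτr
      refine hΦ _ ?_ ?_
      · intro i
        refine Fin.cases ?_ (fun j => ?_) i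
        · simpa using bary_mem σ hK hσ
        · simpa using (hτ j).1
      · intro i j
        refine Fin.cases ?_ (fun i' => ?_) i <;> refine Fin.cases ?_ (fun j' => ?_) j
        · simpa using hc
        · have := (hτ j').2
          rw [Metric.mem_closedBall, dist_comm] at this
          simpa using this
        · have := (hτ i').2
          rw [Metric.mem_closedBall] at this
          simpa using this
        · simpa using hτr i' j'
    · intro i
      obtain ⟨j, hj⟩ := hτ0 i
      rw [hj]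
      refine ⟨hσ j, ?_⟩
      rw [Metric.mem_closedBall]
      refine (bary_dist σ hσr j).trans ?_
      gcongr ?_ * r
      rw [div_le_div_iff₀ (by positivity) (by positivity)]
      have : (n : ℝ) ≤ m := by exact_mod_cast (by omega : n ≤ m)
      nlinarith
    · intro i j
      obtain ⟨i', hi'⟩ := hτ0 i
      obtain ⟨j', hj'⟩ := hτ0 j
      rw [hi', hj']
      exact hσr i' j'

theorem sdv_iter_supp (m n : ℕ) (hn : n ≤ m + 1) (K : Set V) (hK : Convex ℝ K) (N : ℕ) :
    ∀ (r : ℝ) (_ : 0 ≤ r) (Φ : F V n) (_ : ∀ σ : Fin n → V, (∀ i, σ i ∈ K) →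
      (∀ i j, dist (σ i) (σ j) ≤ (m / (m + 1)) ^ N * r) → Φ σ = 0)
    (σ : Fin n → V), (∀ i, σ i ∈ K) → (∀ i j, dist (σ i) (σ j) ≤ r) →
      (sdv n)^[N] Φ σ = 0 := by
  induction N with
  | zero =>
    intro r hr Φ hΦ σ hσ hσr
    exact hΦ σ hσ (by simpa using hσr)
  | succ N ih =>
    intro r hr Φ hΦ σ hσ hσr
    rw [Function.iterate_succ_apply]
    refine ih r hr _ ?_ σ hσ hσr
    intro σ' hσ' hσr'
    refine sdv_supp m n hn K hK _ (by positivity) Φ ?_ σ' hσ' hσr'
    intro τ hτ hτr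
    refine hΦ τ hτ fun i j => (hτr i j).trans (le_of_eq ?_)
    ring

theorem zf_supp (e : ℕ → V) (k : ℕ) : ∀ (Φ : F V k)
    (_ : ∀ s : ℕ → V, (∀ j, s j = e j ∨ s j = -e j) → ∀ σ : Fin k → V,
      (∀ i, ∃ j < k, σ i = s j) → Φ σ = 0), zf e k Φ = 0 := by
  induction k with
  | zero =>
    intro Φ h
    exact h e (fun j => Or.inl rfl) _ fun i => i.elim0
  | succ k ih =>
    intro Φ h
    have key : ∀ x : V, (x = e k ∨ x = -e k) → zf e k (fun τ => Φ (Fin.cons x τ)) = 0 := by
      intro x hx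
      refine ih _ fun s hs τ hτ => h (Function.update s k x) ?_ _ ?_
      · intro j
        by_cases hj : j = k
        · subst hj
          simpa using hx
        · simpa [Function.update_of_ne hj] using hs j
      · intro i
        refine Fin.cases ⟨k, by omega, by simp⟩ (fun i' => ?_) i
        obtain ⟨j, hj, hij⟩ := hτ i'
        refine ⟨j, by omega, ?_⟩
        rw [Function.update_of_ne hj.ne]
        simpa using hij
    rw [zf, key _ (Or.inl rfl), key _ (Or.inr rfl), add_zero]

theorem cN_supp (e : ℕ → V) {D : ℝ} (hD : ∀ j, ‖e j‖ ≤ D) (m k N : ℕ) (hk : k ≤ m) (r : ℝ)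
    (hr : (m / (m + 1)) ^ N * (D + D) ≤ r) (Φ : F V (k + 1))
    (hΦ : ∀ s : ℕ → V, (∀ j, s j = e j ∨ s j = -e j) → ∀ σ : Fin (k + 1) → V,
      (∀ i, σ i ∈ convexHull ℝ (s '' {j | j < k + 1})) → (∀ i j, dist (σ i) (σ j) ≤ r) →
      Φ σ = 0) : cN e N k Φ = 0 := by
  have hD0 : 0 ≤ D := (norm_nonneg _).trans (hD 0)
  rw [cN]
  refine zf_supp e k _ fun s hs τ hτ => ?_
  have hs' : ∀ j, Function.update s k (e k) j = e j ∨ Function.update s k (e k) j = -e j := by
    intro j
    by_cases hj : j = k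
    · subst hj
      simp
    · simpa [Function.update_of_ne hj] using hs j
  have hnorm : ∀ j, ‖Function.update s k (e k) j‖ ≤ D := by
    intro j
    rcases hs' j with h | h <;> rw [h]
    · exact hD j
    · rw [norm_neg]; exact hD j
  have hmem : ∀ i, ∃ j < k + 1, (Fin.cons (e k) τ : Fin (k + 1) → V) i =
      Function.update s k (e k) j := by
    intro i
    refine Fin.cases ⟨k, by omega, by simp⟩ (fun i' => ?_) i
    obtain ⟨j, hj, hij⟩ := hτ i'
    refine ⟨j, by omega, ?_⟩
    rw [Function.update_of_ne hj.ne]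
    simpa using hij
  refine sdv_iter_supp m (k + 1) (by omega)
    (convexHull ℝ (Function.update s k (e k) '' {j | j < k + 1})) (convex_convexHull _ _) N
    (D + D) (by positivity) Φ ?_ _ ?_ ?_
  · intro σ hσ hσr
    exact hΦ _ hs' σ hσ fun i j => (hσr i j).trans hr
  · intro i
    obtain ⟨j, hj, hij⟩ := hmem i
    rw [hij]
    exact subset_convexHull _ _ ⟨j, hj, rfl⟩
  · intro i j
    obtain ⟨i', -, hi'⟩ := hmem i
    obtain ⟨j', -, hj'⟩ := hmem j
    rw [hi', hj', dist_eq_norm]
    exact (norm_sub_le _ _).trans (add_le_add (hnorm _) (hnorm _))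

theorem ne_zero_of_mem (e s : ℕ → V) (k : ℕ)
    (he : LinearIndependent ℝ fun j : Fin (k + 1) => e j)
    (hs : ∀ j, s j = e j ∨ s j = -e j) (x : V)
    (hx : x ∈ convexHull ℝ (s '' {j | j < k + 1})) : x ≠ 0 := by
  classical
  have h1 : LinearIndependent ℝ fun j : Fin (k + 1) => s j := by
    have h2 := he.units_smul fun j : Fin (k + 1) => if s j = e j then (1 : ℝˣ) else -1
    convert h2 using 1
    funext j
    simp only [Pi.smul_apply']
    split_ifs with h
    · simp [h]
    · rcases hs j with h3 | h3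
      · exact absurd h3 h
      · simp [h3]
  set b := Module.Basis.span h1 with hb
  obtain ⟨f, hf⟩ := (b.constr ℝ fun _ => (1 : ℝ)).exists_extend
  have hf1 : ∀ j : Fin (k + 1), f (s j) = 1 := by
    intro j
    have h3 : (s j : V) = (b j : V) := by rw [hb, Module.Basis.span_apply]
    have h4 := congrArg (fun g => g (b j)) hf
    simp only [LinearMap.comp_apply, Submodule.subtype_apply] at h4
    rw [h3, h4, Module.Basis.constr_basis]
  have h5 : convexHull ℝ (s '' {j | j < k + 1}) ⊆ {y | f y = 1} := by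
    refine convexHull_min ?_ ?_
    · rintro _ ⟨j, hj, rfl⟩
      exact hf1 ⟨j, hj⟩
    · exact convex_hyperplane f.isLinear 1
  intro h0
  have h6 := h5 hx
  rw [h0] at h6
  simp at h6

theorem cup_neg (k : ℕ) : ∀ (g : ℕ → V → ZMod 2) (_ : ∀ j x, x ≠ 0 → g j (-x) = g j x + 1)
    (σ : Fin (k + 1) → V) (_ : ∀ i, σ i ≠ 0), cup k g (-σ) = cup k g σ := by
  induction k with
  | zero => intro g _ σ _; rfl
  | succ k ih =>
    intro g hg σ hσ
    have h := ih (fun j => g (j + 1)) (fun j x hx => hg (j + 1) x hx) (Fin.tail σ)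
      fun i => hσ i.succ
    rw [cup, cup, ← neg_tail, h]
    congr 1
    rw [Pi.neg_apply, Pi.neg_apply, hg 0 _ (hσ 0), hg 0 _ (hσ 1)]
    have : ∀ a b : ZMod 2, a + 1 + (b + 1) = a + b := by decide
    exact this _ _

theorem cN_cup (e : ℕ → V) {D : ℝ} (hD : ∀ j, ‖e j‖ ≤ D) (N : ℕ) (k : ℕ) :
    LinearIndependent ℝ (fun j : Fin (k + 1) => e j) →
    ∀ (g : ℕ → V → ZMod 2) (_ : ∀ j x, x ≠ 0 → g j (-x) = g j x + 1),
      cN e N k (cup k g) = 1 := by
  induction k with
  | zero =>
    intro _ g _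
    have h : cup 0 g = dl 0 (1 : F V 0) := rfl
    rw [h, cN_dl_zero]
    rfl
  | succ k ih =>
    intro he g hg
    have he' : LinearIndependent ℝ (fun j : Fin (k + 1) => e j) :=
      he.comp (Fin.castSucc) (Fin.castSucc_injective _)
    have hg' : ∀ j x, x ≠ 0 → g (j + 1) (-x) = g (j + 1) x + 1 := fun j x hx => hg (j + 1) x hx
    rw [← (cup_cocycle k g).2, cN_dl_succ, ← cN_add]
    have h1 := ih he' (fun j => g (j + 1)) hg'
    have h2 : cN e N k (cupQ k g + ng (cupQ k g) + cup k fun j => g (j + 1)) = 0 := by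
      refine cN_supp e hD k k N le_rfl _ le_rfl _ fun s hs σ hσ _ => ?_
      have hne : ∀ i, σ i ≠ 0 := fun i => ne_zero_of_mem e s k he' hs _ (hσ i)
      simp only [Pi.add_apply, ng, cupQ]
      rw [cup_neg k _ hg' σ hne, Pi.neg_apply, hg 0 _ (hne 0)]
      have : ∀ a b : ZMod 2, a * b + (a + 1) * b + b = 0 := by decide
      exact this _ _
    rw [cN_add, h1] at h2
    have : ∀ a : ZMod 2, a + 1 = 0 → a = 1 := by decide
    exact this _ h2

theorem cup_eq_zero (k : ℕ) : ∀ (g : ℕ → V → ZMod 2) (σ : Fin (k + 1) → V) (i : ℕ) (_ : i < k)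
    (_ : ∀ a b, g i (σ a) = g i (σ b)), cup k g σ = 0 := by
  induction k with
  | zero => intro g σ i hi; omega
  | succ k ih =>
    intro g σ i hi h
    rw [cup]
    rcases i with _ | i
    · rw [h 0 1, CharTwo.add_self_eq_zero, zero_mul]
    · rw [ih (fun j => g (j + 1)) (Fin.tail σ) i (by omega) fun a b => h _ _, mul_zero]

theorem exists_odd : ∃ s : V → ZMod 2, ∀ x, x ≠ 0 → s (-x) = s x + 1 := by
  classical
  refine ⟨fun x => if WellOrderingRel x (-x) then 1 else 0, fun x hx => ?_⟩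
  have hne : x ≠ -x := by
    intro h
    have h2 : (2 : ℝ) • x = 0 := by
      rw [two_smul]
      nth_rewrite 2 [h]
      simp
    exact hx ((smul_eq_zero.1 h2).resolve_left (by norm_num))
  simp only [neg_neg]
  rcases trichotomous_of WellOrderingRel x (-x) with h | h | h
  · have h' : ¬ WellOrderingRel (-x) x := asymm h
    simp [h, h']
    decide
  · exact absurd h hne
  · have h' : ¬ WellOrderingRel x (-x) := asymm h
    simp [h, h']

/-- Lusternik-Schnirelmann. -/
theorem ls_aux {n : ℕ} (W : Fin n → Set V) (hW : ∀ i, IsOpen (W i))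
    (hanti : ∀ i x, x ∈ W i → -x ∉ W i) (hcov : ∀ x : V, x ≠ 0 → ∃ i, x ∈ W i ∨ -x ∈ W i)
    (e : ℕ → V) {D : ℝ} (hD : ∀ j, ‖e j‖ ≤ D)
    (he : LinearIndependent ℝ fun j : Fin (n + 1) => e j) : False := by
  classical
  obtain ⟨s0, hs0⟩ := exists_odd (V := V)
  set g : ℕ → V → ZMod 2 := fun j x => if h : j < n then
    (if x ∈ W ⟨j, h⟩ then 1 else if -x ∈ W ⟨j, h⟩ then 0 else s0 x) else s0 x with hg
  have hgodd : ∀ j x, x ≠ 0 → g j (-x) = g j x + 1 := by
    intro j x hx
    simp only [hg]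
    by_cases hj : j < n
    · simp only [hj, dif_pos, neg_neg]
      by_cases h1 : x ∈ W ⟨j, hj⟩
      · have h2 : -x ∉ W ⟨j, hj⟩ := hanti _ _ h1
        simp [h1, h2]
        decide
      · by_cases h2 : -x ∈ W ⟨j, hj⟩
        · simp [h1, h2]
        · simp [h1, h2, hs0 x hx]
    · simp [hj, hs0 x hx]
  -- compact set containing all simplices
  set K0 : Set V := ⋃ t : Fin (n + 1) → Bool,
    convexHull ℝ (Set.range fun j : Fin (n + 1) => if t j then e j else -e j) with hK0
  have hK0c : IsCompact K0 := by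
    refine isCompact_iUnion fun t => ?_
    exact (Set.finite_range _).isCompact_convexHull ℝ
  have hK0s : ∀ s : ℕ → V, (∀ j, s j = e j ∨ s j = -e j) →
      convexHull ℝ (s '' {j | j < n + 1}) ⊆ K0 := by
    intro s hs
    intro x hx
    rw [hK0, Set.mem_iUnion]
    refine ⟨fun j : Fin (n + 1) => decide (s j = e j), convexHull_mono ?_ hx⟩
    rintro _ ⟨j, hj, rfl⟩
    refine ⟨⟨j, hj⟩, ?_⟩
    simp only [decide_eq_true_eq]
    split_ifs with h
    · exact h.symm
    · rcases hs j with h3 | h3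
      · exact absurd h3 h
      · exact h3.symm
  have hK00 : ∀ x ∈ K0, x ≠ 0 := by
    intro x hx
    rw [hK0, Set.mem_iUnion] at hx
    obtain ⟨t, ht⟩ := hx
    refine ne_zero_of_mem e (fun j => if h : j < n + 1 then (if t ⟨j, h⟩ then e j else -e j)
      else e j) n he ?_ x ?_
    · intro j
      by_cases h : j < n + 1
      · by_cases h' : t ⟨j, h⟩ <;> simp [h, h']
      · simp [h]
    · refine convexHull_mono ?_ ht
      rintro _ ⟨j, rfl⟩
      exact ⟨j, j.2, by simp only [j.2, dif_pos]⟩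
  obtain ⟨δ, hδ, hleb⟩ := lebesgue_number_lemma_of_metric (ι := Fin n × Bool)
    (c := fun p => if p.2 then W p.1 else -(W p.1)) hK0c
    (fun p => by
      rcases p with ⟨i, b⟩
      cases b
      · simpa using (hW i).neg
      · simpa using hW i)
    (fun x hx => by
      obtain ⟨i, hi⟩ := hcov x (hK00 x hx)
      rw [Set.mem_iUnion]
      rcases hi with hi | hi
      · exact ⟨(i, true), by simpa using hi⟩
      · exact ⟨(i, false), by simpa using hi⟩)
  -- small simplices
  obtain ⟨N, hN⟩ : ∃ N : ℕ, ((n : ℝ) / (n + 1)) ^ N * (D + D) ≤ δ / 2 := by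
    have h1 : Filter.Tendsto (fun N : ℕ => ((n : ℝ) / (n + 1)) ^ N * (D + D)) Filter.atTop
        (nhds (0 * (D + D))) := by
      refine Filter.Tendsto.mul_const _ (tendsto_pow_atTop_nhds_zero_of_lt_one (by positivity) ?_)
      rw [div_lt_one (by positivity)]
      linarith
    rw [zero_mul] at h1
    exact ((h1.eventually_lt_const (by positivity : (0 : ℝ) < δ / 2)).exists).imp
      fun N hN => hN.le
  have h0 : cN e N n (cup n g) = 0 := by
    refine cN_supp e hD n n N le_rfl (δ / 2) hN _ fun s hs σ hσ hσr => ?_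
    obtain ⟨⟨i, b⟩, hib⟩ := hleb (σ 0) (hK0s s hs (hσ 0))
    have hmem : ∀ a, σ a ∈ (if b then W i else -(W i)) := by
      intro a
      refine hib ?_
      rw [Metric.mem_ball]
      exact (hσr a 0).trans_lt (by linarith)
    refine cup_eq_zero n g σ i i.2 ?_
    have hval : ∀ a, g i (σ a) = if b then 1 else 0 := by
      intro a
      have ha := hmem a
      simp only [hg, i.2, dif_pos]
      cases b
      · have h1 : -σ a ∈ W i := by simpa using ha
        have h2 : σ a ∉ W i := by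
          intro h
          exact hanti i _ h h1
        simp [h1, h2]
      · have h1 : σ a ∈ W i := by simpa using ha
        simp [h1]
    intro a b'
    rw [hval a, hval b']
  have h1 := cN_cup e hD N n he g hgodd
  rw [h0] at h1
  exact absurd h1 (by decide)

/-- Lusternik-Schnirelmann: if `m` open sets, none of which contains two opposite points, cover
everything except the origin, then `m` is larger than the dimension. -/
theorem ls [FiniteDimensional ℝ V] (hV : 0 < Module.finrank ℝ V) {m : ℕ} (W : Fin m → Set V)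
    (hW : ∀ i, IsOpen (W i)) (hanti : ∀ i x, x ∈ W i → -x ∉ W i)
    (hcov : ∀ x : V, x ≠ 0 → ∃ i, x ∈ W i) : Module.finrank ℝ V + 1 ≤ m := by
  by_contra hlt
  push Not at hlt
  have : Nontrivial V := Module.finrank_pos_iff.1 hV
  obtain ⟨x0, hx0⟩ := exists_ne (0 : V)
  obtain ⟨i0, -⟩ := hcov x0 hx0
  obtain ⟨n, rfl⟩ : ∃ n, m = n + 1 := ⟨m - 1, by have := i0.2; omega⟩
  set b := Module.finBasis ℝ V with hb
  set e : ℕ → V := fun j => if h : j < Module.finrank ℝ V then b ⟨j, h⟩ else 0 with he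
  obtain ⟨D, hD⟩ : ∃ D : ℝ, ∀ j, ‖e j‖ ≤ D := by
    refine ⟨∑ j, ‖b j‖, fun j => ?_⟩
    simp only [he]
    split_ifs with h
    · exact Finset.single_le_sum (f := fun j => ‖b j‖) (fun i _ => norm_nonneg _)
        (Finset.mem_univ _)
    · rw [norm_zero]
      positivity
  refine ls_aux (n := n) (fun i => W i.castSucc) (fun i => hW _) (fun i x => hanti _ x) ?_ e hD ?_
  · intro x hx
    by_contra hcon
    push Not at hcon
    have h1 : ∀ y : V, y ≠ 0 → (∀ i : Fin n, y ∉ W i.castSucc) → y ∈ W (Fin.last n) := by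
      intro y hy hyi
      obtain ⟨i, hi⟩ := hcov y hy
      revert hi
      refine Fin.lastCases (fun h => h) (fun j hj => absurd hj (hyi j)) i
    have h2 := h1 x hx fun i => (hcon i).1
    have h3 := h1 (-x) (neg_ne_zero.2 hx) fun i => (hcon i).2
    exact hanti _ _ h2 h3
  · have h1 : ∀ j : Fin (n + 1), (j : ℕ) < Module.finrank ℝ V := fun j => by have := j.2; omega
    have h2 : (fun j : Fin (n + 1) => e j) = b ∘ fun j : Fin (n + 1) => ⟨j, h1 j⟩ := by
      funext j
      simp [he, h1 j]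
    rw [h2]
    refine b.linearIndependent.comp _ fun i j hij => ?_
    exact Fin.ext (by simpa using hij)

end NewtonLS
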