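import Pool.Agent.Lib.MP_54d165_co.PS.B2

/-!
# Planar bodies whose difference body is a regular polygon with `2 k` vertices

Two congruent copies of such a body never cover a neighborhood of it.
-/

set_option autoImplicit false

namespace Newton54D

open Complex Set Newton54S Newton54P
open scoped RealInnerProductSpace

private theorem half {c t w' B : ℝ} (ht0 : 0 < t) (ht : t < Real.pi / 2) (hw : 2 * c < w')
    (h : w' * Real.cos t + B * Real.sin t ≤ 2 * c) :
    B * Real.cos (t / 2) < 2 * c * Real.sin (t / 2) := by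
  have hcos : 0 < Real.cos t := Real.cos_pos_of_mem_Ioo ⟨by linarith [Real.pi_pos], ht⟩
  have hs : 0 < Real.sin (t / 2) := Real.sin_pos_of_pos_of_lt_pi (by linarith) (by linarith [Real.pi_pos])
  have e1 : Real.cos t = 1 - 2 * Real.sin (t / 2) ^ 2 := by
    have := Real.cos_two_mul (t / 2)
    rw [show 2 * (t / 2) = t by ring] at this
    rw [this, Real.cos_sq']
    ring
  have e2 : Real.sin t = 2 * Real.sin (t / 2) * Real.cos (t / 2) := by
    have := Real.sin_two_mul (t / 2)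
    rwa [show 2 * (t / 2) = t by ring] at this
  have h1 : B * Real.sin t < 2 * c * (1 - Real.cos t) := by
    have := mul_lt_mul_of_pos_right hw hcos
    linarith
  rw [e1, e2] at h1
  have h2 : Real.sin (t / 2) * (B * Real.cos (t / 2)) < Real.sin (t / 2) * (2 * c * Real.sin (t / 2)) := by
    nlinarith
  exact lt_of_mul_lt_mul_left h2 hs.le

/-- the two chords of a rotated strip pair -/
private theorem trap {γ θ w' A B : ℝ} (hγ0 : 0 < γ) (hγ : γ ≤ Real.pi / 2) (h0 : 0 ≤ θ)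
    (h1 : θ ≤ γ) (hw : 2 * Real.cos (γ / 2) < w')
    (h2 : w' * Real.cos θ + B * Real.sin θ ≤ 2 * Real.cos (γ / 2))
    (h3 : w' * Real.cos (γ - θ) + A * Real.sin (γ - θ) ≤ 2 * Real.cos (γ / 2)) :
    A + B < 2 * Real.sin (γ / 2) := by
  have hpi := Real.pi_pos
  rcases eq_or_lt_of_le h0 with rfl | h0'
  · rw [Real.cos_zero, Real.sin_zero] at h2
    linarith
  rcases eq_or_lt_of_le h1 with rfl | h1'
  · rw [sub_self, Real.cos_zero, Real.sin_zero] at h3
    linarith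
  have hb := half (c := Real.cos (γ / 2)) h0' (by linarith) hw h2
  have ha := half (c := Real.cos (γ / 2)) (t := γ - θ) (by linarith) (by linarith) hw h3
  have hcx : 0 < Real.cos (θ / 2) := Real.cos_pos_of_mem_Ioo ⟨by linarith, by linarith⟩
  have hcy : 0 < Real.cos ((γ - θ) / 2) := Real.cos_pos_of_mem_Ioo ⟨by linarith, by linarith⟩
  have hsx : 0 < Real.sin (θ / 2) := Real.sin_pos_of_pos_of_lt_pi (by linarith) (by linarith)
  have hsy : 0 < Real.sin ((γ - θ) / 2) := Real.sin_pos_of_pos_of_lt_pi (by linarith) (by linarith)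
  have ec : Real.cos (γ / 2) = Real.cos (θ / 2) * Real.cos ((γ - θ) / 2) -
      Real.sin (θ / 2) * Real.sin ((γ - θ) / 2) := by
    rw [← Real.cos_add]; congr 1; ring
  have es : Real.sin (γ / 2) = Real.sin (θ / 2) * Real.cos ((γ - θ) / 2) +
      Real.cos (θ / 2) * Real.sin ((γ - θ) / 2) := by
    rw [← Real.sin_add]; congr 1; ring
  have hs : 0 < Real.sin (γ / 2) := by
    rw [es]
    have := mul_pos hsx hcy
    have := mul_pos hcx hsy
    linarith
  have hcle : Real.cos (γ / 2) ≤ Real.cos (θ / 2) * Real.cos ((γ - θ) / 2) := by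
    rw [ec]
    have := mul_pos hsx hsy
    linarith
  have k1 := mul_lt_mul_of_pos_right hb hcy
  have k2 := mul_lt_mul_of_pos_right ha hcx
  have k3 : (A + B) * (Real.cos (θ / 2) * Real.cos ((γ - θ) / 2)) <
      2 * Real.cos (γ / 2) * Real.sin (γ / 2) := by
    rw [es]
    linarith
  have k4 : 2 * Real.cos (γ / 2) * Real.sin (γ / 2) ≤
      2 * Real.sin (γ / 2) * (Real.cos (θ / 2) * Real.cos ((γ - θ) / 2)) := by
    have := mul_le_mul_of_nonneg_left hcle (by linarith : 0 ≤ 2 * Real.sin (γ / 2))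
    linarith
  exact lt_of_mul_lt_mul_right (k3.trans_le k4) (mul_pos hcx hcy).le

private theorem cos_odd {k : ℕ} (hk : 2 ≤ k) (n : ℤ) (hn : n % 2 = 1) :
    |Real.cos (n * (Real.pi / (2 * k)))| ≤ Real.cos (Real.pi / (2 * k)) := by
  have hk0 : (0 : ℝ) < k := by
    have : 0 < k := by omega
    exact_mod_cast this
  have hpi := Real.pi_pos
  set u : ℝ := Real.pi / (2 * k) with hu
  have hu0 : 0 < u := by positivity
  have hku : 2 * (k : ℝ) * u = Real.pi := by rw [hu]; field_simp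
  set m : ℤ := n / (2 * (k : ℤ)) with hm
  set r : ℤ := n % (2 * (k : ℤ)) with hr
  have hk2 : (0 : ℤ) < 2 * (k : ℤ) := by omega
  have h1 : n = r + 2 * (k : ℤ) * m := by
    rw [hr, hm]
    exact (Int.emod_add_mul_ediv n (2 * (k : ℤ))).symm
  have hr0 : 0 ≤ r := Int.emod_nonneg _ hk2.ne'
  have hr1 : r < 2 * (k : ℤ) := Int.emod_lt_of_pos _ hk2
  have hr2 : r % 2 = 1 := by
    have h2 : (2 * (k : ℤ) * m) % 2 = 0 := by
      rw [mul_assoc]
      exact Int.mul_emod_right 2 _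
    omega
  have hr3 : 1 ≤ r := by omega
  have hr4 : r ≤ 2 * (k : ℤ) - 1 := by omega
  have h3 : (n : ℝ) * u = r * u + m * Real.pi := by
    rw [h1]
    push_cast
    rw [← hku]
    ring
  rw [h3, Real.cos_add_int_mul_pi, abs_mul, abs_zpow, abs_neg, abs_one, one_zpow, one_mul]
  have hr3' : (1 : ℝ) ≤ r := by exact_mod_cast hr3
  have hr4' : (r : ℝ) ≤ 2 * k - 1 := by exact_mod_cast hr4
  have h4 : u ≤ r * u := by nlinarith
  have h5 : r * u ≤ Real.pi - u := by
    rw [← hku]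
    nlinarith
  rw [abs_le]
  constructor
  · rw [← Real.cos_pi_sub]
    exact Real.cos_le_cos_of_nonneg_of_le_pi (by nlinarith) (by linarith) h5
  · exact Real.cos_le_cos_of_nonneg_of_le_pi hu0.le (by linarith) h4

private theorem dt_poly {k : ℕ} (hk : 2 ≤ k) (j : ℤ) {z : ℂ} (hz : z ∈ poly k) :
    |dt (Real.pi / (2 * k) + j * (Real.pi / k)) z| ≤ Real.cos (Real.pi / (2 * k)) := by
  have hk0 : (0 : ℝ) < k := by
    have : 0 < k := by omega
    exact_mod_cast this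
  set η : ℝ := Real.pi / (2 * k) + j * (Real.pi / k) with hη
  set c : ℝ := Real.cos (Real.pi / (2 * k)) with hc
  have hconv : Convex ℝ {z : ℂ | |dt η z| ≤ c} := by
    intro x hx y hy a b ha hb hab
    simp only [mem_ofPred_eq, abs_le] at hx hy ⊢
    rw [dt_add, dt_smul, dt_smul]
    have e1 : c = a * c + b * c := by rw [← add_mul, hab, one_mul]
    constructor
    · nlinarith [mul_le_mul_of_nonneg_left hx.1 ha, mul_le_mul_of_nonneg_left hy.1 hb]
    · nlinarith [mul_le_mul_of_nonneg_left hx.2 ha, mul_le_mul_of_nonneg_left hy.2 hb]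
  have hsub : poly k ⊆ {z : ℂ | |dt η z| ≤ c} := by
    refine convexHull_min ?_ hconv
    rintro _ ⟨i, rfl⟩
    simp only [mem_ofPred_eq]
    rw [dt_uv]
    have h1 : ((i : ℕ) : ℝ) * (Real.pi / k) - η =
        ((2 * ((i : ℕ) : ℤ) - 2 * j - 1 : ℤ) : ℝ) * (Real.pi / (2 * k)) := by
      rw [hη]
      push_cast
      field_simp
      ring
    rw [h1]
    exact cos_odd hk _ (by omega)
  exact hsub hz

/-- the vertices of the regular polygon -/
noncomputable def nv (k j : ℕ) : ℂ := uv ((j : ℝ) * (Real.pi / k))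

theorem nv_add {k : ℕ} (hk : 2 ≤ k) (j : ℕ) : nv k (j + k) = -nv k j := by
  have hk0 : (k : ℝ) ≠ 0 := by
    have : (0 : ℝ) < k := by exact_mod_cast (by omega : 0 < k)
    exact this.ne'
  unfold nv
  rw [← uv_add_pi]
  congr 1
  push_cast
  field_simp

theorem nv_mem {k : ℕ} (hk : 2 ≤ k) (j : ℕ) : nv k j ∈ poly k := by
  have hper : ∀ q i : ℕ, nv k (i + q * (2 * k)) = nv k i := by
    intro q
    induction q with
    | zero => intro i; simp
    | succ q ih =>
      intro i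
      rw [show i + (q + 1) * (2 * k) = (i + q * (2 * k)) + k + k by ring, nv_add hk, nv_add hk,
        neg_neg, ih]
  have hj : j = j % (2 * k) + (j / (2 * k)) * (2 * k) := (Nat.mod_add_div' j (2 * k)).symm
  rw [hj, hper]
  exact subset_convexHull ℝ _ ⟨⟨j % (2 * k), Nat.mod_lt _ (by omega)⟩, rfl⟩

theorem norm_poly {k : ℕ} {x : ℂ} (hx : x ∈ poly k) : ‖x‖ ≤ 1 := by
  have h1 : poly k ⊆ Metric.closedBall (0 : ℂ) 1 := by
    refine convexHull_min ?_ (convex_closedBall 0 1)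
    rintro _ ⟨j, rfl⟩
    rw [mem_closedBall_zero_iff, norm_uv]
  have h2 := h1 hx
  rwa [mem_closedBall_zero_iff] at h2

theorem norm_sq_dt (η : ℝ) (z : ℂ) : ‖z‖ ^ 2 = dt η z ^ 2 + dt (η + Real.pi / 2) z ^ 2 := by
  rw [Complex.sq_norm, Complex.normSq_apply]
  simp only [dt, Real.cos_add_pi_div_two, Real.sin_add_pi_div_two]
  have e := Real.sin_sq_add_cos_sq η
  linear_combination (-(z.re * z.re) - z.im * z.im) * e

theorem dt_dec (η : ℝ) (z : ℂ) :
    z = (dt η z : ℂ) * uv η + (dt (η + Real.pi / 2) z : ℂ) * uv (η + Real.pi / 2) := by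
  have e := Real.sin_sq_add_cos_sq η
  apply Complex.ext
  · rw [Complex.add_re, Complex.re_ofReal_mul, Complex.re_ofReal_mul, uv_re, uv_re]
    simp only [dt, Real.cos_add_pi_div_two, Real.sin_add_pi_div_two]
    linear_combination -z.re * e
  · rw [Complex.add_im, Complex.im_ofReal_mul, Complex.im_ofReal_mul, uv_im, uv_im]
    simp only [dt, Real.cos_add_pi_div_two, Real.sin_add_pi_div_two]
    linear_combination -z.im * e

/-- a difference of norm one determines the two points -/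
theorem unique_pair {C : Set ℂ} (hd : ∀ x ∈ C, ∀ y ∈ C, ‖x - y‖ ≤ 1) {x y x' y' ν : ℂ}
    (hx : x ∈ C) (hy : y ∈ C) (hx' : x' ∈ C) (hy' : y' ∈ C) (hν : ‖ν‖ = 1) (h : x - y = ν)
    (h' : x' - y' = ν) : x = x' := by
  have h1 := hd x hx y' hy'
  have h2 := hd x' hx' y hy
  have h3 : ⟪ν, x - y'⟫ + ⟪ν, x' - y⟫ = 2 := by
    rw [← inner_add_right, show x - y' + (x' - y) = (2 : ℝ) • ν by
      rw [two_smul]
      nth_rewrite 1 [← h]
      rw [← h']
      ring, real_inner_smul_right, real_inner_self_eq_norm_sq, hν]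
    norm_num
  have h4 : ⟪ν, x' - y⟫ ≤ 1 := by
    have := real_inner_le_norm ν (x' - y)
    rw [hν, one_mul] at this
    linarith
  have h5 : ‖ν - (x - y')‖ ^ 2 ≤ 0 := by
    rw [norm_sub_sq_real, hν]
    nlinarith [norm_nonneg (x - y')]
  have h6 : ν - (x - y') = 0 := by
    rw [← norm_eq_zero]
    nlinarith [norm_nonneg (ν - (x - y'))]
  have h7 : x' - y' = x - y' := by rw [h']; exact sub_eq_zero.1 h6
  exact (sub_left_injective h7).symm

/-- the vertices of the body -/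
theorem exists_v {C : Set ℂ} {k : ℕ} (hk : 2 ≤ k)
    (hd : ∀ z : ℂ, z ∈ poly k ↔ ∃ x ∈ C, ∃ y ∈ C, z = x - y) :
    ∃ v : ℕ → ℂ, (∀ j, v j ∈ C) ∧ ∀ j, v j - v (j + k) = nv k j := by
  have hd1 : ∀ x ∈ C, ∀ y ∈ C, ‖x - y‖ ≤ 1 := fun x hx y hy =>
    norm_poly ((hd _).2 ⟨x, hx, y, hy, rfl⟩)
  have hex : ∀ j, ∃ x ∈ C, ∃ y ∈ C, nv k j = x - y := fun j => (hd _).1 (nv_mem hk j)
  choose v hv w hw hvw using hex
  refine ⟨v, hv, fun j => ?_⟩
  have h1 : w (j + k) - v (j + k) = nv k j := by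
    have h2 := hvw (j + k)
    rw [nv_add hk] at h2
    rw [← neg_sub, ← h2, neg_neg]
  have h3 : v j = w (j + k) :=
    unique_pair hd1 (hv j) (hw j) (hw (j + k)) (hv (j + k)) (norm_uv _) (hvw j).symm h1
  rw [h3, h1]

private theorem copy_diff {C : Set ℂ} {k : ℕ} (hk : 2 ≤ k)
    (hd : ∀ x ∈ C, ∀ y ∈ C, x - y ∈ poly k) (g : ℂ ≃ᵢ ℂ) (ϑ : ℝ) :
    ∃ θ : ℝ, 0 ≤ θ ∧ θ ≤ Real.pi / k ∧ ∀ z ∈ g '' C, ∀ z' ∈ g '' C,
      dt (ϑ - θ) (z - z') ≤ Real.cos (Real.pi / (2 * k)) ∧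
      dt (ϑ - θ + Real.pi / k) (z - z') ≤ Real.cos (Real.pi / (2 * k)) := by
  obtain ⟨θ, h0, h1, h⟩ := copy_width hk g ϑ
  refine ⟨θ, h0, h1, ?_⟩
  rintro _ ⟨x, hx, rfl⟩ _ ⟨y, hy, rfl⟩
  set A := g.toRealAffineIsometryEquiv.linearIsometryEquiv with hA
  have hg : ∀ y, g y = A y + g 0 := by
    intro y
    have h1 := g.toRealAffineIsometryEquiv.map_vadd 0 y
    simpa [hA] using h1
  have e : g (x - y) - g (-(x - y)) = (2 : ℝ) • (g x - g y) := by
    rw [hg (x - y), hg (-(x - y)), hg x, hg y, map_neg, map_sub, two_smul]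
    ring
  have hp := hd x hx y hy
  have hp' : -(x - y) ∈ poly k := by rw [neg_sub]; exact hd y hy x hx
  have h2 := h _ ⟨_, hp, rfl⟩ _ ⟨_, hp', rfl⟩
  rw [e, dt_smul, dt_smul] at h2
  exact ⟨by linarith [h2.1], by linarith [h2.2]⟩

private theorem cross {T T' : Set ℂ} (hT : IsClosed T) (hT' : IsClosed T') {p e : ℂ} {L : ℝ} (hL : 0 ≤ L)
    (h0 : p ∈ T) (h1 : p + (L : ℂ) * e ∈ T') (hc : ∀ a : ℝ, 0 ≤ a → a ≤ L → p + (a : ℂ) * e ∈ T ∪ T') :
    ∃ a : ℝ, 0 ≤ a ∧ a ≤ L ∧ p + (a : ℂ) * e ∈ T ∧ p + (a : ℂ) * e ∈ T' := by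
  have hcont : Continuous fun a : ℝ => p + (a : ℂ) * e := by fun_prop
  have hpre : IsPreconnected (Icc (0 : ℝ) L) := isPreconnected_Icc
  have h := isPreconnected_closed_iff.1 hpre _ _ (hT.preimage hcont) (hT'.preimage hcont) ?_ ?_ ?_
  · obtain ⟨a, ha, ha1, ha2⟩ := h
    exact ⟨a, ha.1, ha.2, ha1, ha2⟩
  · intro a ha
    exact hc a ha.1 ha.2
  · exact ⟨0, ⟨le_refl _, hL⟩, by simpa using h0⟩
  · exact ⟨L, ⟨hL, le_refl _⟩, h1⟩

/-- the width estimate for one copy -/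
private theorem final {C : Set ℂ} {k : ℕ} (hk : 2 ≤ k) (hd : ∀ x ∈ C, ∀ y ∈ C, x - y ∈ poly k)
    (g : ℂ ≃ᵢ ℂ) (ϑ r A B : ℝ) (hr : 1 < r) {z1 z1' z2 z2' : ℂ} (m1 : z1 ∈ g '' C)
    (m1' : z1' ∈ g '' C) (m2 : z2 ∈ g '' C) (m2' : z2' ∈ g '' C)
    (e1 : z1 - z1' = ((r * Real.cos (Real.pi / k / 2) : ℝ) : ℂ) * uv ϑ +
      (A : ℂ) * uv (ϑ + Real.pi / 2))
    (e2 : z2 - z2' = ((r * Real.cos (Real.pi / k / 2) : ℝ) : ℂ) * uv ϑ -
      (B : ℂ) * uv (ϑ + Real.pi / 2)) :
    A + B < Real.sin (Real.pi / k / 2) := by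
  have hk0 : (0 : ℝ) < k := by exact_mod_cast (by omega : 0 < k)
  have hk2 : (2 : ℝ) ≤ k := by exact_mod_cast hk
  have hpi := Real.pi_pos
  have hγ0 : 0 < Real.pi / k := by positivity
  have hγ : Real.pi / k ≤ Real.pi / 2 := div_le_div_of_nonneg_left hpi.le (by norm_num) hk2
  have hc : 0 < Real.cos (Real.pi / k / 2) := Real.cos_pos_of_mem_Ioo ⟨by linarith, by linarith⟩
  obtain ⟨θ, h0, h1, h⟩ := copy_diff hk hd g ϑ
  have hh : Real.pi / (2 * k) = Real.pi / k / 2 := by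
    rw [mul_comm, div_div]
  have k1 := (h z2 m2 z2' m2').1
  have k2 := (h z1 m1 z1' m1').2
  rw [e2, hh, dt_sub, dt_real_mul, dt_real_mul, dt_uv, dt_uv, show ϑ - (ϑ - θ) = θ by ring,
    show ϑ + Real.pi / 2 - (ϑ - θ) = θ + Real.pi / 2 by ring, Real.cos_add_pi_div_two] at k1
  rw [e1, hh, dt_add, dt_real_mul, dt_real_mul, dt_uv, dt_uv,
    show ϑ - (ϑ - θ + Real.pi / k) = -(Real.pi / k - θ) by ring, Real.cos_neg,
    show ϑ + Real.pi / 2 - (ϑ - θ + Real.pi / k) = Real.pi / 2 - (Real.pi / k - θ) by ring,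
    Real.cos_pi_div_two_sub] at k2
  have := trap (w' := 2 * (r * Real.cos (Real.pi / k / 2))) (A := 2 * A) (B := 2 * B) hγ0 hγ h0 h1
    (by nlinarith) (by linarith) (by linarith)
  linarith

/-- **Main lemma.**  If the difference body of `C` is the regular polygon `poly k`, two congruent
copies of `C` do not cover a neighborhood of `C`. -/
theorem not_cov_diff {C : Set ℂ} {k : ℕ} (hk : 2 ≤ k) (hconv : Convex ℝ C) (hcomp : IsCompact C)
    (hd : ∀ z : ℂ, z ∈ poly k ↔ ∃ x ∈ C, ∃ y ∈ C, z = x - y) : ¬ Cov C 2 := by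
  rintro ⟨g, U, hU, hCU, hUg⟩
  have hk0 : (0 : ℝ) < k := by exact_mod_cast (by omega : 0 < k)
  have hk2 : (2 : ℝ) ≤ k := by exact_mod_cast hk
  have hpi := Real.pi_pos
  have hγ0 : 0 < Real.pi / k := by positivity
  have hγ : Real.pi / k ≤ Real.pi / 2 := div_le_div_of_nonneg_left hpi.le (by norm_num) hk2
  have hdm : ∀ x ∈ C, ∀ y ∈ C, x - y ∈ poly k := fun x hx y hy => (hd _).2 ⟨x, hx, y, hy, rfl⟩
  have hdn : ∀ x ∈ C, ∀ y ∈ C, ‖x - y‖ ≤ 1 := fun x hx y hy => norm_poly (hdm x hx y hy)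
  obtain ⟨v, hvC, hv⟩ := exists_v hk hd
  -- the enlargement
  obtain ⟨δ, hδ, hδU⟩ := hcomp.exists_thickening_subset_open hU hCU
  obtain ⟨R, hR⟩ := hcomp.isBounded.exists_norm_le
  have hR0 : 0 ≤ R := (norm_nonneg _).trans (hR _ (hvC 0))
  obtain ⟨r, hr1, hrU⟩ : ∃ r : ℝ, 1 < r ∧ ∀ x ∈ C, (r : ℂ) * x ∈ U := by
    refine ⟨1 + δ / (2 * (R + 1)), by linarith [show 0 < δ / (2 * (R + 1)) by positivity],
      fun x hx => hδU ?_⟩
    rw [Metric.mem_thickening_iff]
    refine ⟨x, hx, ?_⟩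
    rw [dist_eq_norm, show ((1 + δ / (2 * (R + 1)) : ℝ) : ℂ) * x - x =
      ((δ / (2 * (R + 1)) : ℝ) : ℂ) * x by push_cast; ring,
      norm_mul, Complex.norm_real, Real.norm_of_nonneg (by positivity)]
    have h1 := hR x hx
    have h2 : δ / (2 * (R + 1)) * ‖x‖ ≤ δ / (2 * (R + 1)) * (R + 1) :=
      mul_le_mul_of_nonneg_left (by linarith) (by positivity)
    have h3 : δ / (2 * (R + 1)) * (R + 1) = δ / 2 := by field_simp
    linarith
  have hcovT : ∀ x ∈ C, ∃ i, (r : ℂ) * x ∈ g i '' C := fun x hx => by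
    have := hUg (hrU x hx)
    rwa [mem_iUnion] at this
  have hclosed : ∀ i, IsClosed (g i '' C) := fun i => (hcomp.image (g i).continuous).isClosed
  -- (a)
  have hnot : ∀ (i : Fin 2) (j : ℕ), (r : ℂ) * v j ∈ g i '' C → (r : ℂ) * v (j + k) ∉ g i '' C := by
    rintro i j ⟨x, hx, hxe⟩ ⟨y, hy, hye⟩
    have h1 : ‖(r : ℂ) * v j - (r : ℂ) * v (j + k)‖ ≤ 1 := by
      rw [← hxe, ← hye, ← dist_eq_norm, (g i).dist_eq, dist_eq_norm]
      exact hdn x hx y hy
    rw [← mul_sub, hv, norm_mul, Complex.norm_real, Real.norm_of_nonneg (by linarith),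
      show ‖nv k j‖ = 1 from norm_uv _] at h1
    linarith
  have hor : ∀ (i i' : Fin 2), i ≠ i' → ∀ x ∈ C, (r : ℂ) * x ∉ g i '' C → (r : ℂ) * x ∈ g i' '' C := by
    intro i i' hii x hx hn
    obtain ⟨l, hl⟩ := hcovT x hx
    have hl' : l = i' := by
      have hli : l ≠ i := fun h => hn (h ▸ hl)
      omega
    exact hl' ▸ hl
  -- (b)
  obtain ⟨i, j, hij, hij1⟩ : ∃ (i : Fin 2) (j : ℕ), (r : ℂ) * v j ∈ g i '' C ∧
      (r : ℂ) * v (j + 1) ∉ g i '' C := by
    by_contra hcon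
    push Not at hcon
    obtain ⟨i, hi⟩ := hcovT (v 0) (hvC 0)
    have hall : ∀ j, (r : ℂ) * v j ∈ g i '' C := by
      intro j
      induction j with
      | zero => exact hi
      | succ j ih => exact hcon i j ih
    exact hnot i 0 hi (hall (0 + k))
  obtain ⟨i', hi'⟩ : ∃ i' : Fin 2, i ≠ i' := ⟨1 - i, by omega⟩
  have q1 : (r : ℂ) * v (j + 1) ∈ g i' '' C := hor i i' hi' _ (hvC _) hij1
  have q2 : (r : ℂ) * v (j + k) ∈ g i' '' C := hor i i' hi' _ (hvC _) (hnot i j hij)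
  have q3 : (r : ℂ) * v (j + 1 + k) ∈ g i '' C := hor i' i hi'.symm _ (hvC _) (hnot i' (j + 1) q1)
  -- (c)
  set γ : ℝ := Real.pi / k with hγdef
  set ϑ : ℝ := (2 * (j : ℝ) + 1) * (γ / 2) with hϑ
  set σ : ℝ := Real.sin (γ / 2) with hσ
  set c : ℝ := Real.cos (γ / 2) with hc
  set e : ℂ := uv (ϑ + Real.pi / 2) with he
  have hσ0 : 0 < σ := Real.sin_pos_of_pos_of_lt_pi (x := γ / 2) (by linarith) (by linarith)
  have hcs : σ ^ 2 + c ^ 2 = 1 := Real.sin_sq_add_cos_sq (γ / 2)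
  have a1 : (j : ℝ) * γ = ϑ - γ / 2 := by rw [hϑ]; ring
  have a2 : ((j + 1 : ℕ) : ℝ) * γ = ϑ + γ / 2 := by rw [hϑ]; push_cast; ring
  have n1 : nv k j = (c : ℂ) * uv ϑ - (σ : ℂ) * e := by
    unfold nv
    rw [← hγdef, a1, he, hc, hσ]
    apply Complex.ext
    · rw [Complex.sub_re, uv_re, Complex.re_ofReal_mul, Complex.re_ofReal_mul, uv_re, uv_re,
        Real.cos_add_pi_div_two, Real.cos_sub]
      ring
    · rw [Complex.sub_im, uv_im, Complex.im_ofReal_mul, Complex.im_ofReal_mul, uv_im, uv_im,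
        Real.sin_add_pi_div_two, Real.sin_sub]
      ring
  have n2 : nv k (j + 1) = (c : ℂ) * uv ϑ + (σ : ℂ) * e := by
    unfold nv
    rw [← hγdef, a2, he, hc, hσ]
    apply Complex.ext
    · rw [Complex.add_re, uv_re, Complex.re_ofReal_mul, Complex.re_ofReal_mul, uv_re, uv_re,
        Real.cos_add_pi_div_two, Real.cos_add]
      ring
    · rw [Complex.add_im, uv_im, Complex.im_ofReal_mul, Complex.im_ofReal_mul, uv_im, uv_im,
        Real.sin_add_pi_div_two, Real.sin_add]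
      ring
  have hdtw : ∀ x ∈ C, ∀ y ∈ C, dt ϑ (x - y) ≤ c := by
    intro x hx y hy
    have h1 := dt_poly hk (j : ℤ) (hdm x hx y hy)
    have h2 : Real.pi / (2 * k) + ((j : ℤ) : ℝ) * (Real.pi / k) = ϑ := by
      rw [hϑ, hγdef]
      push_cast
      field_simp
      ring
    have h3 : Real.pi / (2 * k) = γ / 2 := by rw [hγdef, mul_comm, div_div]
    rw [h2, h3] at h1
    exact (abs_le.1 h1).2
  have dt1 : dt ϑ (v j) - dt ϑ (v (j + k)) = c := by
    rw [← dt_sub, hv]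
    unfold nv
    rw [dt_uv, ← hγdef, a1, show ϑ - γ / 2 - ϑ = -(γ / 2) by ring, Real.cos_neg]
  have dt2 : dt ϑ (v (j + 1)) - dt ϑ (v (j + 1 + k)) = c := by
    rw [← dt_sub, hv]
    unfold nv
    rw [dt_uv, ← hγdef, a2, show ϑ + γ / 2 - ϑ = γ / 2 by ring]
  have dt3 := hdtw _ (hvC j) _ (hvC (j + 1 + k))
  have dt4 := hdtw _ (hvC (j + 1)) _ (hvC (j + k))
  rw [dt_sub] at dt3 dt4
  -- the difference on the far side
  obtain ⟨b, hb⟩ : ∃ b : ℝ, v (j + k) - v (j + 1 + k) = (b : ℂ) * e := by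
    refine ⟨dt (ϑ + Real.pi / 2) (v (j + k) - v (j + 1 + k)), ?_⟩
    have h1 := dt_dec ϑ (v (j + k) - v (j + 1 + k))
    have h2 : dt ϑ (v (j + k) - v (j + 1 + k)) = 0 := by
      rw [dt_sub]
      linarith
    rw [h2, Complex.ofReal_zero, zero_mul, zero_add] at h1
    exact h1
  have hvj : v j - v (j + 1 + k) = (c : ℂ) * uv ϑ + ((b - σ : ℝ) : ℂ) * e := by
    have h1 : v j - v (j + 1 + k) = nv k j + (v (j + k) - v (j + 1 + k)) := by
      rw [← hv]
      ring
    rw [h1, hb, n1]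
    push_cast
    ring
  have hvj1 : v (j + 1) - v j = ((2 * σ - b : ℝ) : ℂ) * e := by
    have h1 : v (j + 1) - v j = nv k (j + 1) - nv k j - (v (j + k) - v (j + 1 + k)) := by
      rw [← hv j, ← hv (j + 1)]
      ring
    rw [h1, hb, n1, n2]
    push_cast
    ring
  have hb01 : 0 ≤ b ∧ b ≤ 2 * σ := by
    have h1 := hdn _ (hvC j) _ (hvC (j + 1 + k))
    have h2 := norm_sq_dt ϑ (v j - v (j + 1 + k))
    have h3 : dt ϑ (v j - v (j + 1 + k)) = c := by
      rw [hvj, dt_add, dt_real_mul, dt_real_mul, dt_uv, he, dt_uv, sub_self, Real.cos_zero,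
        add_sub_cancel_left, Real.cos_pi_div_two]
      ring
    have h4 : dt (ϑ + Real.pi / 2) (v j - v (j + 1 + k)) = b - σ := by
      rw [hvj, dt_add, dt_real_mul, dt_real_mul, dt_uv, he, dt_uv, sub_self, Real.cos_zero,
        show ϑ - (ϑ + Real.pi / 2) = -(Real.pi / 2) by ring, Real.cos_neg, Real.cos_pi_div_two]
      ring
    rw [h3, h4] at h2
    have h5 : (b - σ) ^ 2 ≤ σ ^ 2 := by nlinarith [norm_nonneg (v j - v (j + 1 + k))]
    have h6 := abs_le_of_sq_le_sq h5 hσ0.le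
    constructor <;> linarith [(abs_le.1 h6).1, (abs_le.1 h6).2]
  obtain ⟨hb0, hb1⟩ := hb01
  have hseg : ∀ (p q : ℂ) (L : ℝ), p ∈ C → q ∈ C → 0 ≤ L → q - p = (L : ℂ) * e → ∀ a : ℝ, 0 ≤ a →
      a ≤ r * L → (r : ℂ) * p + (a : ℂ) * e ∈ g i '' C ∪ g i' '' C := by
    intro p q L hp hq hL hpq a ha0 ha1
    have hcase : ∀ x ∈ C, (r : ℂ) * x ∈ g i '' C ∪ g i' '' C := by
      intro x hx
      by_cases hc : (r : ℂ) * x ∈ g i '' C
      · exact Or.inl hc
      · exact Or.inr (hor i i' hi' _ hx hc)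
    rcases eq_or_lt_of_le hL with hL0 | hL0
    · have ha : a = 0 := by
        rw [← hL0, mul_zero] at ha1
        linarith
      rw [ha, Complex.ofReal_zero, zero_mul, add_zero]
      exact hcase p hp
    · have hrL : 0 < r * L := by positivity
      have hm : (1 - a / (r * L)) • p + (a / (r * L)) • q ∈ C := by
        refine hconv hp hq ?_ (by positivity) (by ring)
        rw [sub_nonneg, div_le_one hrL]
        exact ha1
      have heq : (r : ℂ) * p + (a : ℂ) * e = (r : ℂ) * ((1 - a / (r * L)) • p + (a / (r * L)) • q) := by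
        have hq' : q = p + (L : ℂ) * e := by rw [← hpq]; ring
        have hr0 : (r : ℂ) ≠ 0 := by exact_mod_cast (by linarith : r ≠ 0)
        have hL0' : (L : ℂ) ≠ 0 := by exact_mod_cast hL0.ne'
        rw [hq', Complex.real_smul, Complex.real_smul]
        push_cast
        field_simp
        ring
      rw [heq]
      exact hcase _ hm
  obtain ⟨a, ha0, ha1, ha2, ha3⟩ := cross (hclosed i) (hclosed i') (p := (r : ℂ) * v j) (e := e)
    (L := r * (2 * σ - b)) (mul_nonneg (by linarith) (by linarith)) hij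
    (by
      have : (r : ℂ) * v j + ((r * (2 * σ - b) : ℝ) : ℂ) * e = (r : ℂ) * v (j + 1) := by
        rw [Complex.ofReal_mul, mul_assoc, ← hvj1]
        ring
      rw [this]
      exact q1)
    (hseg _ _ (2 * σ - b) (hvC j) (hvC (j + 1)) (by linarith) hvj1)
  obtain ⟨t, ht0, ht1, ht2, ht3⟩ := cross (hclosed i) (hclosed i') (p := (r : ℂ) * v (j + 1 + k)) (e := e)
    (L := r * b) (mul_nonneg (by linarith) hb0) q3
    (by
      have : (r : ℂ) * v (j + 1 + k) + ((r * b : ℝ) : ℂ) * e = (r : ℂ) * v (j + k) := by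
        rw [Complex.ofReal_mul, mul_assoc, ← hb]
        ring
      rw [this]
      exact q2)
    (hseg _ _ b (hvC (j + 1 + k)) (hvC (j + k)) hb0 hb)
  -- (d), (e)
  have f1 : (r : ℂ) * v j - (r : ℂ) * v (j + 1 + k) =
      ((r * c : ℝ) : ℂ) * uv ϑ + ((r * (b - σ) : ℝ) : ℂ) * e := by
    rw [← mul_sub, hvj]
    push_cast
    ring
  have f2 : (r : ℂ) * v (j + 1) - (r : ℂ) * v (j + 1 + k) =
      ((r * c : ℝ) : ℂ) * uv ϑ + ((r * σ : ℝ) : ℂ) * e := by
    rw [← mul_sub, hv, n2]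
    push_cast
    ring
  have f3 : (r : ℂ) * v j - (r : ℂ) * v (j + k) =
      ((r * c : ℝ) : ℂ) * uv ϑ - ((r * σ : ℝ) : ℂ) * e := by
    rw [← mul_sub, hv, n1]
    push_cast
    ring
  have g1 := final hk hdm (g i) ϑ r (r * (b - σ) + a) (t - r * (b - σ)) hr1 ha2 q3 hij ht2
    (by
      rw [← hγdef, ← hc, add_sub_right_comm, f1]
      push_cast
      ring)
    (by
      rw [← hγdef, ← hc, ← sub_sub, f1]
      push_cast
      ring)
  have g2 := final hk hdm (g i') ϑ r (r * σ - t) (r * σ - a) hr1 q1 ht3 ha3 q2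
    (by
      rw [← hγdef, ← hc, ← sub_sub, f2]
      push_cast
      ring)
    (by
      rw [← hγdef, ← hc, add_sub_right_comm, f3]
      push_cast
      ring)
  rw [← hγdef, ← hσ] at g1 g2
  nlinarith

/-- **Borsuk number three.**  If two congruent copies cover a neighborhood of `C`, then `C` is the
union of two sets of smaller diameter. -/
theorem borsuk_of_cov {C : Set ℂ} (hcomp : IsCompact C) (hint : (interior C).Nonempty)
    (h : Cov C 2) : ∃ A B : Set ℂ, C = A ∪ B ∧ Metric.diam A < Metric.diam C ∧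
      Metric.diam B < Metric.diam C := by
  obtain ⟨g, U, hU, hCU, hUg⟩ := h
  obtain ⟨δ, hδ, hδU⟩ := hcomp.exists_thickening_subset_open hU hCU
  obtain ⟨R, hR⟩ := hcomp.isBounded.exists_norm_le
  obtain ⟨x0, hx0⟩ := hint
  have hR0 : 0 ≤ R := (norm_nonneg _).trans (hR _ (interior_subset hx0))
  obtain ⟨r, hr1, hrU⟩ : ∃ r : ℝ, 1 < r ∧ ∀ x ∈ C, (r : ℂ) * x ∈ U := by
    refine ⟨1 + δ / (2 * (R + 1)), by linarith [show 0 < δ / (2 * (R + 1)) by positivity],
      fun x hx => hδU ?_⟩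
    rw [Metric.mem_thickening_iff]
    refine ⟨x, hx, ?_⟩
    rw [dist_eq_norm, show ((1 + δ / (2 * (R + 1)) : ℝ) : ℂ) * x - x =
      ((δ / (2 * (R + 1)) : ℝ) : ℂ) * x by push_cast; ring,
      norm_mul, Complex.norm_real, Real.norm_of_nonneg (by positivity)]
    have h1 := hR x hx
    have h2 : δ / (2 * (R + 1)) * ‖x‖ ≤ δ / (2 * (R + 1)) * (R + 1) :=
      mul_le_mul_of_nonneg_left (by linarith) (by positivity)
    have h3 : δ / (2 * (R + 1)) * (R + 1) = δ / 2 := by field_simp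
    linarith
  have hcovT : ∀ x ∈ C, ∃ i, (r : ℂ) * x ∈ g i '' C := fun x hx => by
    have := hUg (hrU x hx)
    rwa [mem_iUnion] at this
  -- the diameter of `C` is positive
  have hdpos : 0 < Metric.diam C := by
    obtain ⟨ε, hε, hball⟩ := Metric.isOpen_iff.1 isOpen_interior x0 hx0
    have h1 : x0 + ((ε / 2 : ℝ) : ℂ) ∈ C := by
      refine interior_subset (hball ?_)
      rw [Metric.mem_ball, dist_eq_norm, add_sub_cancel_left, Complex.norm_real,
        Real.norm_of_nonneg (by linarith)]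
      linarith
    have h2 := Metric.dist_le_diam_of_mem hcomp.isBounded h1 (interior_subset hx0)
    rw [dist_eq_norm, add_sub_cancel_left, Complex.norm_real,
      Real.norm_of_nonneg (by linarith)] at h2
    linarith
  have hsmall : ∀ i : Fin 2, Metric.diam {x | x ∈ C ∧ (r : ℂ) * x ∈ g i '' C} < Metric.diam C := by
    intro i
    have h1 : Metric.diam {x | x ∈ C ∧ (r : ℂ) * x ∈ g i '' C} ≤ Metric.diam C / r := by
      refine Metric.diam_le_of_forall_dist_le (by positivity) ?_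
      rintro x ⟨-, a, ha, hax⟩ y ⟨-, b, hb, hby⟩
      rw [le_div_iff₀ (by linarith)]
      have h2 : dist ((r : ℂ) * x) ((r : ℂ) * y) = dist x y * r := by
        rw [dist_eq_norm, ← mul_sub, norm_mul, Complex.norm_real, Real.norm_of_nonneg (by linarith),
          dist_eq_norm, mul_comm]
      rw [← h2, ← hax, ← hby, (g i).dist_eq]
      exact Metric.dist_le_diam_of_mem hcomp.isBounded ha hb
    refine h1.trans_lt ?_
    rw [div_lt_iff₀ (by linarith)]
    nlinarith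
  refine ⟨_, _, ?_, hsmall 0, hsmall 1⟩
  ext x
  constructor
  · intro hx
    obtain ⟨i, hi⟩ := hcovT x hx
    fin_cases i
    · exact Or.inl ⟨hx, hi⟩
    · exact Or.inr ⟨hx, hi⟩
  · rintro (h | h)
    · exact h.1
    · exact h.1

end Newton54D
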