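import Pool.Agent.Lib.MP_54d165_co.Main

/-!
The plane: three congruent copies suffice for every convex body.
-/

namespace Newton54S

set_option linter.unusedSectionVars false

open Set Filter Topology
open scoped RealInnerProductSpace

variable {E : Type*} [NormedAddCommGroup E] [InnerProductSpace ℝ E] [FiniteDimensional ℝ E]

theorem two_dim (hd : Module.finrank ℝ E = 2) {u e : E} (hu : ‖u‖ = 1) (he : ‖e‖ = 1)
    (heu : ⟪e, u⟫ = 0) {z : E} (h1 : ⟪e, z⟫ = 0) (h2 : ⟪u, z⟫ = 0) : z = 0 := by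
  have hu0 : u ≠ 0 := by
    rintro rfl
    rw [norm_zero] at hu
    exact zero_ne_one hu
  have he0 : e ≠ 0 := by
    rintro rfl
    rw [norm_zero] at he
    exact zero_ne_one he
  have hfin : Module.finrank ℝ (ℝ ∙ u)ᗮ = 1 := by
    have h3 := Submodule.finrank_add_finrank_orthogonal (ℝ ∙ u)
    rw [finrank_span_singleton hu0, hd] at h3
    omega
  have heF : e ∈ (ℝ ∙ u)ᗮ := Submodule.mem_orthogonal_singleton_iff_inner_left.2 heu
  have hzF : z ∈ (ℝ ∙ u)ᗮ := Submodule.mem_orthogonal_singleton_iff_inner_right.2 h2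
  obtain ⟨c, hc⟩ := (finrank_eq_one_iff_of_nonzero' (⟨e, heF⟩ : (ℝ ∙ u)ᗮ) (by
    intro h
    exact he0 (congrArg Subtype.val h))).1 hfin ⟨z, hzF⟩
  have h3 : c • e = z := congrArg Subtype.val hc
  rw [← h3, real_inner_smul_right, real_inner_self_eq_norm_sq, he] at h1
  have h4 : c = 0 := by linarith
  rw [← h3, h4, zero_smul]

theorem exists_perp (hd : Module.finrank ℝ E = 2) {u : E} (hu : ‖u‖ = 1) :
    ∃ e : E, ‖e‖ = 1 ∧ ⟪e, u⟫ = 0 := by
  have hu0 : u ≠ 0 := by
    rintro rfl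
    rw [norm_zero] at hu
    exact zero_ne_one hu
  have hfin : Module.finrank ℝ (ℝ ∙ u)ᗮ = 1 := by
    have h3 := Submodule.finrank_add_finrank_orthogonal (ℝ ∙ u)
    rw [finrank_span_singleton hu0, hd] at h3
    omega
  set b := stdOrthonormalBasis ℝ (ℝ ∙ u)ᗮ with hb
  refine ⟨(b ⟨0, by omega⟩ : E), ?_, ?_⟩
  · exact b.orthonormal.1 ⟨0, by omega⟩
  · exact Submodule.mem_orthogonal_singleton_iff_inner_left.1 (b ⟨0, by omega⟩).2

theorem norm_sq_two (hd : Module.finrank ℝ E = 2) {u e : E} (hu : ‖u‖ = 1) (he : ‖e‖ = 1)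
    (heu : ⟪e, u⟫ = 0) (z : E) : ‖z‖ ^ 2 = ⟪e, z⟫ ^ 2 + ⟪u, z⟫ ^ 2 := by
  have hue : ⟪u, e⟫ = 0 := by rw [real_inner_comm]; exact heu
  have h1 : z - (⟪e, z⟫ • e + ⟪u, z⟫ • u) = 0 := by
    refine two_dim hd hu he heu ?_ ?_
    · rw [inner_sub_right, inner_add_right, real_inner_smul_right, real_inner_smul_right,
        real_inner_self_eq_norm_sq, he, heu]
      ring
    · rw [inner_sub_right, inner_add_right, real_inner_smul_right, real_inner_smul_right,
        real_inner_self_eq_norm_sq, hu, hue]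
      ring
  have h2 : z = ⟪e, z⟫ • e + ⟪u, z⟫ • u := sub_eq_zero.1 h1
  have h3 : ‖⟪e, z⟫ • e + ⟪u, z⟫ • u‖ ^ 2 = ⟪e, z⟫ ^ 2 + ⟪u, z⟫ ^ 2 := by
    rw [norm_add_sq_real, norm_smul, norm_smul, he, hu, real_inner_smul_left,
      real_inner_smul_right, heu, mul_one, mul_one, Real.norm_eq_abs, Real.norm_eq_abs,
      sq_abs, sq_abs]
    ring
  rw [← h3, ← h2]

/-- no point has two normals on both sides of `u` -/
def Good (C : Set E) (u : E) : Prop :=
  ∀ e : E, ‖e‖ = 1 → ⟪e, u⟫ = 0 → ∀ s : ℝ, 0 < s → ∀ x ∈ C,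
    ¬ ((∀ y ∈ C, ⟪u + s • e, y⟫ ≤ ⟪u + s • e, x⟫) ∧
      ∀ y ∈ C, ⟪u - s • e, y⟫ ≤ ⟪u - s • e, x⟫)

theorem good_face (hd : Module.finrank ℝ E = 2) {C : Set E} {u : E} (hu : ‖u‖ = 1) {x x' : E}
    (hx : x ∈ C) (hx' : x' ∈ C) (hne : x ≠ x') (hmax : ∀ y ∈ C, ⟪u, y⟫ ≤ ⟪u, x⟫)
    (heq : ⟪u, x'⟫ = ⟪u, x⟫) : Good C u := by
  rintro e he heu s hs z hz ⟨h1, h2⟩
  have hzmax : ∀ y ∈ C, ⟪u, y⟫ ≤ ⟪u, z⟫ := by
    intro y hy
    have h3 := h1 y hy
    have h4 := h2 y hy
    rw [inner_add_left, inner_add_left] at h3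
    rw [inner_sub_left, inner_sub_left] at h4
    linarith
  have key : ∀ y ∈ C, ⟪u, y⟫ = ⟪u, z⟫ → y = z := by
    intro y hy hyz
    have h3 := h1 y hy
    have h4 := h2 y hy
    rw [inner_add_left, inner_add_left, real_inner_smul_left, real_inner_smul_left] at h3
    rw [inner_sub_left, inner_sub_left, real_inner_smul_left, real_inner_smul_left] at h4
    have h5 : s * ⟪e, y⟫ = s * ⟪e, z⟫ := by linarith
    have h6 : ⟪e, y⟫ = ⟪e, z⟫ := mul_left_cancel₀ hs.ne' h5
    refine sub_eq_zero.1 (two_dim hd hu he heu ?_ ?_)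
    · rw [inner_sub_right, h6, sub_self]
    · rw [inner_sub_right, hyz, sub_self]
  have hxz : ⟪u, x⟫ = ⟪u, z⟫ := le_antisymm (hzmax x hx) (hmax z hz)
  have e1 := key x hx hxz
  have e2 := key x' hx' (heq.trans hxz)
  exact hne (e1.trans e2.symm)

theorem exists_good (hd : Module.finrank ℝ E = 2) {C : Set E} (hconv : Convex ℝ C)
    (hcomp : IsCompact C) (hint : (interior C).Nonempty) : ∃ u : E, ‖u‖ = 1 ∧ Good C u := by
  obtain ⟨o, ho⟩ := hint
  have hclosed : IsClosed (interior C)ᶜ := isOpen_interior.isClosed_compl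
  have hne : ((interior C)ᶜ).Nonempty := by
    by_contra hcon
    rw [Set.not_nonempty_iff_eq_empty, Set.compl_empty_iff] at hcon
    have h1 : C = univ := Set.eq_univ_of_univ_subset (hcon ▸ interior_subset)
    have : Nontrivial E := Module.nontrivial_of_finrank_pos (R := ℝ) (by omega)
    rw [h1] at hcomp
    exact NoncompactSpace.noncompact_univ (X := E) hcomp
  obtain ⟨x₀, hx₀, hx₀d⟩ := hclosed.exists_infDist_eq_dist hne o
  have hox : o ≠ x₀ := fun h => hx₀ (h ▸ ho)
  set r := dist o x₀ with hr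
  have hr0 : 0 < r := dist_pos.2 hox
  have hball : Metric.ball o r ⊆ interior C := by
    intro y hy
    by_contra hcon
    have h1 : Metric.infDist o (interior C)ᶜ ≤ dist o y := Metric.infDist_le_dist_of_mem hcon
    rw [hx₀d] at h1
    rw [Metric.mem_ball, dist_comm] at hy
    linarith
  have hcball : Metric.closedBall o r ⊆ C := by
    rw [← closure_ball o hr0.ne']
    exact closure_minimal (hball.trans interior_subset) hcomp.isClosed
  have hx₀C : x₀ ∈ C := hcball (by rw [Metric.mem_closedBall, dist_comm])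
  -- the normal is unique
  have huniq : ∀ n, Nml C x₀ n → r • n = x₀ - o := by
    intro n hn
    have h1 := hn.2 (o + r • n) (hcball (by
      rw [Metric.mem_closedBall, dist_eq_norm, add_sub_cancel_left, norm_smul, hn.1, mul_one,
        Real.norm_of_nonneg hr0.le]))
    rw [inner_add_right, real_inner_smul_right, real_inner_self_eq_norm_sq, hn.1] at h1
    have h2 : ‖(x₀ - o) - r • n‖ ^ 2 ≤ 0 := by
      rw [norm_sub_sq_real, real_inner_smul_right, norm_smul, hn.1, mul_one,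
        Real.norm_of_nonneg hr0.le, inner_sub_left, real_inner_comm n x₀, real_inner_comm n o]
      have h3 : ‖x₀ - o‖ = r := by rw [hr, dist_comm, dist_eq_norm]
      rw [h3]
      nlinarith
    have h3 : ‖(x₀ - o) - r • n‖ = 0 := by
      have := norm_nonneg ((x₀ - o) - r • n)
      nlinarith
    exact (sub_eq_zero.1 (norm_eq_zero.1 h3)).symm
  obtain ⟨u, hu⟩ := exists_normal hconv ⟨o, ho⟩ hx₀C hx₀
  refine ⟨u, hu.1, ?_⟩
  by_cases hF : ∃ x' ∈ C, x' ≠ x₀ ∧ ⟪u, x'⟫ = ⟪u, x₀⟫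
  · obtain ⟨x', hx', hne', heq⟩ := hF
    exact good_face hd hu.1 hx₀C hx' hne'.symm hu.2 heq
  · push Not at hF
    rintro e he heu s hs z hz ⟨h1, h2⟩
    have hzmax : ∀ y ∈ C, ⟪u, y⟫ ≤ ⟪u, z⟫ := by
      intro y hy
      have h3 := h1 y hy
      have h4 := h2 y hy
      rw [inner_add_left, inner_add_left] at h3
      rw [inner_sub_left, inner_sub_left] at h4
      linarith
    have hzx : z = x₀ := by
      by_contra hne'
      exact hF z hz hne' (le_antisymm (hu.2 z hz) (hzmax x₀ hx₀C))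
    rw [hzx] at h1
    set m := u + s • e with hm
    have hem : ⟪e, m⟫ = s := by
      rw [hm, inner_add_right, real_inner_smul_right, real_inner_self_eq_norm_sq, he, heu]
      ring
    have hm0 : 0 < ‖m‖ := by
      rw [norm_pos_iff]
      intro h
      rw [h, inner_zero_right] at hem
      linarith
    have hN : Nml C x₀ (‖m‖⁻¹ • m) := by
      refine ⟨by rw [norm_smul, norm_inv, norm_norm, inv_mul_cancel₀ hm0.ne'], fun y hy => ?_⟩
      rw [real_inner_smul_left, real_inner_smul_left]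
      have h3 := h1 y hy
      gcongr
    have h3 := (huniq _ hN).trans (huniq u hu).symm
    have h4 : ‖m‖⁻¹ • m = u := smul_right_injective E hr0.ne' h3
    have h5 : ⟪e, ‖m‖⁻¹ • m⟫ = ⟪e, u⟫ := by
      rw [h4]
    rw [real_inner_smul_right, hem, heu] at h5
    have : 0 < ‖m‖⁻¹ * s := by positivity
    linarith

/-- `u` with a short opposite face -/
theorem exists_good_short (hd : Module.finrank ℝ E = 2) {C : Set E} (hconv : Convex ℝ C)
    (hcomp : IsCompact C) (hint : (interior C).Nonempty) :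
    ∃ u : E, ‖u‖ = 1 ∧ Good C u ∧ ∀ a ∈ C, ∀ b ∈ C, (∀ y ∈ C, ⟪u, a⟫ ≤ ⟪u, y⟫) →
      (∀ y ∈ C, ⟪u, b⟫ ≤ ⟪u, y⟫) → ∃ p ∈ C, ∃ q ∈ C, dist a b < dist p q := by
  obtain ⟨u, hu, hgood⟩ := exists_good hd hconv hcomp hint
  by_cases hF : ∀ a ∈ C, ∀ b ∈ C, (∀ y ∈ C, ⟪u, a⟫ ≤ ⟪u, y⟫) →
      (∀ y ∈ C, ⟪u, b⟫ ≤ ⟪u, y⟫) → ∃ p ∈ C, ∃ q ∈ C, dist a b < dist p q
  · exact ⟨u, hu, hgood, hF⟩
  · push Not at hF
    obtain ⟨a, ha, b, hb, hamin, hbmin, hab⟩ := hF
    obtain ⟨e, he, heu⟩ := exists_perp hd hu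
    obtain ⟨o, ho⟩ := hint
    -- points with larger values of `u`
    obtain ⟨r, hr, hball⟩ := Metric.isOpen_iff.1 isOpen_interior o ho
    have hmem : ∀ v : E, ‖v‖ = 1 → o + (r / 2) • v ∈ C := by
      intro v hv
      refine interior_subset (hball ?_)
      rw [Metric.mem_ball, dist_eq_norm, add_sub_cancel_left, norm_smul, hv, mul_one,
        Real.norm_of_nonneg (by positivity)]
      linarith
    have hD0 : 0 < dist a b := by
      have h1 := hab _ (hmem u hu) _ (interior_subset ho)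
      rw [dist_eq_norm (o + (r / 2) • u), add_sub_cancel_left, norm_smul, hu, mul_one,
        Real.norm_of_nonneg (by positivity)] at h1
      linarith
    have hne : a ≠ b := dist_pos.1 hD0
    have huab : ⟪u, a⟫ = ⟪u, b⟫ := le_antisymm (hamin b hb) (hbmin a ha)
    refine ⟨-u, by rw [norm_neg]; exact hu, ?_, ?_⟩
    · refine good_face hd (by rw [norm_neg]; exact hu) ha hb hne ?_ ?_
      · intro y hy
        rw [inner_neg_left, inner_neg_left]
        have := hamin y hy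
        linarith
      · rw [inner_neg_left, inner_neg_left, huab]
    · intro c hc d hd' hcmin hdmin
      refine ⟨a, ha, b, hb, ?_⟩
      by_contra hcon
      push Not at hcon
      have hcd : dist c d ≤ dist a b := hab c hc d hd'
      have hcd' : dist c d = dist a b := le_antisymm hcd hcon
      -- coordinates
      have hcmax : ∀ y ∈ C, ⟪u, y⟫ ≤ ⟪u, c⟫ := by
        intro y hy
        have := hcmin y hy
        rw [inner_neg_left, inner_neg_left] at this
        linarith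
      have hdmax : ∀ y ∈ C, ⟪u, y⟫ ≤ ⟪u, d⟫ := by
        intro y hy
        have := hdmin y hy
        rw [inner_neg_left, inner_neg_left] at this
        linarith
      have hucd : ⟪u, c⟫ = ⟪u, d⟫ := le_antisymm (hdmax c hc) (hcmax d hd')
      have hh : ⟪u, a⟫ < ⟪u, c⟫ := by
        have h1 := hcmax _ (hmem u hu)
        rw [inner_add_right, real_inner_smul_right, real_inner_self_eq_norm_sq, hu] at h1
        have h2 := hamin _ (interior_subset ho)
        nlinarith
      have hsq : ∀ x y : E, dist x y ^ 2 = (⟪e, x⟫ - ⟪e, y⟫) ^ 2 + (⟪u, x⟫ - ⟪u, y⟫) ^ 2 := by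
        intro x y
        rw [dist_eq_norm, norm_sq_two hd hu he heu, inner_sub_right, inner_sub_right]
      have q1 := hsq a b
      have q2 := hsq c d
      have hle : ∀ x ∈ C, ∀ y ∈ C, dist x y ^ 2 ≤ dist a b ^ 2 := by
        intro x hx y hy
        have := hab x hx y hy
        gcongr
      have q3 := hle a ha c hc
      have q4 := hle a ha d hd'
      have q5 := hle b hb c hc
      have q6 := hle b hb d hd'
      rw [hsq] at q3 q4 q5 q6
      rw [hcd'] at q2
      rw [q1] at q2 q3 q4 q5 q6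
      set α := ⟪e, a⟫
      set β := ⟪e, b⟫
      set γ := ⟪e, c⟫
      set δ := ⟪e, d⟫
      rw [← hucd] at q2 q4 q6
      rw [← huab] at q2 q3 q4 q5 q6
      have w : 0 < (⟪u, a⟫ - ⟪u, c⟫) ^ 2 := by
        have : ⟪u, a⟫ - ⟪u, c⟫ < 0 := by linarith
        rw [sq]
        exact mul_pos_of_neg_of_neg this this
      -- `(γ - δ)^2 = (α - β)^2` but all mixed differences are smaller
      have r2 : (γ - δ) ^ 2 = (α - β) ^ 2 := by nlinarith
      have r3 : (α - γ) ^ 2 < (α - β) ^ 2 := by nlinarith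
      have r4 : (α - δ) ^ 2 < (α - β) ^ 2 := by nlinarith
      have r5 : (β - γ) ^ 2 < (α - β) ^ 2 := by nlinarith
      have r6 : (β - δ) ^ 2 < (α - β) ^ 2 := by nlinarith
      have r3' := sq_lt_sq.1 r3
      have r4' := sq_lt_sq.1 r4
      have r5' := sq_lt_sq.1 r5
      have r6' := sq_lt_sq.1 r6
      have r2' := (sq_eq_sq_iff_abs_eq_abs _ _).1 r2
      rcases le_total α β with hαβ | hαβ
      · rw [abs_of_nonpos (by linarith : α - β ≤ 0)] at r3' r4' r5' r6' r2'
        rw [abs_lt] at r3' r4' r5' r6'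
        rcases abs_cases (γ - δ) with ⟨h1, _⟩ | ⟨h1, _⟩ <;> rw [h1] at r2' <;> linarith
      · rw [abs_of_nonneg (by linarith : 0 ≤ α - β)] at r3' r4' r5' r6' r2'
        rw [abs_lt] at r3' r4' r5' r6'
        rcases abs_cases (γ - δ) with ⟨h1, _⟩ | ⟨h1, _⟩ <;> rw [h1] at r2' <;> linarith

/-- the third copy -/
theorem exists_third (hd : Module.finrank ℝ E = 2) {C : Set E} (hconv : Convex ℝ C)
    (hcomp : IsCompact C) (hint : (interior C).Nonempty) {u : E} (hu : ‖u‖ = 1)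
    (hF : ∀ a ∈ C, ∀ b ∈ C, (∀ y ∈ C, ⟪u, a⟫ ≤ ⟪u, y⟫) →
      (∀ y ∈ C, ⟪u, b⟫ ≤ ⟪u, y⟫) → ∃ p ∈ C, ∃ q ∈ C, dist a b < dist p q) :
    ∃ g : E ≃ᵢ E, ∀ z ∈ C, (∀ y ∈ C, ⟪u, z⟫ ≤ ⟪u, y⟫) → g.symm z ∈ interior C := by
  obtain ⟨e, he, heu⟩ := exists_perp hd hu
  have hne : C.Nonempty := hint.mono interior_subset
  obtain ⟨o, ho⟩ := hint
  set F : Set E := {z | z ∈ C ∧ ∀ y ∈ C, ⟪u, z⟫ ≤ ⟪u, y⟫} with hFd
  have hFc : IsCompact F := by
    have h1 : F = C ∩ ⋂ y ∈ C, {p | ⟪u, p⟫ ≤ ⟪u, y⟫} := by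
      ext p
      simp [hFd]
    rw [h1]
    refine hcomp.inter_right (isClosed_biInter fun y _ => isClosed_le ?_ ?_) <;> fun_prop
  have hFne : F.Nonempty := by
    obtain ⟨y, hy, h1⟩ := exists_supp hcomp hne (-u)
    refine ⟨y, hy, fun z hz => ?_⟩
    have h2 := le_supp hcomp (-u) hz
    rw [h1, inner_neg_left, inner_neg_left] at h2
    linarith
  have hce : ContinuousOn (fun z : E => ⟪e, z⟫) F := by fun_prop
  obtain ⟨a, ha, hamin⟩ := hFc.exists_isMinOn hFne hce
  obtain ⟨b, hb, hbmax⟩ := hFc.exists_isMaxOn hFne hce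
  obtain ⟨p, hp, q, hq, hpq⟩ := hF a ha.1 b hb.1 ha.2 hb.2
  have hab0 : 0 ≤ dist a b := dist_nonneg
  have hpq0 : 0 < dist p q := lt_of_le_of_lt hab0 hpq
  set t : ℝ := dist a b / dist p q with ht
  have ht0 : 0 ≤ t := by positivity
  have ht1 : t < 1 := by rw [ht, div_lt_one hpq0]; exact hpq
  have hint' : ∀ x ∈ C, t • x + (1 - t) • o ∈ interior C := fun x hx =>
    hconv.combo_self_interior_mem_interior hx ho ht0 (by linarith) (by ring)
  set p' := t • p + (1 - t) • o with hp'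
  set q' := t • q + (1 - t) • o with hq'
  have hpq' : ‖q' - p'‖ = ‖b - a‖ := by
    have h1 : q' - p' = t • (q - p) := by rw [hp', hq']; module
    rw [h1, norm_smul, Real.norm_of_nonneg ht0, ← dist_eq_norm, dist_comm q p, ht,
      div_mul_cancel₀ _ hpq0.ne', dist_comm, dist_eq_norm]
  set R : E ≃ₗᵢ[ℝ] E := Submodule.reflection (ℝ ∙ ((q' - p') - (b - a)))ᗮ with hR
  have hRv : R (q' - p') = b - a := Submodule.reflection_sub hpq'
  set g : E ≃ᵢ E := ((IsometryEquiv.addRight (-p')).trans R.toIsometryEquiv).trans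
    (IsometryEquiv.addRight a) with hg
  have hgx : ∀ x, g x = R (x - p') + a := by
    intro x
    simp [hg, sub_eq_add_neg]
  refine ⟨g, fun z hz hzmin => ?_⟩
  have hzF : z ∈ F := ⟨hz, hzmin⟩
  have h1 : ⟪e, a⟫ ≤ ⟪e, z⟫ := hamin hzF
  have h2 : ⟪e, z⟫ ≤ ⟪e, b⟫ := hbmax hzF
  have h3 : ⟪u, z⟫ = ⟪u, a⟫ := le_antisymm (hzmin a ha.1) (ha.2 z hz)
  have h4 : ⟪u, b⟫ = ⟪u, a⟫ := le_antisymm (hb.2 a ha.1) (ha.2 b hb.1)
  -- `z = a + θ (b - a)`
  obtain ⟨θ, hθ0, hθ1, hθ⟩ : ∃ θ : ℝ, 0 ≤ θ ∧ θ ≤ 1 ∧ z = θ • (b - a) + a := by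
    rcases (h1.trans h2).eq_or_lt with h5 | h5
    · refine ⟨0, le_rfl, zero_le_one, ?_⟩
      rw [zero_smul, zero_add]
      refine sub_eq_zero.1 (two_dim hd hu he heu ?_ ?_)
      · rw [inner_sub_right]
        linarith
      · rw [inner_sub_right, h3, sub_self]
    · have h6 : 0 < ⟪e, b⟫ - ⟪e, a⟫ := by linarith
      refine ⟨(⟪e, z⟫ - ⟪e, a⟫) / (⟪e, b⟫ - ⟪e, a⟫), div_nonneg (by linarith) h6.le,
        (div_le_one h6).2 (by linarith), ?_⟩
      refine sub_eq_zero.1 (two_dim hd hu he heu ?_ ?_)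
      · rw [inner_sub_right, inner_add_right, real_inner_smul_right, inner_sub_right,
          div_mul_cancel₀ _ h6.ne']
        ring
      · rw [inner_sub_right, inner_add_right, real_inner_smul_right, inner_sub_right, h3, h4]
        ring
  have h5 : g.symm z = (1 - θ) • p' + θ • q' := by
    rw [← g.symm_apply_apply ((1 - θ) • p' + θ • q')]
    congr 1
    rw [hgx]
    have h6 : (1 - θ) • p' + θ • q' - p' = θ • (q' - p') := by module
    rw [h6, map_smul, hRv, hθ]
  rw [h5]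
  exact hconv.interior (hint' p hp) (hint' q hq) (by linarith) hθ0 (by ring)

/-- small translations cover a compact set of points with inward directions -/
theorem small_translations {C K : Set E} (hconv : Convex ℝ C) (hK : IsCompact K) (hKC : K ⊆ C)
    {v w : E} (h : ∀ x ∈ K, (∃ τ : ℝ, 0 < τ ∧ x - τ • v ∈ interior C) ∨
      ∃ τ : ℝ, 0 < τ ∧ x - τ • w ∈ interior C) :
    ∃ τ : ℝ, 0 < τ ∧ ∀ x ∈ K, x - τ • v ∈ interior C ∨ x - τ • w ∈ interior C := by
  have hmono : ∀ (z : E) (τ t : ℝ) (x : E), x ∈ C → 0 < t → t ≤ τ → x - τ • z ∈ interior C →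
      x - t • z ∈ interior C := by
    intro z τ t x hx ht htτ hxτ
    have hτ : 0 < τ := lt_of_lt_of_le ht htτ
    have h1 : x - t • z = (1 - t / τ) • x + (t / τ) • (x - τ • z) := by
      rw [smul_sub, smul_smul, div_mul_cancel₀ _ hτ.ne', sub_smul, one_smul]
      abel
    rw [h1]
    exact hconv.combo_self_interior_mem_interior hx hxτ
      (by rw [sub_nonneg, div_le_one hτ]; exact htτ) (by positivity) (by ring)
  have key : ∃ τ : ℝ, 0 < τ ∧ ∀ t, 0 < t → t ≤ τ → ∀ x ∈ K, x ∈ K →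
      x - t • v ∈ interior C ∨ x - t • w ∈ interior C := by
    refine hK.induction_on (p := fun S => ∃ τ : ℝ, 0 < τ ∧ ∀ t, 0 < t → t ≤ τ → ∀ x ∈ S,
      x ∈ K → x - t • v ∈ interior C ∨ x - t • w ∈ interior C) ?_ ?_ ?_ ?_
    · exact ⟨1, one_pos, fun t _ _ x hx => absurd hx (Set.notMem_empty x)⟩
    · rintro S T hST ⟨τ, hτ, hT⟩
      exact ⟨τ, hτ, fun t h1 h2 x hx => hT t h1 h2 x (hST hx)⟩
    · rintro S T ⟨τ₁, hτ₁, hS⟩ ⟨τ₂, hτ₂, hT⟩
      refine ⟨min τ₁ τ₂, lt_min hτ₁ hτ₂, fun t h1 h2 x hx => ?_⟩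
      rcases hx with hx | hx
      · exact hS t h1 (h2.trans (min_le_left _ _)) x hx
      · exact hT t h1 (h2.trans (min_le_right _ _)) x hx
    · intro x₀ hx₀
      have hcase : ∀ z : E, (∃ τ : ℝ, 0 < τ ∧ x₀ - τ • z ∈ interior C) → ∃ N ∈ 𝓝[K] x₀,
          ∃ τ : ℝ, 0 < τ ∧ ∀ t, 0 < t → t ≤ τ → ∀ x ∈ N, x ∈ K → x - t • z ∈ interior C := by
        rintro z ⟨τ, hτ, hx⟩
        have hcont : Continuous fun x : E => x - τ • z := by fun_prop
        refine ⟨(fun x : E => x - τ • z) ⁻¹' interior C, mem_nhdsWithin_of_mem_nhds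
          ((isOpen_interior.preimage hcont).mem_nhds hx), τ, hτ, fun t h1 h2 x hx hxK => ?_⟩
        exact hmono z τ t x (hKC hxK) h1 h2 hx
      rcases h x₀ hx₀ with h1 | h1
      · obtain ⟨N, hN, τ, hτ, h2⟩ := hcase v h1
        exact ⟨N, hN, τ, hτ, fun t h3 h4 x hx hxK => Or.inl (h2 t h3 h4 x hx hxK)⟩
      · obtain ⟨N, hN, τ, hτ, h2⟩ := hcase w h1
        exact ⟨N, hN, τ, hτ, fun t h3 h4 x hx hxK => Or.inr (h2 t h3 h4 x hx hxK)⟩
  obtain ⟨τ, hτ, h1⟩ := key
  exact ⟨τ, hτ, fun x hx => h1 τ hτ le_rfl x hx hx⟩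

/-- two normals: one of them can be chosen near `-u` -/
theorem normal_near (hd : Module.finrank ℝ E = 2) {C : Set E} (hint : (interior C).Nonempty)
    {u e : E} (hu : ‖u‖ = 1) (he : ‖e‖ = 1) (heu : ⟪e, u⟫ = 0) (hgood : Good C u) {s : ℝ}
    (hs : 0 < s) {x : E} (hx : x ∈ C) {n₁ n₂ : E} (h1 : Nml C x n₁) (h2 : Nml C x n₂)
    (hn1 : ⟪n₁, e + s • u⟫ ≤ 0) (hn2 : ⟪n₂, -e + s • u⟫ ≤ 0) :
    ∃ n, Nml C x n ∧ ⟪u, n⟫ ≤ 0 ∧ |⟪e, n⟫| ≤ s := by
  have hue : ⟪u, e⟫ = 0 := by rw [real_inner_comm]; exact heu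
  -- nonnegative combinations of normals
  have hcomb : ∀ α β : ℝ, 0 ≤ α → 0 ≤ β → ∀ y ∈ C,
      ⟪α • n₁ + β • n₂, y⟫ ≤ ⟪α • n₁ + β • n₂, x⟫ := by
    intro α β hα hβ y hy
    rw [inner_add_left, inner_add_left, real_inner_smul_left, real_inner_smul_left,
      real_inner_smul_left, real_inner_smul_left]
    have h3 := h1.2 y hy
    have h4 := h2.2 y hy
    gcongr
  -- a vector with both conditions is enough
  have hfin : ∀ m : E, m ≠ 0 → (∀ y ∈ C, ⟪m, y⟫ ≤ ⟪m, x⟫) → ⟪m, e + s • u⟫ ≤ 0 →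
      ⟪m, -e + s • u⟫ ≤ 0 → ∃ n, Nml C x n ∧ ⟪u, n⟫ ≤ 0 ∧ |⟪e, n⟫| ≤ s := by
    intro m hm0 hm h3 h4
    have hmn : 0 < ‖m‖ := norm_pos_iff.2 hm0
    have hN : Nml C x (‖m‖⁻¹ • m) := by
      refine ⟨by rw [norm_smul, norm_inv, norm_norm, inv_mul_cancel₀ hmn.ne'], fun y hy => ?_⟩
      rw [real_inner_smul_left, real_inner_smul_left]
      have h5 := hm y hy
      gcongr
    rw [inner_add_right, real_inner_smul_right] at h3 h4
    rw [inner_neg_right] at h4
    rw [real_inner_comm e m, real_inner_comm u m] at h3 h4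
    have h5 : ⟪u, m⟫ ≤ 0 := by nlinarith
    have h6 : |⟪e, m⟫| ≤ s * ‖m‖ := by
      have h7 : |⟪u, m⟫| ≤ ‖m‖ := by
        have := abs_real_inner_le_norm u m
        rwa [hu, one_mul] at this
      rw [abs_of_nonpos h5] at h7
      rw [abs_le]
      constructor <;> nlinarith
    refine ⟨_, hN, ?_, ?_⟩
    · rw [real_inner_smul_right]
      exact mul_nonpos_of_nonneg_of_nonpos (by positivity) h5
    · rw [real_inner_smul_right, abs_mul, abs_of_pos (by positivity : 0 < ‖m‖⁻¹)]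
      rw [inv_mul_le_iff₀ hmn]
      linarith
  have hne0 : ∀ n, Nml C x n → n ≠ 0 := by
    rintro n hn rfl
    have := hn.1
    rw [norm_zero] at this
    exact zero_ne_one this
  by_cases c1 : ⟪n₁, -e + s • u⟫ ≤ 0
  · exact hfin n₁ (hne0 _ h1) h1.2 hn1 c1
  by_cases c2 : ⟪n₂, e + s • u⟫ ≤ 0
  · exact hfin n₂ (hne0 _ h2) h2.2 c2 hn2
  push Not at c1 c2
  set A := ⟪n₁, e + s • u⟫ with hA
  set B := ⟪n₁, -e + s • u⟫ with hB
  set A' := ⟪n₂, e + s • u⟫ with hA'
  set B' := ⟪n₂, -e + s • u⟫ with hB'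
  -- combination orthogonal to `e + s u`
  set m := A' • n₁ + (-A) • n₂ with hm
  set m' := (-B') • n₁ + B • n₂ with hm'
  have m1 : ⟪m, e + s • u⟫ = 0 := by
    rw [hm, inner_add_left, real_inner_smul_left, real_inner_smul_left, ← hA, ← hA']
    ring
  have m2 : ⟪m, -e + s • u⟫ = A' * B - A * B' := by
    rw [hm, inner_add_left, real_inner_smul_left, real_inner_smul_left, ← hB, ← hB']
    ring
  have m3 : ⟪m', -e + s • u⟫ = 0 := by
    rw [hm', inner_add_left, real_inner_smul_left, real_inner_smul_left, ← hB, ← hB']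
    ring
  have m4 : ⟪m', e + s • u⟫ = A' * B - A * B' := by
    rw [hm', inner_add_left, real_inner_smul_left, real_inner_smul_left, ← hA, ← hA']
    ring
  have hmC := hcomb A' (-A) c2.le (by linarith)
  have hmC' := hcomb (-B') B (by linarith) c1.le
  rw [← hm] at hmC
  rw [← hm'] at hmC'
  rcases le_or_gt (A' * B - A * B') 0 with hΔ | hΔ
  · -- `m` has both conditions; `m ≠ 0`
    have hm0 : m ≠ 0 := by
      intro h0
      -- then `n₁` and `n₂` are opposite: impossible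
      have h3 : A' • n₁ = A • n₂ := by
        have h4 : A' • n₁ + (-A) • n₂ = 0 := by rw [← hm]; exact h0
        rw [neg_smul, ← sub_eq_add_neg] at h4
        exact sub_eq_zero.1 h4
      have hA0 : A < 0 := by
        rcases hn1.lt_or_eq with h5 | h5
        · exact h5
        · exfalso
          rw [h5, zero_smul] at h3
          rcases smul_eq_zero.1 h3 with h6 | h6
          · linarith
          · exact hne0 _ h1 h6
      obtain ⟨o, ho⟩ := hint
      obtain ⟨r, hr, hball⟩ := Metric.isOpen_iff.1 isOpen_interior o ho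
      have hmemo : ∀ v : E, ‖v‖ = 1 → o + (r / 2) • v ∈ C := by
        intro v hv
        refine interior_subset (hball ?_)
        rw [Metric.mem_ball, dist_eq_norm, add_sub_cancel_left, norm_smul, hv, mul_one,
          Real.norm_of_nonneg (by positivity)]
        linarith
      have k1 := h1.2 _ (hmemo n₁ h1.1)
      have k2 := h2.2 _ (interior_subset ho)
      rw [inner_add_right, real_inner_smul_right, real_inner_self_eq_norm_sq, h1.1] at k1
      -- `A' ⟪n₁, x - o⟫ = A ⟪n₂, x - o⟫`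
      have k3 : A' * ⟪n₁, x - o⟫ = A * ⟪n₂, x - o⟫ := by
        rw [← real_inner_smul_left, ← real_inner_smul_left, h3]
      rw [inner_sub_right, inner_sub_right] at k3
      have k4 : 0 < A' * (⟪n₁, x⟫ - ⟪n₁, o⟫) := mul_pos c2 (by linarith)
      have k5 : A * (⟪n₂, x⟫ - ⟪n₂, o⟫) ≤ 0 := mul_nonpos_of_nonpos_of_nonneg hA0.le (by linarith)
      linarith
    refine hfin m hm0 hmC (by rw [m1]) ?_
    rw [m2]
    exact hΔ
  · -- `m` is a multiple of `u - s e`, `m'` of `u + s e`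
    exfalso
    clear_value m m'
    rw [inner_add_right, real_inner_smul_right] at m1 m2 m3 m4
    rw [inner_neg_right] at m2 m3
    rw [real_inner_comm e m, real_inner_comm u m] at m1 m2
    rw [real_inner_comm e m', real_inner_comm u m'] at m3 m4
    have p1 : 0 < ⟪u, m⟫ := by
      have : 2 * s * ⟪u, m⟫ = A' * B - A * B' := by linarith
      by_contra hcon
      push Not at hcon
      have : 2 * s * ⟪u, m⟫ ≤ 0 := mul_nonpos_of_nonneg_of_nonpos (by positivity) hcon
      linarith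
    have p2 : 0 < ⟪u, m'⟫ := by
      have : 2 * s * ⟪u, m'⟫ = A' * B - A * B' := by linarith
      by_contra hcon
      push Not at hcon
      have : 2 * s * ⟪u, m'⟫ ≤ 0 := mul_nonpos_of_nonneg_of_nonpos (by positivity) hcon
      linarith
    have e1 : m = ⟪u, m⟫ • (u - s • e) := by
      refine sub_eq_zero.1 (two_dim hd hu he heu ?_ ?_)
      · rw [inner_sub_right, real_inner_smul_right, inner_sub_right, real_inner_smul_right,
          real_inner_self_eq_norm_sq, he, heu]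
        linarith
      · rw [inner_sub_right, real_inner_smul_right, inner_sub_right, real_inner_smul_right,
          real_inner_self_eq_norm_sq, hu, hue]
        ring
    have e2 : m' = ⟪u, m'⟫ • (u + s • e) := by
      refine sub_eq_zero.1 (two_dim hd hu he heu ?_ ?_)
      · rw [inner_sub_right, real_inner_smul_right, inner_add_right, real_inner_smul_right,
          real_inner_self_eq_norm_sq, he, heu]
        linarith
      · rw [inner_sub_right, real_inner_smul_right, inner_add_right, real_inner_smul_right,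
          real_inner_self_eq_norm_sq, hu, hue]
        ring
    refine hgood e he heu s hs x hx ⟨fun y hy => ?_, fun y hy => ?_⟩
    · have h3 := hmC' y hy
      rw [e2, real_inner_smul_left, real_inner_smul_left] at h3
      exact le_of_mul_le_mul_left h3 p2
    · have h3 := hmC y hy
      rw [e1, real_inner_smul_left, real_inner_smul_left] at h3
      exact le_of_mul_le_mul_left h3 p1

/-- three copies suffice in the plane -/
theorem cov_three (hd : Module.finrank ℝ E = 2) {C : Set E} (hconv : Convex ℝ C)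
    (hcomp : IsCompact C) (hint : (interior C).Nonempty) : Cov C 3 := by
  obtain ⟨u, hu, hgood, hF⟩ := exists_good_short hd hconv hcomp hint
  obtain ⟨e, he, heu⟩ := exists_perp hd hu
  obtain ⟨g, hg⟩ := exists_third hd hconv hcomp hint hu hF
  set O : Set E := g.symm ⁻¹' interior C with hO
  have hOo : IsOpen O := isOpen_interior.preimage g.symm.continuous
  set K : Set E := C \ O with hK
  have hKc : IsCompact K := hcomp.diff hOo
  -- the parameter `s`
  obtain ⟨s, hs, hsK⟩ : ∃ s : ℝ, 0 < s ∧ ∀ x ∈ K, ∀ n, Nml C x n → ⟪u, n⟫ ≤ 0 →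
      s < |⟪e, n⟫| := by
    set T : Set (E × E) := {p | p.1 ∈ C ∧ Nml C p.1 p.2} ∩ (Oᶜ ×ˢ univ) with hT
    have hTc : IsCompact T := (isCompact_nml hcomp).inter_right
      (hOo.isClosed_compl.prod isClosed_univ)
    have hcont : Continuous fun p : E × E => |⟪e, p.2⟫| + max 0 ⟪u, p.2⟫ := by fun_prop
    rcases T.eq_empty_or_nonempty with hTe | hTne
    · refine ⟨1, one_pos, fun x hx n hn _ => ?_⟩
      have : (x, n) ∈ T := ⟨⟨hx.1, hn⟩, hx.2, mem_univ _⟩
      rw [hTe] at this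
      exact absurd this (Set.notMem_empty _)
    · obtain ⟨p₀, hp₀, hmin⟩ := hTc.exists_isMinOn hTne hcont.continuousOn
      have hpos : 0 < |⟪e, p₀.2⟫| + max 0 ⟪u, p₀.2⟫ := by
        by_contra hcon
        push Not at hcon
        have h1 : |⟪e, p₀.2⟫| = 0 := by
          have := abs_nonneg ⟪e, p₀.2⟫
          have := le_max_left 0 ⟪u, p₀.2⟫
          linarith
        have h2 : ⟪u, p₀.2⟫ ≤ 0 := by
          have := abs_nonneg ⟪e, p₀.2⟫
          have := le_max_right 0 ⟪u, p₀.2⟫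
          linarith
        have h3 : ⟪e, p₀.2⟫ = 0 := abs_eq_zero.1 h1
        have h4 := norm_sq_two hd hu he heu p₀.2
        rw [hp₀.1.2.1, h3] at h4
        have h5 : ⟪u, p₀.2⟫ = -1 := by nlinarith
        have h6 : p₀.2 = -u := by
          have hue : ⟪u, e⟫ = 0 := by rw [real_inner_comm]; exact heu
          refine sub_eq_zero.1 (two_dim hd hu he heu ?_ ?_)
          · rw [inner_sub_right, inner_neg_right, h3, heu]
            ring
          · rw [inner_sub_right, inner_neg_right, h5, real_inner_self_eq_norm_sq, hu]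
            ring
        refine hp₀.2.1 (hg p₀.1 hp₀.1.1 fun y hy => ?_)
        have h7 := hp₀.1.2.2 y hy
        rw [h6, inner_neg_left, inner_neg_left] at h7
        linarith
      refine ⟨(|⟪e, p₀.2⟫| + max 0 ⟪u, p₀.2⟫) / 2, by positivity, fun x hx n hn hun => ?_⟩
      have h1 : |⟪e, p₀.2⟫| + max 0 ⟪u, p₀.2⟫ ≤ |⟪e, n⟫| + max 0 ⟪u, n⟫ :=
        hmin (show (x, n) ∈ T from ⟨⟨hx.1, hn⟩, hx.2, mem_univ _⟩)
      rw [max_eq_left hun] at h1
      linarith
  obtain ⟨τ, hτ, hcov⟩ := small_translations (v := e + s • u) (w := -e + s • u) hconv hKc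
    (fun x hx => hx.1) (by
      intro x hx
      by_contra hcon
      push Not at hcon
      obtain ⟨c1, c2⟩ := hcon
      have i1 : ∃ n, Nml C x n ∧ ⟪n, e + s • u⟫ ≤ 0 := by
        by_contra h
        push Not at h
        obtain ⟨τ, hτ, h3⟩ := inward hconv hint hx.1 (e + s • u) h
        exact c1 τ hτ h3
      have i2 : ∃ n, Nml C x n ∧ ⟪n, -e + s • u⟫ ≤ 0 := by
        by_contra h
        push Not at h
        obtain ⟨τ, hτ, h3⟩ := inward hconv hint hx.1 (-e + s • u) h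
        exact c2 τ hτ h3
      obtain ⟨n₁, hn₁, j1⟩ := i1
      obtain ⟨n₂, hn₂, j2⟩ := i2
      obtain ⟨n, hn, h3, h4⟩ := normal_near hd hint hu he heu hgood hs hx.1 hn₁ hn₂ j1 j2
      exact absurd h4 (not_le.2 (hsK x hx n hn h3)))
  have h := cov_of_fintype (C := C) (ι := Fin 3) ![IsometryEquiv.addRight (τ • (e + s • u)),
    IsometryEquiv.addRight (τ • (-e + s • u)), g] (by
      intro x hx
      by_cases hxO : x ∈ O
      · exact ⟨2, hxO⟩
      · rcases hcov x ⟨hx, hxO⟩ with h1 | h1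
        · refine ⟨0, ?_⟩
          have h2 : (IsometryEquiv.addRight (τ • (e + s • u))).symm x = x - τ • (e + s • u) := by
            rw [IsometryEquiv.addRight_symm, IsometryEquiv.addRight_apply, sub_eq_add_neg]
          change (IsometryEquiv.addRight (τ • (e + s • u))).symm x ∈ interior C
          rw [h2]
          exact h1
        · refine ⟨1, ?_⟩
          have h2 : (IsometryEquiv.addRight (τ • (-e + s • u))).symm x =
              x - τ • (-e + s • u) := by
            rw [IsometryEquiv.addRight_symm, IsometryEquiv.addRight_apply, sub_eq_add_neg]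
          change (IsometryEquiv.addRight (τ • (-e + s • u))).symm x ∈ interior C
          rw [h2]
          exact h1)
  simpa using h

end Newton54S
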