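import Pool.Agent.Lib.MP_54d165_co.RegPoly
import Pool.Agent.Lib.MP_54d165_co.Plane

/-!
# Assembly: extremal bodies in the plane
-/

set_option autoImplicit false

namespace Newton54D

open Complex Set Newton54S Newton54P
open scoped RealInnerProductSpace

theorem least_three {C : Set ℂ} (hconv : Convex ℝ C) (hcomp : IsCompact C)
    (hint : (interior C).Nonempty) (h : ¬ Cov C 2) : IsLeast {k : ℕ | Cov C k} 3 :=
  ⟨Newton54S.cov_three Complex.finrank_real_complex hconv hcomp hint,
    fun _ hk => three_le (hint.mono interior_subset) h hk⟩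

theorem rv_ne {n : ℕ} (hn : 3 ≤ n) {c u : ℂ} (hu : u ≠ 0) {a b : ℕ} (hab : a < b) (hb : b ≤ 2) :
    rv n c u a ≠ rv n c u b := by
  intro h
  have h1 : dist (rv n c u a) (rv n c u b) = 0 := by rw [h, dist_self]
  rw [dist_rv] at h1
  have hu' : 0 < ‖u‖ := norm_pos_iff.2 hu
  have hpi := Real.pi_pos
  have hn3 : (3 : ℝ) ≤ n := by exact_mod_cast hn
  have hn0 : (0 : ℝ) < n := by linarith
  have h2 : Real.sin (((b : ℝ) - a) * (Real.pi / n)) ≠ 0 := by
    have hab' : (1 : ℝ) ≤ (b : ℝ) - a := by
      have : (a : ℝ) + 1 ≤ b := by exact_mod_cast hab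
      linarith
    have hab2 : (b : ℝ) - a ≤ 2 := by
      have h3 : (b : ℝ) ≤ 2 := by exact_mod_cast hb
      have h4 : (0 : ℝ) ≤ a := Nat.cast_nonneg a
      linarith
    have hp : 0 < Real.pi / n := by positivity
    refine (Real.sin_pos_of_pos_of_lt_pi (by positivity) ?_).ne'
    calc ((b : ℝ) - a) * (Real.pi / n) ≤ 2 * (Real.pi / n) := mul_le_mul_of_nonneg_right hab2 hp.le
      _ < Real.pi := by
        rw [← mul_div_assoc, div_lt_iff₀ hn0]
        nlinarith
  have h3 : Real.sin (((a : ℝ) - b) * (Real.pi / n)) = -Real.sin (((b : ℝ) - a) * (Real.pi / n)) := by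
    rw [← Real.sin_neg]
    congr 1
    ring
  rw [h3, abs_neg] at h1
  have h4 : 0 < |Real.sin (((b : ℝ) - a) * (Real.pi / n))| := abs_pos.2 h2
  have : 0 < ‖u‖ * (2 * |Real.sin (((b : ℝ) - a) * (Real.pi / n))|) := by positivity
  linarith

theorem rv_interior {n : ℕ} (hn : 3 ≤ n) {c u : ℂ} (hu : u ≠ 0) :
    (interior (convexHull ℝ (range fun j : Fin n => rv n c u j))).Nonempty := by
  have hcos : EuclideanGeometry.Cospherical ({z : ℂ | dist z c = ‖u‖}) := ⟨c, ‖u‖, fun z hz => hz⟩
  have hmem : ∀ j : ℕ, rv n c u j ∈ {z : ℂ | dist z c = ‖u‖} := by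
    intro j
    rw [mem_ofPred_eq, rv_uv, dist_eq_norm, add_sub_cancel_left, norm_mul, norm_uv, mul_one]
  have h01 := rv_ne hn (c := c) hu (a := 0) (b := 1) (by norm_num) (by norm_num)
  have h02 := rv_ne hn (c := c) hu (a := 0) (b := 2) (by norm_num) (by norm_num)
  have h12 := rv_ne hn (c := c) hu (a := 1) (b := 2) (by norm_num) (by norm_num)
  have haff : AffineIndependent ℝ ![rv n c u 0, rv n c u 1, rv n c u 2] := by
    refine hcos.affineIndependent ?_ ?_
    · rintro _ ⟨i, rfl⟩
      fin_cases i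
      · exact hmem 0
      · exact hmem 1
      · exact hmem 2
    · intro i j hij
      fin_cases i <;> fin_cases j <;>
        first
        | rfl
        | exact absurd hij h01
        | exact absurd hij h02
        | exact absurd hij h12
        | exact absurd hij h01.symm
        | exact absurd hij h02.symm
        | exact absurd hij h12.symm
  have h1 := tri_interior haff (α := 1 / 3) (β := 1 / 3) (γ := 1 / 3) (by norm_num) (by norm_num)
    (by norm_num) (by norm_num)
  have hsub : convexHull ℝ ({rv n c u 0, rv n c u 1, rv n c u 2} : Set ℂ) ⊆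
      convexHull ℝ (range fun j : Fin n => rv n c u j) := by
    refine convexHull_mono ?_
    rintro z (rfl | rfl | rfl)
    · exact ⟨⟨0, by omega⟩, rfl⟩
    · exact ⟨⟨1, by omega⟩, rfl⟩
    · exact ⟨⟨2, by omega⟩, rfl⟩
  exact ⟨_, interior_mono hsub h1⟩

/-- regular polygons are extremal -/
theorem not_cov_regular {n : ℕ} (hn : 3 ≤ n) {c u : ℂ} (hu : u ≠ 0) :
    ¬ Cov (convexHull ℝ (range fun j : Fin n => rv n c u j)) 2 := by
  rcases Nat.even_or_odd' n with ⟨k, rfl | rfl⟩
  · have hk : 2 ≤ k := by omega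
    have hk0 : (k : ℂ) ≠ 0 := by exact_mod_cast (by omega : k ≠ 0)
    have hlin : IsLinearMap ℝ fun x : ℂ => u * x := by
      refine ⟨fun x y => mul_add u x y, fun a x => ?_⟩
      simp only [Complex.real_smul]
      ring
    have h1 : convexHull ℝ (range fun j : Fin (2 * k) => rv (2 * k) c u j) =
        (fun x => u * x + c) '' poly k := by
      have h2 : (fun x => u * x + c) = (fun x => x + c) ∘ fun x => u * x := rfl
      have h3 : ∀ S : Set ℂ, (fun x => x + c) '' convexHull ℝ S =
          convexHull ℝ ((fun x => x + c) '' S) := by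
        intro S
        have h4 := (AffineMap.const ℝ ℂ c + AffineMap.id ℝ ℂ : ℂ →ᵃ[ℝ] ℂ).image_convexHull S
        have h5 : ⇑(AffineMap.const ℝ ℂ c + AffineMap.id ℝ ℂ : ℂ →ᵃ[ℝ] ℂ) = fun x => x + c := by
          funext x
          simp [add_comm]
        rwa [h5] at h4
      rw [h2, image_comp, poly, hlin.image_convexHull, h3, ← range_comp, ← range_comp]
      congr 2
      funext j
      simp only [Function.comp_apply]
      rw [rv_uv, add_comm]
      congr 3
      push_cast
      field_simp
    rw [h1, cov_mul_iff hu c]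
    exact not_cov_poly hk
  · exact not_cov_odd (by omega) (rv_interior hn hu)

/-- equilateral triangles -/
theorem not_cov_equilateral {a b c : ℂ} (h : AffineIndependent ℝ ![a, b, c])
    (h1 : dist a b = dist b c) (h2 : dist b c = dist c a) : ¬ Cov (convexHull ℝ {a, b, c}) 2 := by
  have hcomp : IsCompact (convexHull ℝ ({a, b, c} : Set ℂ)) :=
    (toFinite ({a, b, c} : Set ℂ)).isCompact_convexHull (𝕜 := ℝ)
  have hint : (interior (convexHull ℝ ({a, b, c} : Set ℂ))).Nonempty :=
    ⟨_, tri_interior h (α := 1 / 3) (β := 1 / 3) (γ := 1 / 3) (by norm_num) (by norm_num)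
      (by norm_num) (by norm_num)⟩
  have ma : a ∈ convexHull ℝ ({a, b, c} : Set ℂ) := subset_convexHull ℝ _ (by simp)
  have mb : b ∈ convexHull ℝ ({a, b, c} : Set ℂ) := subset_convexHull ℝ _ (by simp)
  have mc : c ∈ convexHull ℝ ({a, b, c} : Set ℂ) := subset_convexHull ℝ _ (by simp)
  have hdiam : Metric.diam (convexHull ℝ ({a, b, c} : Set ℂ)) ≤ dist a b := by
    rw [convexHull_diam]
    refine Metric.diam_le_of_forall_dist_le dist_nonneg ?_
    have e1 : dist b a = dist a b := dist_comm b a
    have e2 : dist c b = dist b c := dist_comm c b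
    have e3 : dist a c = dist c a := dist_comm a c
    rintro x (rfl | rfl | rfl) y (rfl | rfl | rfl)
    · rw [dist_self]; exact dist_nonneg
    · exact le_refl _
    · linarith
    · linarith
    · rw [dist_self]; exact dist_nonneg
    · linarith
    · linarith
    · linarith
    · rw [dist_self]; exact dist_nonneg
  refine not_cov_borsuk hcomp hint ?_
  rintro ⟨A, B, hAB, hA, hB⟩
  have hA' : A ⊆ convexHull ℝ ({a, b, c} : Set ℂ) := by rw [hAB]; exact subset_union_left
  have hB' : B ⊆ convexHull ℝ ({a, b, c} : Set ℂ) := by rw [hAB]; exact subset_union_right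
  have key : ∀ S : Set ℂ, S ⊆ convexHull ℝ ({a, b, c} : Set ℂ) →
      Metric.diam S < Metric.diam (convexHull ℝ ({a, b, c} : Set ℂ)) →
      ¬ (a ∈ S ∧ b ∈ S) ∧ ¬ (b ∈ S ∧ c ∈ S) ∧ ¬ (c ∈ S ∧ a ∈ S) := by
    intro S hS hSd
    refine ⟨fun hh => ?_, fun hh => ?_, fun hh => ?_⟩
    · have := Metric.dist_le_diam_of_mem (hcomp.isBounded.subset hS) hh.1 hh.2
      linarith
    · have := Metric.dist_le_diam_of_mem (hcomp.isBounded.subset hS) hh.1 hh.2
      linarith
    · have := Metric.dist_le_diam_of_mem (hcomp.isBounded.subset hS) hh.1 hh.2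
      linarith
  have kA := key A hA' hA
  have kB := key B hB' hB
  rw [hAB] at ma mb mc
  rcases ma with ma | ma <;> rcases mb with mb | mb <;> rcases mc with mc | mc <;> tauto

/-- triangles: a classification -/
theorem tri_cov_of_ne {a b c : ℂ} (h : AffineIndependent ℝ ![a, b, c])
    (hne : ¬ (dist a b = dist b c ∧ dist b c = dist c a)) : Cov (convexHull ℝ {a, b, c}) 2 := by
  have hb : AffineIndependent ℝ ![b, c, a] := by
    have := h.comp_embedding ⟨![1, 2, 0], by decide⟩
    convert this using 1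
    funext i
    fin_cases i <;> rfl
  have hc : AffineIndependent ℝ ![c, a, b] := by
    have := h.comp_embedding ⟨![2, 0, 1], by decide⟩
    convert this using 1
    funext i
    fin_cases i <;> rfl
  have e1 : ({b, c, a} : Set ℂ) = {a, b, c} := by
    ext z
    simp only [mem_insert_iff, mem_singleton_iff]
    tauto
  have e2 : ({c, a, b} : Set ℂ) = {a, b, c} := by
    ext z
    simp only [mem_insert_iff, mem_singleton_iff]
    tauto
  by_cases h1 : dist a b < dist b c ∨ dist a b < dist c a
  · exact tri_cov h h1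
  by_cases h2 : dist b c < dist c a ∨ dist b c < dist a b
  · have := tri_cov hb h2
    rwa [e1] at this
  by_cases h3 : dist c a < dist a b ∨ dist c a < dist b c
  · have := tri_cov hc h3
    rwa [e2] at this
  · exfalso
    push Not at h1 h2 h3
    exact hne ⟨by linarith [h1.1, h2.2], by linarith [h2.1, h3.2]⟩

theorem two_le {C : Set ℂ} (hcomp : IsCompact C) (hint : (interior C).Nonempty) {k : ℕ}
    (hk : Cov C k) : 2 ≤ k := by
  by_contra hlt
  have h0 := cov_pos (hint.mono interior_subset) hk
  have hk1 : k = 1 := by omega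
  subst hk1
  -- one copy would be at least as large as an enlargement
  obtain ⟨g, U, hU, hCU, hUg⟩ := hk
  have hsub : U ⊆ g 0 '' C := by
    intro x hx
    obtain ⟨i, hi⟩ := mem_iUnion.1 (hUg hx)
    rwa [Subsingleton.elim i 0] at hi
  obtain ⟨δ, hδ, hδU⟩ := hcomp.exists_thickening_subset_open hU hCU
  -- two points at maximal distance
  have hne : C.Nonempty := hint.mono interior_subset
  obtain ⟨⟨x, y⟩, hxy, hmax⟩ := (hcomp.prod hcomp).exists_isMaxOn (hne.prod hne)
    (continuous_dist.continuousOn (s := C ×ˢ C))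
  have hx : x ∈ C := hxy.1
  have hy : y ∈ C := hxy.2
  have hmax' : ∀ a ∈ C, ∀ b ∈ C, dist a b ≤ dist x y := fun a ha b hb => hmax (a := (a, b)) ⟨ha, hb⟩
  have hd0 : 0 < dist x y := by
    obtain ⟨x0, hx0⟩ := hint
    obtain ⟨ε, hε, hball⟩ := Metric.isOpen_iff.1 isOpen_interior x0 hx0
    have h1 : x0 + ((ε / 2 : ℝ) : ℂ) ∈ C := by
      refine interior_subset (hball ?_)
      rw [Metric.mem_ball, dist_eq_norm, add_sub_cancel_left, Complex.norm_real,
        Real.norm_of_nonneg (by linarith)]
      linarith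
    have h2 := hmax' _ h1 _ (interior_subset hx0)
    rw [dist_eq_norm, add_sub_cancel_left, Complex.norm_real,
      Real.norm_of_nonneg (by linarith)] at h2
    linarith
  have hn : 0 < ‖y - x‖ := by rwa [dist_comm, dist_eq_norm] at hd0
  set e : ℂ := ((δ / 2 / ‖y - x‖ : ℝ) : ℂ) * (y - x) with he
  have hen : ‖e‖ = δ / 2 := by
    rw [he, norm_mul, Complex.norm_real, Real.norm_of_nonneg (by positivity)]
    field_simp
  have hyU : y + e ∈ U := by
    refine hδU (Metric.mem_thickening_iff.2 ⟨y, hy, ?_⟩)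
    rw [dist_eq_norm, add_sub_cancel_left, hen]
    linarith
  obtain ⟨p, hp, hpe⟩ := hsub hyU
  obtain ⟨q, hq, hqe⟩ := hsub (hCU hx)
  have h1 := hmax' p hp q hq
  rw [← (g 0).dist_eq p q, hpe, hqe, dist_eq_norm, dist_comm, dist_eq_norm,
    show y + e - x = ((1 + δ / 2 / ‖y - x‖ : ℝ) : ℂ) * (y - x) by
      rw [he]
      push_cast
      ring, norm_mul, Complex.norm_real, Real.norm_of_nonneg (by positivity)] at h1
  have h2 : 0 < δ / 2 / ‖y - x‖ := by positivity
  nlinarith

end Newton54D
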