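import Pool.Agent.Lib.MP_54d165_co.Main

/-!
Openness of the condition `Cov C k` in the Hausdorff metric, and density of the smooth bodies
whose width is not constant.
-/

namespace Newton54S

set_option linter.unusedSectionVars false

open Set Filter Topology
open scoped RealInnerProductSpace Pointwise

variable {E : Type*} [NormedAddCommGroup E] [InnerProductSpace ℝ E] [FiniteDimensional ℝ E]

/-- conjugation of an isometry by the homothety with centre `o` and ratio `μ` -/
theorem exists_conj (g : E ≃ᵢ E) (o : E) {μ : ℝ} (hμ : 0 < μ) :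
    ∃ g' : E ≃ᵢ E, ∀ x, g' x = o + μ⁻¹ • (g (o + μ • (x - o)) - o) := by
  have hinv : ∀ (f h : E ≃ᵢ E), (∀ x, h (f x) = x) → ∀ x,
      o + μ⁻¹ • (h (o + μ • ((o + μ⁻¹ • (f (o + μ • (x - o)) - o)) - o)) - o) = x := by
    intro f h hfh x
    have h1 : o + μ • ((o + μ⁻¹ • (f (o + μ • (x - o)) - o)) - o) = f (o + μ • (x - o)) := by
      rw [add_sub_cancel_left, smul_smul, mul_inv_cancel₀ hμ.ne', one_smul, add_sub_cancel]
    rw [h1, hfh, add_sub_cancel_left, smul_smul, inv_mul_cancel₀ hμ.ne', one_smul,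
      add_sub_cancel]
  refine ⟨IsometryEquiv.mk
    { toFun := fun x => o + μ⁻¹ • (g (o + μ • (x - o)) - o)
      invFun := fun x => o + μ⁻¹ • (g.symm (o + μ • (x - o)) - o)
      left_inv := hinv g g.symm g.symm_apply_apply
      right_inv := hinv g.symm g g.apply_symm_apply } ?_, fun x => rfl⟩
  refine Isometry.of_dist_eq fun x y => ?_
  change dist (o + μ⁻¹ • (g (o + μ • (x - o)) - o)) (o + μ⁻¹ • (g (o + μ • (y - o)) - o)) = _
  rw [dist_add_left, dist_smul₀, dist_sub_right, g.isometry.dist_eq, dist_add_left, dist_smul₀,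
    dist_sub_right, Real.norm_of_nonneg (inv_nonneg.2 hμ.le), Real.norm_of_nonneg hμ.le,
    ← mul_assoc, inv_mul_cancel₀ hμ.ne', one_mul]

/-- `Cov C k` is stable under small changes of `C`: sandwich form -/
theorem cov_sandwich {C : Set E} (hcomp : IsCompact C) {k : ℕ} (h : Cov C k) (o : E) :
    ∃ μ : ℝ, 1 < μ ∧ ∀ C' : Set E, (∀ y ∈ C, o + μ⁻¹ • (y - o) ∈ C') →
      (∀ z ∈ C', o + μ⁻¹ • (z - o) ∈ C) → Cov C' k := by
  obtain ⟨g, U, hU, hCU, hUg⟩ := h
  -- choice of `μ`
  have h1 : ∃ μ : ℝ, 1 < μ ∧ ∀ x ∈ C, o + (μ ^ 2) • (x - o) ∈ U := by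
    have h2 : ∀ᶠ μ in 𝓝 (1 : ℝ), ∀ x ∈ C, o + (μ ^ 2) • (x - o) ∈ U := by
      refine hcomp.eventually_forall_of_forall_eventually fun x hx => ?_
      have h3 : Continuous fun p : ℝ × E => o + (p.1 ^ 2) • (p.2 - o) := by fun_prop
      have h4 : (fun p : ℝ × E => o + (p.1 ^ 2) • (p.2 - o)) (1, x) = x := by simp
      have h5 : (fun p : ℝ × E => o + (p.1 ^ 2) • (p.2 - o)) ⁻¹' U ∈ 𝓝 ((1 : ℝ), x) := by
        refine h3.continuousAt.preimage_mem_nhds ?_
        change U ∈ 𝓝 ((fun p : ℝ × E => o + (p.1 ^ 2) • (p.2 - o)) (1, x))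
        rw [h4]
        exact hU.mem_nhds (hCU hx)
      exact h5
    obtain ⟨ε, hε, h6⟩ := Metric.eventually_nhds_iff.1 h2
    refine ⟨1 + ε / 2, by linarith, h6 ?_⟩
    rw [Real.dist_eq, add_sub_cancel_left, abs_of_pos (by positivity)]
    linarith
  obtain ⟨μ, hμ, h2⟩ := h1
  have hμ0 : 0 < μ := by linarith
  refine ⟨μ, hμ, fun C' hin hout => ?_⟩
  choose g' hg' using fun i => exists_conj (g i) o hμ0
  refine ⟨g', (fun x => o + μ • (x - o)) ⁻¹' U, hU.preimage (by fun_prop), ?_, ?_⟩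
  · intro z hz
    have h3 := h2 _ (hout z hz)
    have h4 : o + (μ ^ 2) • (o + μ⁻¹ • (z - o) - o) = o + μ • (z - o) := by
      rw [add_sub_cancel_left, smul_smul]
      congr 2
      field_simp
    rw [h4] at h3
    exact h3
  · intro x hx
    obtain ⟨i, c, hc, hcx⟩ := Set.mem_iUnion.1 (hUg hx)
    refine Set.mem_iUnion.2 ⟨i, o + μ⁻¹ • (c - o), hin c hc, ?_⟩
    rw [hg', add_sub_cancel_left, smul_smul, mul_inv_cancel₀ hμ0.ne', one_smul,
      add_sub_cancel, hcx, add_sub_cancel_left, smul_smul, inv_mul_cancel₀ hμ0.ne', one_smul,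
      add_sub_cancel]

/-- `Cov C k` is an open condition on convex bodies for the Hausdorff metric. -/
theorem cov_open {C : Set E} (hconv : Convex ℝ C) (hcomp : IsCompact C)
    (hint : (interior C).Nonempty) {k : ℕ} (h : Cov C k) :
    ∃ δ : ℝ, 0 < δ ∧ ∀ C' : Set E, Convex ℝ C' → IsCompact C' → C'.Nonempty →
      Metric.hausdorffDist C C' < δ → Cov C' k := by
  have hne : C.Nonempty := hint.mono interior_subset
  obtain ⟨o, ho⟩ := hint
  obtain ⟨r, hr, hball⟩ := Metric.isOpen_iff.1 isOpen_interior o ho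
  have hball' : Metric.closedBall o (r / 2) ⊆ C := fun y hy =>
    interior_subset (hball (lt_of_le_of_lt (Metric.mem_closedBall.1 hy) (by linarith)))
  obtain ⟨μ, hμ, hsand⟩ := cov_sandwich hcomp h o
  have hμ0 : 0 < μ := by linarith
  have hμi : μ⁻¹ < 1 := inv_lt_one_of_one_lt₀ hμ
  have hμi0 : 0 < μ⁻¹ := inv_pos.2 hμ0
  refine ⟨(1 - μ⁻¹) * (r / 2), by nlinarith, fun C' hconv' hcomp' hne' hd => hsand C' ?_ ?_⟩
  · -- inner inclusion
    intro y hy
    by_contra hz
    obtain ⟨f, s, hs1, hs2⟩ := geometric_hahn_banach_closed_point hconv' hcomp'.isClosed hz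
    set a := (InnerProductSpace.toDual ℝ E).symm f with ha
    have hfa : ∀ y, f y = ⟪a, y⟫ := fun y => by
      rw [ha, InnerProductSpace.toDual_symm_apply]
    have ha0 : 0 < ‖a‖ := by
      rw [norm_pos_iff]
      intro h0
      obtain ⟨c, hc⟩ := hne'
      have h1 := hs1 c hc
      rw [hfa, h0, inner_zero_left] at h1
      rw [hfa, h0, inner_zero_left] at hs2
      linarith
    obtain ⟨m, hm, hm2⟩ := exists_supp hcomp hne a
    have hM : ∀ z ∈ C, ⟪a, z⟫ ≤ ⟪a, m⟫ := fun z hz => by rw [← hm2]; exact le_supp hcomp a hz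
    -- `m` is close to `C'`
    have hfin : Metric.hausdorffEDist C C' ≠ ⊤ :=
      Metric.hausdorffEDist_ne_top_of_nonempty_of_bounded hne hne' hcomp.isBounded
        hcomp'.isBounded
    obtain ⟨c, hc, hcm⟩ := Metric.exists_dist_lt_of_hausdorffDist_lt hm hd hfin
    have h1 : ⟪a, m⟫ < s + ‖a‖ * ((1 - μ⁻¹) * (r / 2)) := by
      have h2 := hs1 c hc
      rw [hfa] at h2
      have h3 : ⟪a, m - c⟫ ≤ ‖a‖ * ‖m - c‖ := real_inner_le_norm _ _
      rw [dist_eq_norm] at hcm
      have h4 : ‖a‖ * ‖m - c‖ ≤ ‖a‖ * ((1 - μ⁻¹) * (r / 2)) := by gcongr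
      rw [inner_sub_right] at h3
      linarith
    have h2 : ⟪a, o⟫ + ‖a‖ * (r / 2) ≤ ⟪a, m⟫ := by
      have h3 := hM (o + ((r / 2) * ‖a‖⁻¹) • a) (hball' (by
        rw [Metric.mem_closedBall, dist_eq_norm, add_sub_cancel_left, norm_smul, norm_mul,
          norm_inv, norm_norm, mul_assoc, inv_mul_cancel₀ ha0.ne', mul_one,
          Real.norm_of_nonneg (by positivity)]))
      rw [inner_add_right, real_inner_smul_right, real_inner_self_eq_norm_sq] at h3
      have h4 : r / 2 * ‖a‖⁻¹ * ‖a‖ ^ 2 = ‖a‖ * (r / 2) := by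
        field_simp
      linarith
    have h3 := hM y hy
    rw [hfa, inner_add_right, real_inner_smul_right, inner_sub_right] at hs2
    nlinarith [mul_le_mul_of_nonneg_left h3 hμi0.le,
      mul_le_mul_of_nonneg_left h2 (by linarith : (0 : ℝ) ≤ 1 - μ⁻¹)]
  · -- outer inclusion
    intro z hz
    have hfin : Metric.hausdorffEDist C C' ≠ ⊤ :=
      Metric.hausdorffEDist_ne_top_of_nonempty_of_bounded hne hne' hcomp.isBounded
        hcomp'.isBounded
    obtain ⟨y, hy, hyz⟩ := Metric.exists_dist_lt_of_hausdorffDist_lt' hz hd hfin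
    have h1 : o + μ⁻¹ • (z - o) = μ⁻¹ • y + (1 - μ⁻¹) • (o + (μ⁻¹ * (1 - μ⁻¹)⁻¹) • (z - y)) := by
      have h2 : (1 - μ⁻¹) ≠ 0 := by linarith
      rw [smul_add, smul_smul, sub_smul, one_smul]
      have h3 : (1 - μ⁻¹) * (μ⁻¹ * (1 - μ⁻¹)⁻¹) = μ⁻¹ := by
        rw [mul_comm, mul_assoc, inv_mul_cancel₀ h2, mul_one]
      rw [h3, smul_sub, smul_sub]
      abel
    rw [h1]
    refine hconv hy (hball' ?_) hμi0.le (by linarith) (by ring)
    rw [Metric.mem_closedBall, dist_eq_norm, add_sub_cancel_left, norm_smul, norm_mul,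
      Real.norm_of_nonneg hμi0.le, norm_inv, Real.norm_of_nonneg (by linarith : (0 : ℝ) ≤ 1 - μ⁻¹)]
    rw [dist_eq_norm, norm_sub_rev] at hyz
    have h2 : 0 < 1 - μ⁻¹ := by linarith
    calc μ⁻¹ * (1 - μ⁻¹)⁻¹ * ‖z - y‖ ≤ 1 * (1 - μ⁻¹)⁻¹ * ((1 - μ⁻¹) * (r / 2)) := by gcongr
      _ = r / 2 := by rw [one_mul, ← mul_assoc, inv_mul_cancel₀ h2.ne', one_mul]

theorem supp_add {A B : Set E} (hA : IsCompact A) (hB : IsCompact B) (hA' : A.Nonempty)
    (hB' : B.Nonempty) (x : E) : supp (A + B) x = supp A x + supp B x := by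
  obtain ⟨a, ha, h1⟩ := exists_supp hA hA' x
  obtain ⟨b, hb, h2⟩ := exists_supp hB hB' x
  rw [supp_eq (hA.add hB) x (Set.add_mem_add ha hb), inner_add_right, h1, h2]
  rintro _ ⟨a', ha', b', hb', rfl⟩
  have h3 := le_supp hA x ha'
  have h4 := le_supp hB x hb'
  change ⟪x, a' + b'⟫ ≤ _
  rw [inner_add_right, inner_add_right]
  linarith

theorem smooth_thick {K : Set E} (hK : IsCompact K) {ε : ℝ} (hε : 0 < ε) :
    Smooth (K + Metric.closedBall (0 : E) ε) := by
  have hcomp : IsCompact (K + Metric.closedBall (0 : E) ε) :=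
    hK.add (isCompact_closedBall _ _)
  have key : ∀ k ∈ K, ∀ z : E, ‖z‖ ≤ ε → ∀ n,
      Nml (K + Metric.closedBall (0 : E) ε) (k + z) n → z = ε • n := by
    intro k hk z hz n hn
    have h1 := hn.2 (k + ε • n) (Set.add_mem_add hk (by
      rw [mem_closedBall_zero_iff, norm_smul, hn.1, mul_one, Real.norm_of_nonneg hε.le]))
    rw [inner_add_right, inner_add_right, real_inner_smul_right, real_inner_self_eq_norm_sq,
      hn.1] at h1
    have h2 : ‖z - ε • n‖ ^ 2 ≤ 0 := by
      rw [norm_sub_sq_real, real_inner_smul_right, norm_smul, hn.1, mul_one,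
        Real.norm_of_nonneg hε.le, real_inner_comm]
      nlinarith [norm_nonneg z]
    have h3 : ‖z - ε • n‖ = 0 := by
      have := norm_nonneg (z - ε • n)
      nlinarith
    exact sub_eq_zero.1 (norm_eq_zero.1 h3)
  intro x hx m n hm hn
  have hxC : x ∈ K + Metric.closedBall (0 : E) ε := hcomp.isClosed.frontier_subset hx
  obtain ⟨k, hk, z, hz, rfl⟩ := hxC
  have hz' : ‖z‖ ≤ ε := mem_closedBall_zero_iff.1 hz
  have h1 := key k hk z hz' m hm
  have h2 := key k hk z hz' n hn
  rw [h1] at h2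
  exact smul_right_injective E hε.ne' h2

theorem supp_segment (e x : E) : supp (segment ℝ 0 e) x = max 0 ⟪x, e⟫ := by
  have hc : IsCompact (segment ℝ 0 e) := by
    rw [segment_eq_image]
    exact isCompact_Icc.image (by fun_prop)
  rcases le_total 0 ⟪x, e⟫ with h | h
  · rw [supp_eq hc x (right_mem_segment ℝ 0 e), max_eq_right h]
    rintro _ ⟨a, b, ha, hb, hab, rfl⟩
    rw [smul_zero, zero_add, real_inner_smul_right]
    nlinarith
  · rw [supp_eq hc x (left_mem_segment ℝ 0 e), inner_zero_right, max_eq_left h]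
    rintro _ ⟨a, b, ha, hb, hab, rfl⟩
    rw [smul_zero, zero_add, real_inner_smul_right, inner_zero_right]
    nlinarith

/-- density -/
theorem exists_near (hd : 2 ≤ Module.finrank ℝ E) {C : Set E} (hconv : Convex ℝ C)
    (hcomp : IsCompact C) (hne : C.Nonempty) {ε : ℝ} (hε : 0 < ε) :
    ∃ C' : Set E, Convex ℝ C' ∧ IsCompact C' ∧ (interior C').Nonempty ∧ Smooth C' ∧
      (¬ ∃ w, CW C' w) ∧ Metric.hausdorffDist C C' < ε := by
  -- two orthogonal unit vectors
  obtain ⟨e, f, he, hf, hef⟩ : ∃ e f : E, ‖e‖ = 1 ∧ ‖f‖ = 1 ∧ ⟪f, e⟫ = 0 := by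
    set b := stdOrthonormalBasis ℝ E
    refine ⟨b ⟨0, by omega⟩, b ⟨1, by omega⟩, b.orthonormal.1 _, b.orthonormal.1 _,
      b.orthonormal.2 ?_⟩
    simp
  set B : Set E := Metric.closedBall (0 : E) (ε / 4) with hB
  have hBc : IsCompact B := isCompact_closedBall _ _
  have hBv : Convex ℝ B := convex_closedBall _ _
  have hB0 : (0 : E) ∈ B := by simp [hB]; positivity
  have hBint : ∀ K : Set E, K.Nonempty → (interior (K + B)).Nonempty := by
    rintro K ⟨k, hk⟩
    refine ⟨k + 0, interior_mono (Set.add_subset_add (Set.singleton_subset_iff.2 hk) Subset.rfl) ?_⟩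
    rw [mem_interior_iff_mem_nhds, Set.singleton_add]
    have h1 : (fun y => k + y) '' B = Metric.closedBall k (ε / 4) := by
      rw [hB]
      ext y
      simp only [Set.mem_image, Metric.mem_closedBall, dist_eq_norm]
      constructor
      · rintro ⟨z, hz, rfl⟩
        simpa using hz
      · intro hy
        exact ⟨y - k, by simpa using hy, by abel⟩
    rw [h1, add_zero]
    exact Metric.closedBall_mem_nhds _ (by positivity)
  set S : Set E := segment ℝ 0 ((ε / 4) • e) with hS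
  have hSc : IsCompact S := by
    rw [hS, segment_eq_image]
    exact isCompact_Icc.image (by fun_prop)
  have hSv : Convex ℝ S := convex_segment _ _
  have hS0 : (0 : E) ∈ S := left_mem_segment ℝ _ _
  have hSn : ∀ y ∈ S, ‖y‖ ≤ ε / 4 := by
    rintro _ ⟨a, b, ha, hb, hab, rfl⟩
    rw [smul_zero, zero_add, norm_smul, norm_smul, he, mul_one,
      Real.norm_of_nonneg hb, Real.norm_of_nonneg (by positivity : 0 ≤ ε / 4)]
    nlinarith
  have hdist : ∀ K : Set E, (∀ y ∈ K, ‖y‖ ≤ ε / 4) → (0 : E) ∈ K →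
      Metric.hausdorffDist C ((C + K) + B) < ε := by
    intro K hK hK0
    have h1 : Metric.hausdorffDist C ((C + K) + B) ≤ ε / 2 := by
      refine Metric.hausdorffDist_le_of_mem_dist (by positivity) ?_ ?_
      · intro x hx
        refine ⟨x, ?_, by simp; positivity⟩
        refine ⟨x + 0, Set.add_mem_add hx hK0, 0, hB0, ?_⟩
        simp
      · rintro _ ⟨_, ⟨c, hc, y, hy, rfl⟩, z, hz, rfl⟩
        refine ⟨c, hc, ?_⟩
        have h2 : ‖z‖ ≤ ε / 4 := mem_closedBall_zero_iff.1 hz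
        have h3 := hK y hy
        change dist (c + y + z) c ≤ ε / 2
        rw [dist_eq_norm]
        have h4 : c + y + z - c = y + z := by abel
        rw [h4]
        have h5 := norm_add_le y z
        linarith
    linarith
  by_cases hw : ∃ w, CW ((C + {0}) + B) w
  · refine ⟨(C + S) + B, (hconv.add hSv).add hBv, (hcomp.add hSc).add hBc,
      hBint _ (hne.add ⟨0, hS0⟩), smooth_thick (hcomp.add hSc) (by positivity), ?_,
      hdist S hSn hS0⟩
    rintro ⟨w', hw'⟩
    obtain ⟨w, hw⟩ := hw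
    have hc1 : IsCompact ((C + {0}) + B) := (hcomp.add isCompact_singleton).add hBc
    have hn1 : ((C + {0}) + B).Nonempty := (hne.add (Set.singleton_nonempty _)).add ⟨0, hB0⟩
    have hc2 : IsCompact ((C + S) + B) := (hcomp.add hSc).add hBc
    have hn2 : ((C + S) + B).Nonempty := (hne.add ⟨0, hS0⟩).add ⟨0, hB0⟩
    have hsz : ∀ x : E, supp ({0} : Set E) x = 0 := fun x => by
      rw [supp_eq isCompact_singleton x (Set.mem_singleton _), inner_zero_right]
      intro z hz
      rw [Set.mem_singleton_iff.1 hz]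
    have hs1 : ∀ x : E, supp ((C + {0}) + B) x = supp C x + supp B x := fun x => by
      rw [supp_add (hcomp.add isCompact_singleton) hBc (hne.add (Set.singleton_nonempty _))
        ⟨0, hB0⟩, supp_add hcomp isCompact_singleton hne (Set.singleton_nonempty _), hsz, add_zero]
    have hs2 : ∀ x : E, supp ((C + S) + B) x = supp C x + max 0 ⟪x, (ε / 4) • e⟫ + supp B x :=
      fun x => by
      rw [supp_add (hcomp.add hSc) hBc (hne.add ⟨0, hS0⟩) ⟨0, hB0⟩,
        supp_add hcomp hSc hne ⟨0, hS0⟩, hS, supp_segment]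
    have e1 := hw e he
    have e2 := hw f hf
    have e3 := hw' e he
    have e4 := hw' f hf
    rw [width_eq hc1 hn1, hs1, hs1] at e1 e2
    rw [width_eq hc2 hn2, hs2, hs2] at e3 e4
    have i1 : ⟪e, (ε / 4) • e⟫ = ε / 4 := by
      rw [real_inner_smul_right, real_inner_self_eq_norm_sq, he]; ring
    have i2 : ⟪f, (ε / 4) • e⟫ = 0 := by rw [real_inner_smul_right, hef, mul_zero]
    rw [inner_neg_left, i1] at e3
    rw [inner_neg_left, i2] at e4
    rw [max_eq_right (by positivity : (0 : ℝ) ≤ ε / 4),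
      max_eq_left (by linarith : -(ε / 4) ≤ 0)] at e3
    simp only [neg_zero, max_self] at e4
    linarith
  · refine ⟨(C + {0}) + B, (hconv.add (convex_singleton _)).add hBv,
      (hcomp.add isCompact_singleton).add hBc, hBint _ (hne.add (Set.singleton_nonempty _)),
      smooth_thick (hcomp.add isCompact_singleton) (by positivity), hw,
      hdist {0} (fun y hy => by rw [Set.mem_singleton_iff.1 hy, norm_zero]; positivity) rfl⟩

/-- an open dense set of bodies is covered by `d` copies -/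
theorem generic (hd : 2 ≤ Module.finrank ℝ E) {C : Set E} (hconv : Convex ℝ C)
    (hcomp : IsCompact C) (hne : C.Nonempty) {ε : ℝ} (hε : 0 < ε) :
    ∃ C' : Set E, Convex ℝ C' ∧ IsCompact C' ∧ (interior C').Nonempty ∧
      Metric.hausdorffDist C C' < ε ∧ ∃ δ : ℝ, 0 < δ ∧ ∀ C'' : Set E, Convex ℝ C'' →
        IsCompact C'' → C''.Nonempty → Metric.hausdorffDist C' C'' < δ →
        Cov C'' (Module.finrank ℝ E) := by
  obtain ⟨C', h1, h2, h3, h4, h5, h6⟩ := exists_near hd hconv hcomp hne hε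
  exact ⟨C', h1, h2, h3, h6, cov_open h1 h2 h3 (cov_dim h1 h2 h3 h4 h5)⟩

end Newton54S
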