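import Mathlib

/-!
Spiky bodies: a congruent copy of the convex hull of nearly orthogonal unit vectors and a small ball
can cover a neighbourhood of only few of the tips.
-/

namespace Newton54

open scoped RealInnerProductSpace
open Finset

variable {E : Type*} [NormedAddCommGroup E] [InnerProductSpace ℝ E]

/-- Finitely many unit vectors, any two of which have inner product at most `1/20`. -/
structure Tips (X : Finset E) : Prop where
  norm : ∀ x ∈ X, ‖x‖ = 1
  inner : ∀ x ∈ X, ∀ y ∈ X, x ≠ y → ⟪x, y⟫ ≤ 1 / 20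

/-- The spiky body. -/
def body (X : Finset E) : Set E := convexHull ℝ ((X : Set E) ∪ Metric.closedBall 0 (1 / 20))

theorem body_cone {X : Finset E} (hX : Tips X) {p y : E} (hp : p ∈ body X) (hy : y ∈ X) :
    19 / 40 * ‖y - p‖ ≤ ⟪y - p, y⟫ := by
  have hconv : Convex ℝ {p : E | 19 / 40 * ‖y - p‖ ≤ ⟪y - p, y⟫} := by
    intro p hp q hq a b ha hb hab
    simp only [Set.mem_ofPred_eq] at hp hq ⊢
    have h1 : y - (a • p + b • q) = a • (y - p) + b • (y - q) := by
      have : y = (a + b) • y := by rw [hab, one_smul]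
      nth_rewrite 1 [this]
      rw [add_smul, smul_sub, smul_sub]
      abel
    rw [h1, inner_add_left, inner_smul_left, inner_smul_left]
    simp only [conj_trivial]
    have h2 : ‖a • (y - p) + b • (y - q)‖ ≤ a * ‖y - p‖ + b * ‖y - q‖ := by
      refine (norm_add_le _ _).trans (le_of_eq ?_)
      rw [norm_smul, norm_smul, Real.norm_of_nonneg ha, Real.norm_of_nonneg hb]
    nlinarith [mul_le_mul_of_nonneg_left hp ha, mul_le_mul_of_nonneg_left hq hb]
  refine convexHull_min ?_ hconv hp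
  have hyn := hX.norm y hy
  have hyy : ⟪y, y⟫ = 1 := by rw [real_inner_self_eq_norm_sq, hyn]; norm_num
  rintro z (hz | hz)
  · simp only [Set.mem_ofPred_eq]
    by_cases hzy : z = y
    · subst hzy
      simp
    · have h1 := hX.inner z hz y hy hzy
      have h2 : ‖y - z‖ ≤ 2 := by
        refine (norm_sub_le _ _).trans ?_
        rw [hyn, hX.norm z hz]
        norm_num
      rw [inner_sub_left, hyy]
      linarith
  · simp only [Set.mem_ofPred_eq]
    rw [Metric.mem_closedBall, dist_zero_right] at hz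
    have h1 : ⟪z, y⟫ ≤ 1 / 20 := by
      refine (real_inner_le_norm _ _).trans ?_
      rw [hyn, mul_one]
      exact hz
    have h2 : ‖y - z‖ ≤ 2 := by
      refine (norm_sub_le _ _).trans ?_
      rw [hyn]
      linarith
    rw [inner_sub_left, hyy]
    linarith

theorem body_norm {X : Finset E} (hX : Tips X) {p : E} (hp : p ∈ body X) : ‖p‖ ≤ 1 := by
  have : body X ⊆ Metric.closedBall 0 1 := by
    refine convexHull_min ?_ (convex_closedBall _ _)
    rintro z (hz | hz)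
    · rw [Metric.mem_closedBall, dist_zero_right]
      exact (hX.norm z hz).le
    · exact Metric.closedBall_subset_closedBall (by norm_num) hz
  have h := this hp
  rwa [Metric.mem_closedBall, dist_zero_right] at h

theorem body_near {X : Finset E} (hX : Tips X) {p : E} (hp : p ∈ body X) (h : 9 / 10 < ‖p‖ ^ 2) :
    ∃ y ∈ X, ‖p - y‖ ≤ 11 / 50 := by
  have hp1 : 1 / 20 < ‖p‖ := by nlinarith [norm_nonneg p]
  have h1 : ∃ y ∈ X, ‖p‖ ^ 2 ≤ ⟪y, p⟫ := by
    by_contra hcon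
    push Not at hcon
    have hconv : Convex ℝ {q : E | ⟪q, p⟫ < ‖p‖ ^ 2} := by
      intro a ha b hb s t hs ht hst
      simp only [Set.mem_ofPred_eq] at ha hb ⊢
      rw [inner_add_left, inner_smul_left, inner_smul_left]
      simp only [conj_trivial]
      rcases eq_or_lt_of_le hs with rfl | hs'
      · have : t = 1 := by linarith
        subst this
        linarith
      · nlinarith [mul_lt_mul_of_pos_left ha hs', mul_le_mul_of_nonneg_left hb.le ht]
    have hmem : p ∈ {q : E | ⟪q, p⟫ < ‖p‖ ^ 2} := by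
      refine convexHull_min ?_ hconv hp
      rintro z (hz | hz)
      · exact hcon z hz
      · simp only [Set.mem_ofPred_eq]
        rw [Metric.mem_closedBall, dist_zero_right] at hz
        refine lt_of_le_of_lt (real_inner_le_norm _ _) ?_
        nlinarith [norm_nonneg p]
    simp only [Set.mem_ofPred_eq, real_inner_self_eq_norm_sq, lt_irrefl] at hmem
  obtain ⟨y, hy, hyp⟩ := h1
  refine ⟨y, hy, ?_⟩
  have hc := body_cone hX hp hy
  have hyy : ⟪y, y⟫ = 1 := by rw [real_inner_self_eq_norm_sq, hX.norm y hy]; norm_num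
  have hsym : ⟪p, y⟫ = ⟪y, p⟫ := real_inner_comm _ _
  rw [inner_sub_left, hyy] at hc
  rw [norm_sub_rev]
  linarith

theorem sum_norm_le {X A : Finset E} (hX : Tips X) (hA : A ⊆ X) :
    ‖∑ x ∈ A, x‖ ^ 2 ≤ A.card + 1 / 20 * (A.card : ℝ) ^ 2 := by
  classical
  rw [← real_inner_self_eq_norm_sq, sum_inner]
  have h1 : ∀ x ∈ A, ⟪x, ∑ y ∈ A, y⟫ ≤ 1 + 1 / 20 * (A.card : ℝ) := by
    intro x hx
    rw [inner_sum, ← Finset.add_sum_erase _ _ hx]
    have h2 : ⟪x, x⟫ = 1 := by rw [real_inner_self_eq_norm_sq, hX.norm x (hA hx)]; norm_num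
    have h3 : ∑ y ∈ A.erase x, ⟪x, y⟫ ≤ ∑ y ∈ A.erase x, (1 / 20 : ℝ) := by
      apply Finset.sum_le_sum
      intro y hy
      rw [Finset.mem_erase] at hy
      exact hX.inner x (hA hx) y (hA hy.2) (Ne.symm hy.1)
    rw [Finset.sum_const, nsmul_eq_mul] at h3
    have h4 : ((A.erase x).card : ℝ) ≤ A.card := by
      exact_mod_cast Finset.card_le_card (Finset.erase_subset _ _)
    rw [h2]
    linarith
  calc ∑ x ∈ A, ⟪x, ∑ y ∈ A, y⟫ ≤ ∑ x ∈ A, (1 + 1 / 20 * (A.card : ℝ)) := Finset.sum_le_sum h1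
    _ = A.card + 1 / 20 * (A.card : ℝ) ^ 2 := by
      rw [Finset.sum_const, nsmul_eq_mul]
      ring

/-- First class of tips: the image is deep inside the unit ball. -/
theorem card_deep {X A : Finset E} (hX : Tips X) (hA : A ⊆ X) (W : E ≃ₗᵢ[ℝ] E) (b : E)
    (h : ∀ x ∈ A, ‖W x + b‖ ^ 2 ≤ 9 / 10) : A.card ≤ 20 := by
  by_contra hcard
  push Not at hcard
  have hc : (21 : ℝ) ≤ A.card := by exact_mod_cast hcard
  have h1 : ∀ x ∈ A, ⟪W x, b⟫ ≤ - (1 / 10 + ‖b‖ ^ 2) / 2 := by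
    intro x hx
    have h2 := h x hx
    rw [norm_add_sq_real, W.norm_map, hX.norm x (hA hx)] at h2
    linarith
  have h2 : ⟪W (∑ x ∈ A, x), b⟫ ≤ A.card * (- (1 / 10 + ‖b‖ ^ 2) / 2) := by
    rw [map_sum, sum_inner]
    refine (Finset.sum_le_sum h1).trans ?_
    rw [Finset.sum_const, nsmul_eq_mul]
  have h3 : -(‖∑ x ∈ A, x‖ * ‖b‖) ≤ ⟪W (∑ x ∈ A, x), b⟫ := by
    have := abs_real_inner_le_norm (W (∑ x ∈ A, x)) b
    rw [W.norm_map] at this
    exact (abs_le.1 this).1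
  have h4 := sum_norm_le hX hA
  set s := ‖∑ x ∈ A, x‖ with hs
  set k : ℝ := (A.card : ℝ) with hk
  have hs0 : 0 ≤ s := norm_nonneg _
  have hb0 : 0 ≤ ‖b‖ := norm_nonneg _
  have h5 : k * (1 / 10 + ‖b‖ ^ 2) / 2 ≤ s * ‖b‖ := by linarith
  -- square: k^2 (1/10) ‖b‖^2 ≤ (k (1/10+‖b‖^2)/2)^2 ≤ s^2 ‖b‖^2
  have h6 : (k * (1 / 10 + ‖b‖ ^ 2) / 2) ^ 2 ≤ (s * ‖b‖) ^ 2 :=
    pow_le_pow_left₀ (by positivity) h5 2
  have h7 : k ^ 2 * (1 / 10) * ‖b‖ ^ 2 ≤ (k * (1 / 10 + ‖b‖ ^ 2) / 2) ^ 2 := by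
    nlinarith [mul_nonneg (sq_nonneg k) (sq_nonneg (1 / 10 - ‖b‖ ^ 2))]
  have hbpos : 0 < ‖b‖ ^ 2 := by
    by_contra hb
    have hb1 : ‖b‖ ^ 2 = 0 := le_antisymm (not_lt.1 hb) (sq_nonneg _)
    have hb2 : ‖b‖ = 0 := by simpa using hb1
    rw [hb2] at h5
    nlinarith
  have h8 : k ^ 2 * (1 / 10) ≤ s ^ 2 := by
    have : k ^ 2 * (1 / 10) * ‖b‖ ^ 2 ≤ s ^ 2 * ‖b‖ ^ 2 := by nlinarith
    exact le_of_mul_le_mul_right this hbpos
  nlinarith

/-- The averaging identity. -/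
theorem avg_identity {A : Finset E} (_hA : ∀ x ∈ A, ‖x‖ = 1) (hne : A.Nonempty) (W : E ≃ₗᵢ[ℝ] E)
    (b : E) :
    ∑ x ∈ A, ⟪x - (W x + b), x⟫ = 1 / 2 * ∑ x ∈ A, ‖x - (W x + b)‖ ^ 2
      - ‖∑ x ∈ A, (x - (W x + b))‖ ^ 2 / (2 * A.card)
      + ⟪∑ x ∈ A, x, ∑ x ∈ A, (x - (W x + b))⟫ / A.card := by
  have hk : (0 : ℝ) < A.card := by exact_mod_cast hne.card_pos
  set k : ℝ := (A.card : ℝ) with hkdef
  -- pointwise
  have h1 : ∀ x ∈ A, ⟪x - (W x + b), x⟫ = 1 / 2 * ‖b‖ ^ 2 + ⟪b, x - (W x + b)⟫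
      + 1 / 2 * ‖x - (W x + b)‖ ^ 2 - ⟪x, b⟫ := by
    intro x hx
    have h2 : ‖x - (b + (x - (W x + b)))‖ ^ 2 = ‖x‖ ^ 2 := by
      have : x - (b + (x - (W x + b))) = W x := by abel
      rw [this, W.norm_map]
    rw [norm_sub_sq_real, norm_add_sq_real, inner_add_right] at h2
    rw [real_inner_comm x (x - (W x + b))] 
    linarith
  have h3 : ∑ x ∈ A, ⟪x - (W x + b), x⟫ = k * (1 / 2 * ‖b‖ ^ 2)
      + ⟪b, ∑ x ∈ A, (x - (W x + b))⟫ + 1 / 2 * ∑ x ∈ A, ‖x - (W x + b)‖ ^ 2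
      - ⟪∑ x ∈ A, x, b⟫ := by
    rw [Finset.sum_congr rfl h1, Finset.sum_sub_distrib, Finset.sum_add_distrib,
      Finset.sum_add_distrib, Finset.sum_const, nsmul_eq_mul, ← inner_sum, ← Finset.mul_sum,
      sum_inner]
  set s := ∑ x ∈ A, x with hs
  set ε := ∑ x ∈ A, (x - (W x + b)) with hε
  have h4 : ε = s - W s - k • b := by
    rw [hε, hs, map_sum]
    simp only [Finset.sum_sub_distrib, Finset.sum_add_distrib, Finset.sum_const]
    rw [hkdef, Nat.cast_smul_eq_nsmul]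
    abel
  have h5 : ‖s - (k • b + ε)‖ ^ 2 = ‖s‖ ^ 2 := by
    have : s - (k • b + ε) = W s := by rw [h4]; abel
    rw [this, W.norm_map]
  rw [norm_sub_sq_real, norm_add_sq_real, inner_add_right, inner_smul_right, inner_smul_left,
    norm_smul, Real.norm_of_nonneg hk.le] at h5
  simp only [conj_trivial] at h5
  rw [h3]
  have h6 : k * ⟪s, b⟫ = 1 / 2 * k ^ 2 * ‖b‖ ^ 2 + k * ⟪b, ε⟫ + 1 / 2 * ‖ε‖ ^ 2 - ⟪s, ε⟫ := by
    nlinarith
  field_simp
  nlinarith

/-- Third class of tips: the image is close to the tip itself. -/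
theorem card_close {X A : Finset E} (hX : Tips X) (hA : A ⊆ X) (W : E ≃ₗᵢ[ℝ] E) (b : E)
    (h1 : ∀ x ∈ A, ‖x - (W x + b)‖ ≤ 11 / 50) (h2 : ∀ x ∈ A, W x + b ∈ body X)
    (h3 : ∀ x ∈ A, ∃ ε : ℝ, 0 < ε ∧ W ((1 + ε) • x) + b ∈ body X) : A.card ≤ 12 := by
  by_contra hcard
  push Not at hcard
  have hc : (13 : ℝ) ≤ A.card := by exact_mod_cast hcard
  have hne : A.Nonempty := Finset.card_pos.1 (by omega)
  have hk : (0 : ℝ) < A.card := by linarith
  have hn : ∀ x ∈ A, ‖x‖ = 1 := fun x hx => hX.norm x (hA hx)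
  have hid := avg_identity hn hne W b
  have hs := sum_norm_le hX hA
  set k : ℝ := (A.card : ℝ) with hkdef
  set s := ∑ x ∈ A, x with hsdef
  have hsk : ‖s‖ ≤ 36 / 100 * k := by
    have : ‖s‖ ^ 2 ≤ (36 / 100 * k) ^ 2 := by nlinarith
    exact le_of_sq_le_sq this (by positivity)
  set T := ∑ x ∈ A, ‖x - (W x + b)‖ with hT
  have hT0 : 0 ≤ T := Finset.sum_nonneg fun _ _ => norm_nonneg _
  have e1 : 19 / 40 * T ≤ ∑ x ∈ A, ⟪x - (W x + b), x⟫ := by
    rw [hT, Finset.mul_sum]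
    exact Finset.sum_le_sum fun x hx => body_cone hX (h2 x hx) (hA hx)
  have e2 : ∑ x ∈ A, ‖x - (W x + b)‖ ^ 2 ≤ 11 / 50 * T := by
    rw [hT, Finset.mul_sum]
    apply Finset.sum_le_sum
    intro x hx
    nlinarith [h1 x hx, norm_nonneg (x - (W x + b))]
  have e3 : ‖∑ x ∈ A, (x - (W x + b))‖ ≤ T := norm_sum_le _ _
  have e4 : ⟪s, ∑ x ∈ A, (x - (W x + b))⟫ / k ≤ 36 / 100 * T := by
    rw [div_le_iff₀ hk]
    refine (real_inner_le_norm _ _).trans ?_
    have := mul_le_mul hsk e3 (norm_nonneg _) (by positivity)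
    linarith
  have e5 : 0 ≤ ‖∑ x ∈ A, (x - (W x + b))‖ ^ 2 / (2 * k) := by positivity
  have hT' : T ≤ 0 := by
    rw [hid] at e1
    linarith
  have hT1 : T = 0 := le_antisymm hT' hT0
  have hfix : ∀ x ∈ A, W x + b = x := by
    intro x hx
    have : ‖x - (W x + b)‖ = 0 := by
      rw [hT] at hT1
      exact (Finset.sum_eq_zero_iff_of_nonneg fun _ _ => norm_nonneg _).1 hT1 x hx
    rw [norm_eq_zero, sub_eq_zero] at this
    exact this.symm
  have hW : ∀ x ∈ A, ⟪W x, x⟫ ≤ 0 := by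
    intro x hx
    obtain ⟨ε, hε, hm⟩ := h3 x hx
    have hp : W ((1 + ε) • x) + b = x + ε • W x := by
      have hf := hfix x hx
      rw [map_smul, add_smul, one_smul]
      calc W x + ε • W x + b = (W x + b) + ε • W x := by abel
        _ = x + ε • W x := by rw [hf]
    rw [hp] at hm
    have hcone := body_cone hX hm (hA hx)
    have : x - (x + ε • W x) = -(ε • W x) := by abel
    rw [this, norm_neg, inner_neg_left, inner_smul_left, norm_smul, Real.norm_of_nonneg hε.le,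
      W.norm_map, hn x hx] at hcone
    simp only [conj_trivial] at hcone
    by_contra hcon
    push Not at hcon
    nlinarith
  have hb : ∀ x ∈ A, ⟪b, x⟫ = ‖b‖ ^ 2 / 2 ∧ 2 ≤ ‖b‖ ^ 2 := by
    intro x hx
    have hb1 : b = x - W x := eq_sub_of_add_eq' (hfix x hx)
    have h4 : ‖b‖ ^ 2 = 2 - 2 * ⟪x, W x⟫ := by
      rw [hb1, norm_sub_sq_real, W.norm_map, hn x hx]
      ring
    have h5 : ⟪b, x⟫ = 1 - ⟪W x, x⟫ := by
      rw [hb1, inner_sub_left, real_inner_self_eq_norm_sq, hn x hx]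
      ring
    have h6 := hW x hx
    rw [real_inner_comm] at h4
    constructor
    · rw [h4, h5]
      ring
    · rw [h4]
      linarith
  obtain ⟨x0, hx0⟩ := hne
  have hb2 := (hb x0 hx0).2
  have h7 : ⟪b, s⟫ = k * (‖b‖ ^ 2 / 2) := by
    rw [hsdef, inner_sum, Finset.sum_congr rfl fun x hx => (hb x hx).1, Finset.sum_const,
      nsmul_eq_mul]
  have h8 : ⟪b, s⟫ ≤ ‖b‖ * ‖s‖ := real_inner_le_norm _ _
  have hbpos : 0 < ‖b‖ := by
    by_contra hcon
    have : ‖b‖ = 0 := le_antisymm (not_lt.1 hcon) (norm_nonneg _)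
    rw [this] at hb2
    norm_num at hb2
  have h9 : k * (‖b‖ / 2) ≤ ‖s‖ := by
    have : ‖b‖ * (k * (‖b‖ / 2)) ≤ ‖b‖ * ‖s‖ := by
      rw [h7] at h8
      nlinarith
    exact le_of_mul_le_mul_left this hbpos
  have h10 : 1 ≤ ‖b‖ := by nlinarith
  nlinarith

/-- A copy covers few tips. -/
theorem card_copy {X A : Finset E} (hX : Tips X) (hA : A ⊆ X) (h : E ≃ᵢ E) (t : ℕ)
    (ht : ∀ B ⊆ X, (∀ x ∈ B, ∃ y ∈ X, y ≠ x ∧ ‖h x - y‖ ≤ 11 / 50) → B.card ≤ t)
    (h2 : ∀ x ∈ A, h x ∈ body X)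
    (h3 : ∀ x ∈ A, ∃ ε : ℝ, 0 < ε ∧ h ((1 + ε) • x) ∈ body X) : A.card ≤ t + 32 := by
  classical
  set W : E ≃ₗᵢ[ℝ] E := h.toRealLinearIsometryEquiv with hW
  have hh : ∀ z, h z = W z + h 0 := by
    intro z
    rw [hW, IsometryEquiv.toRealLinearIsometryEquiv_apply]
    abel
  set b := h 0 with hb
  set A1 := A.filter (fun x => ‖h x‖ ^ 2 ≤ 9 / 10) with hA1
  set A3 := A.filter (fun x => ‖x - h x‖ ≤ 11 / 50) with hA3
  set A2 := (A \ A1) \ A3 with hA2
  have hsub : A ⊆ A1 ∪ A2 ∪ A3 := by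
    intro x hx
    simp only [hA2, Finset.mem_union, Finset.mem_sdiff]
    tauto
  have c1 : A1.card ≤ 20 := by
    refine card_deep hX ((Finset.filter_subset _ _).trans hA) W b ?_
    intro x hx
    rw [← hh]
    exact (Finset.mem_filter.1 hx).2
  have c3 : A3.card ≤ 12 := by
    refine card_close hX ((Finset.filter_subset _ _).trans hA) W b ?_ ?_ ?_
    · intro x hx
      rw [← hh]
      exact (Finset.mem_filter.1 hx).2
    · intro x hx
      rw [← hh]
      exact h2 x (Finset.mem_filter.1 hx).1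
    · intro x hx
      obtain ⟨ε, hε, hm⟩ := h3 x (Finset.mem_filter.1 hx).1
      exact ⟨ε, hε, by rwa [← hh]⟩
  have c2 : A2.card ≤ t := by
    refine ht A2 ?_ ?_
    · intro x hx
      rw [hA2, Finset.mem_sdiff, Finset.mem_sdiff] at hx
      exact hA hx.1.1
    · intro x hx
      rw [hA2, Finset.mem_sdiff, Finset.mem_sdiff] at hx
      obtain ⟨⟨hxA, hx1⟩, hx3⟩ := hx
      have hx1' : 9 / 10 < ‖h x‖ ^ 2 := by
        by_contra hcon
        exact hx1 (Finset.mem_filter.2 ⟨hxA, not_lt.1 hcon⟩)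
      obtain ⟨y, hy, hyx⟩ := body_near hX (h2 x hxA) hx1'
      refine ⟨y, hy, ?_, hyx⟩
      rintro rfl
      exact hx3 (Finset.mem_filter.2 ⟨hxA, by rwa [norm_sub_rev]⟩)
  have := Finset.card_le_card hsub
  have h4 := Finset.card_union_le (A1 ∪ A2) A3
  have h5 := Finset.card_union_le A1 A2
  omega

/-- The number of copies is large. -/
theorem card_le_copies {X : Finset E} (hX : Tips X) (t : ℕ)
    (ht : ∀ h : E ≃ᵢ E, ∀ B ⊆ X, (∀ x ∈ B, ∃ y ∈ X, y ≠ x ∧ ‖h x - y‖ ≤ 11 / 50) → B.card ≤ t)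
    (n : ℕ) (g : Fin n → (E ≃ᵢ E)) (U : Set E) (hU : IsOpen U) (hCU : body X ⊆ U)
    (hcov : U ⊆ ⋃ i, g i '' body X) (hclosed : IsClosed (body X)) :
    X.card ≤ n * (t + 32) := by
  classical
  -- every tip is strictly covered by some copy
  have hex : ∀ x ∈ X, ∃ i, (g i).symm x ∈ body X ∧
      ∃ ε : ℝ, 0 < ε ∧ (g i).symm ((1 + ε) • x) ∈ body X := by
    intro x hx
    have hxC : x ∈ body X := subset_convexHull _ _ (Or.inl hx)
    have hcont : Filter.Tendsto (fun m : ℕ => (1 + 1 / ((m : ℝ) + 1)) • x) Filter.atTop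
        (nhds x) := by
      have h1 : Filter.Tendsto (fun m : ℕ => (1 + 1 / ((m : ℝ) + 1))) Filter.atTop
          (nhds (1 + 0)) :=
        tendsto_const_nhds.add tendsto_one_div_add_atTop_nhds_zero_nat
      have h2 := h1.smul_const x
      simpa using h2
    have hev : ∀ᶠ m : ℕ in Filter.atTop, (1 + 1 / ((m : ℝ) + 1)) • x ∈ U :=
      hcont.eventually (hU.mem_nhds (hCU hxC))
    have hev2 : ∀ᶠ m : ℕ in Filter.atTop, ∃ i : Fin n,
        (1 + 1 / ((m : ℝ) + 1)) • x ∈ g i '' body X := by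
      filter_upwards [hev] with m hm
      have := hcov hm
      simpa using this
    have hfreq : ∃ i : Fin n, ∃ᶠ m : ℕ in Filter.atTop,
        (1 + 1 / ((m : ℝ) + 1)) • x ∈ g i '' body X := by
      by_contra hcon
      simp only [not_exists, Filter.not_frequently] at hcon
      have := (Filter.eventually_all.2 hcon).and hev2
      obtain ⟨m, hm1, i, hi⟩ := this.exists
      exact hm1 i hi
    obtain ⟨i, hi⟩ := hfreq
    refine ⟨i, ?_, ?_⟩
    · have hcl : IsClosed (g i '' body X) := (g i).toHomeomorph.isClosedMap _ hclosed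
      have hx2 : x ∈ g i '' body X := hcl.mem_of_frequently_of_tendsto hi hcont
      obtain ⟨z, hz, rfl⟩ := hx2
      simpa using hz
    · obtain ⟨m, z, hz, hzm⟩ := hi.exists
      refine ⟨1 / ((m : ℝ) + 1), by positivity, ?_⟩
      rw [← hzm]
      simpa using hz
  rcases X.eq_empty_or_nonempty with hX0 | ⟨x0, hx0⟩
  · simp [hX0]
  have : Nonempty (Fin n) := ⟨(hex x0 hx0).choose⟩
  choose! idx h1 h2 using hex
  have hcard : X.card = ∑ i : Fin n, (X.filter (fun x => idx x = i)).card := by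
    have := Finset.card_eq_sum_card_fiberwise (f := idx) (s := X) (t := Finset.univ)
      (fun x _ => Finset.mem_coe.2 (Finset.mem_univ _))
    simpa using this
  rw [hcard]
  calc ∑ i : Fin n, (X.filter (fun x => idx x = i)).card ≤ ∑ i : Fin n, (t + 32) := by
        apply Finset.sum_le_sum
        intro i _
        refine card_copy hX (Finset.filter_subset _ _) (g i).symm t (ht (g i).symm) ?_ ?_
        · intro x hx
          rw [Finset.mem_filter] at hx
          obtain ⟨hx, rfl⟩ := hx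
          exact h1 x hx
        · intro x hx
          rw [Finset.mem_filter] at hx
          obtain ⟨hx, rfl⟩ := hx
          exact h2 x hx
    _ = n * (t + 32) := by simp

end Newton54
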