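import Mathlib

/-!
Greedy selection of tips: counting sign vectors, a finite net of isometries, a potential function.
-/

namespace Newton54

open scoped RealInnerProductSpace
open Finset

/-! ### The potential argument -/

section greedy

open Classical in
/-- The elements of the list that lie in the ball set of an element chosen before. -/
noncomputable def badSet {Ω W : Type} (S : W → Ω → Set Ω) (w : W) : List Ω → Finset Ω
  | [] => ∅
  | x :: l => if ∃ y ∈ l, x ∈ S w y then insert x (badSet S w l) else badSet S w l

open Classical in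
/-- The number of such elements. -/
noncomputable def bad {Ω W : Type} (S : W → Ω → Set Ω) (w : W) : List Ω → ℕ
  | [] => 0
  | x :: l => bad S w l + (if ∃ y ∈ l, x ∈ S w y then 1 else 0)

open Classical in
theorem bad_cons {Ω W : Type} (S : W → Ω → Set Ω) (w : W) (x : Ω) (l : List Ω) :
    bad S w (x :: l) = bad S w l + (if ∃ y ∈ l, x ∈ S w y then 1 else 0) := by
  conv_lhs => unfold bad

theorem card_badSet {Ω W : Type} (S : W → Ω → Set Ω) (w : W) (l : List Ω) :
    (badSet S w l).card ≤ bad S w l := by
  classical
  induction l with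
  | nil => simp [badSet, bad]
  | cons x l ih =>
    unfold badSet bad
    split
    · exact (Finset.card_insert_le _ _).trans (by omega)
    · simpa using ih

theorem badSet_mono {Ω W : Type} (S : W → Ω → Set Ω) (w : W) (x : Ω) (l : List Ω) :
    badSet S w l ⊆ badSet S w (x :: l) := by
  classical
  conv_rhs => unfold badSet
  split
  · exact Finset.subset_insert _ _
  · exact subset_rfl

theorem mem_badSet_or {Ω W : Type} (S : W → Ω → Set Ω) (l : List Ω) :
    ∀ x ∈ l, ∀ y ∈ l, x ≠ y →
      (∀ w, x ∈ S w y → x ∈ badSet S w l) ∨ (∀ w, y ∈ S w x → y ∈ badSet S w l) := by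
  classical
  induction l with
  | nil => simp
  | cons z l ih =>
    intro x hx y hy hxy
    rw [List.mem_cons] at hx hy
    by_cases hxz : x = z
    · subst hxz
      have hy' : y ∈ l := hy.resolve_left (Ne.symm hxy)
      left
      intro w hw
      unfold badSet
      rw [if_pos ⟨y, hy', hw⟩]
      exact Finset.mem_insert_self _ _
    · have hx' := hx.resolve_left hxz
      by_cases hyz : y = z
      · subst hyz
        right
        intro w hw
        unfold badSet
        rw [if_pos ⟨x, hx', hw⟩]
        exact Finset.mem_insert_self _ _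
      · have hy' := hy.resolve_left hyz
        rcases ih x hx' y hy' hxy with h | h
        · exact Or.inl fun w hw => badSet_mono S w z l (h w hw)
        · exact Or.inr fun w hw => badSet_mono S w z l (h w hw)

open Classical in
theorem greedy {Ω W : Type} [Fintype Ω] [Fintype W] (S : W → Ω → Set Ω) (R : Ω → Ω → Prop)
    (q V N lam : ℝ) (hN : 1 ≤ N) (hV : 0 ≤ V)
    (hq : (Fintype.card Ω : ℝ) = q) (hq0 : 0 < q)
    (hR : ∀ y, ((univ.filter fun x => R x y).card : ℝ) * (2 * N) ≤ q)
    (hS : ∀ w y, ((univ.filter fun x => x ∈ S w y).card : ℝ) ≤ V)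
    (hlam1 : 1 ≤ lam) (hlam : lam * (2 * N ^ 2 * V) ≤ q) (k : ℕ) (hk : (k : ℝ) ≤ N) :
    ∃ l : List Ω, l.length = k ∧ l.Pairwise (fun x y => ¬ R x y) ∧
      ∑ w, lam ^ (bad S w l) ≤ Fintype.card W * (1 + 1 / N) ^ k := by
  induction k with
  | zero => exact ⟨[], rfl, List.Pairwise.nil, by simp [bad]⟩
  | succ k ih =>
    have hk' : (k : ℝ) + 1 ≤ N := by exact_mod_cast hk
    obtain ⟨l, hl, hp, hΦ⟩ := ih (by linarith)
    have hN0 : 0 < N := by linarith
    set Q : Finset Ω := univ.filter fun x => ∀ y ∈ l, ¬ R x y with hQ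
    set Φ := ∑ w, lam ^ (bad S w l) with hΦdef
    have hΦ0 : 0 ≤ Φ := Finset.sum_nonneg fun w _ => by positivity
    -- size of `Q`
    have hlist : ∀ (m : List Ω) (T : Ω → Finset Ω) (c : ℝ), (∀ y, ((T y).card : ℝ) ≤ c) →
        (((univ : Finset Ω).filter fun x => ∃ y ∈ m, x ∈ T y).card : ℝ) ≤ m.length * c := by
      intro m T c hc
      induction m with
      | nil => simp
      | cons z m ihm =>
        have h1 : ((univ : Finset Ω).filter fun x => ∃ y ∈ z :: m, x ∈ T y) ⊆
            T z ∪ ((univ : Finset Ω).filter fun x => ∃ y ∈ m, x ∈ T y) := by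
          intro x hx
          simp only [mem_filter, mem_univ, true_and, List.mem_cons, exists_eq_or_imp] at hx
          simp only [mem_union, mem_filter, mem_univ, true_and]
          exact hx
        have h2 : (((univ : Finset Ω).filter fun x => ∃ y ∈ z :: m, x ∈ T y).card : ℝ) ≤
            (T z).card + ((univ : Finset Ω).filter fun x => ∃ y ∈ m, x ∈ T y).card := by
          exact_mod_cast (Finset.card_le_card h1).trans (Finset.card_union_le _ _)
        rw [List.length_cons]
        push_cast
        linarith [hc z]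
    have hQcard : q / 2 ≤ (Q.card : ℝ) := by
      have h1 := hlist l (fun y => univ.filter fun x => R x y) (q / (2 * N)) (by
        intro y
        rw [le_div_iff₀ (by positivity)]
        exact hR y)
      have h2 : (univ : Finset Ω) ⊆
          Q ∪ ((univ : Finset Ω).filter fun x => ∃ y ∈ l, x ∈ univ.filter fun x => R x y) := by
        intro x _
        simp only [hQ, mem_union, mem_filter, mem_univ, true_and]
        by_cases hx : ∃ y ∈ l, R x y
        · exact Or.inr hx
        · left
          push Not at hx
          exact hx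
      have h3 : q ≤ Q.card +
          ((univ : Finset Ω).filter fun x => ∃ y ∈ l, x ∈ univ.filter fun x => R x y).card := by
        rw [← hq, ← Finset.card_univ]
        exact_mod_cast (Finset.card_le_card h2).trans (Finset.card_union_le _ _)
      rw [hl] at h1
      have h4 : (k : ℝ) * (q / (2 * N)) ≤ q / 2 := by
        rw [mul_div_assoc', div_le_div_iff₀ (by positivity) (by norm_num)]
        nlinarith
      linarith
    have hQne : Q.Nonempty := by
      rw [← Finset.card_pos]
      have : (0 : ℝ) < Q.card := by linarith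
      exact_mod_cast this
    -- the sum over `Q`
    have hsum : ∑ x ∈ Q, ∑ w, lam ^ (bad S w (x :: l)) ≤ ∑ x ∈ Q, Φ * (1 + 1 / N) := by
      rw [Finset.sum_comm, Finset.sum_const, nsmul_eq_mul]
      have h1 : ∀ w, ∑ x ∈ Q, lam ^ (bad S w (x :: l)) ≤
          lam ^ (bad S w l) * (Q.card + lam * (k * V)) := by
        intro w
        have h2 := hlist l (fun y => univ.filter fun x => x ∈ S w y) V (hS w)
        rw [hl] at h2
        have h3 : ∀ x ∈ Q, lam ^ (bad S w (x :: l)) ≤ lam ^ (bad S w l) *
            (1 + lam * (if ∃ y ∈ l, x ∈ S w y then 1 else 0)) := by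
          intro x _
          rw [bad_cons, pow_add]
          apply mul_le_mul_of_nonneg_left _ (by positivity)
          split
          · simp
          · simp
        refine (Finset.sum_le_sum h3).trans ?_
        rw [← Finset.mul_sum]
        apply mul_le_mul_of_nonneg_left _ (by positivity)
        rw [Finset.sum_add_distrib, ← Finset.mul_sum]
        have h4 : ∑ x ∈ Q, (if ∃ y ∈ l, x ∈ S w y then (1 : ℝ) else 0) ≤ k * V := by
          rw [Finset.sum_boole]
          refine le_trans ?_ h2
          exact_mod_cast Finset.card_le_card (by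
            intro x hx
            simp only [mem_filter, mem_univ, true_and] at hx ⊢
            exact hx.2)
        have h5 : ∑ x ∈ Q, (1 : ℝ) = Q.card := by simp
        rw [h5]
        have := mul_le_mul_of_nonneg_left h4 (by linarith : 0 ≤ lam)
        linarith
      refine (Finset.sum_le_sum fun w _ => h1 w).trans ?_
      rw [← Finset.sum_mul, ← hΦdef]
      have h6 : lam * (k * V) ≤ Q.card * (1 / N) := by
        have h7 : lam * (k * V) ≤ lam * (N * V) := by
          apply mul_le_mul_of_nonneg_left _ (by linarith)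
          apply mul_le_mul_of_nonneg_right _ hV
          linarith
        have h8 : lam * (N * V) ≤ q / 2 * (1 / N) := by
          rw [mul_one_div, le_div_iff₀ hN0]
          nlinarith
        have h9 : q / 2 * (1 / N) ≤ Q.card * (1 / N) :=
          mul_le_mul_of_nonneg_right hQcard (by positivity)
        linarith
      nlinarith [mul_le_mul_of_nonneg_left h6 hΦ0]
    obtain ⟨x, hx, hxle⟩ := Finset.exists_le_of_sum_le hQne hsum
    refine ⟨x :: l, by simp [hl], ?_, ?_⟩
    · rw [List.pairwise_cons]
      refine ⟨?_, hp⟩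
      intro y hy
      simp only [hQ, mem_filter, mem_univ, true_and] at hx
      exact hx y hy
    · refine hxle.trans ?_
      rw [pow_succ, ← mul_assoc]
      exact mul_le_mul_of_nonneg_right hΦ (by positivity)

end greedy

/-! ### Sign vectors -/

/-- The sign `±1`. -/
def sg (b : Bool) : ℝ := if b then 1 else -1

theorem sg_mul_self (b : Bool) : sg b * sg b = 1 := by
  cases b <;> simp [sg]

theorem abs_sg (b : Bool) : |sg b| = 1 := by
  cases b <;> simp [sg]

theorem sum_pi_prod {d : ℕ} (F : Fin d → Bool → ℝ) :
    ∑ f : Fin d → Bool, ∏ i, F i (f i) = ∏ i, ∑ b, F i b := by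
  rw [Finset.prod_univ_sum, Fintype.piFinset_univ]

/-- Few sign vectors are far from orthogonal to a given one. -/
theorem card_inner (d : ℕ) (g : Fin d → Bool) :
    (((univ : Finset (Fin d → Bool)).filter
      fun f => (d : ℝ) / 20 < ∑ i, sg (f i) * sg (g i)).card : ℝ) ≤
      2 ^ d * Real.exp (-(d / 800)) := by
  set B := (univ : Finset (Fin d → Bool)).filter
      fun f => (d : ℝ) / 20 < ∑ i, sg (f i) * sg (g i) with hB
  have h1 : ∑ f : Fin d → Bool, Real.exp (1 / 20 * ∑ i, sg (f i) * sg (g i)) =
      ∏ i, ∑ b, Real.exp (1 / 20 * (sg b * sg (g i))) := by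
    rw [← sum_pi_prod fun i b => Real.exp (1 / 20 * (sg b * sg (g i)))]
    apply Finset.sum_congr rfl
    intro f _
    rw [← Real.exp_sum, Finset.mul_sum]
  have h2 : ∀ i, ∑ b, Real.exp (1 / 20 * (sg b * sg (g i))) ≤ 2 * Real.exp (1 / 800) := by
    intro i
    have h3 : ∑ b, Real.exp (1 / 20 * (sg b * sg (g i))) = 2 * Real.cosh (1 / 20) := by
      rw [Real.cosh_eq, Fintype.sum_bool]
      cases g i <;> simp [sg] <;> ring
    rw [h3]
    have := Real.cosh_le_exp_half_sq (1 / 20)
    norm_num at this ⊢
    exact this
  have h4 : ∑ f : Fin d → Bool, Real.exp (1 / 20 * ∑ i, sg (f i) * sg (g i)) ≤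
      2 ^ d * Real.exp (d / 800) := by
    rw [h1]
    calc ∏ i, ∑ b, Real.exp (1 / 20 * (sg b * sg (g i))) ≤
        ∏ _i : Fin d, 2 * Real.exp (1 / 800) := by
          apply Finset.prod_le_prod
          · intro i _
            positivity
          · intro i _
            exact h2 i
      _ = 2 ^ d * Real.exp (d / 800) := by
          rw [Finset.prod_const, Finset.card_univ, Fintype.card_fin, mul_pow, ← Real.exp_nat_mul]
          congr 2
          ring
  have h5 : (B.card : ℝ) * Real.exp (d / 400) ≤
      ∑ f : Fin d → Bool, Real.exp (1 / 20 * ∑ i, sg (f i) * sg (g i)) := by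
    calc (B.card : ℝ) * Real.exp (d / 400) = ∑ f ∈ B, Real.exp (d / 400) := by
          rw [Finset.sum_const, nsmul_eq_mul]
      _ ≤ ∑ f ∈ B, Real.exp (1 / 20 * ∑ i, sg (f i) * sg (g i)) := by
          apply Finset.sum_le_sum
          intro f hf
          rw [hB, mem_filter] at hf
          apply Real.exp_le_exp.2
          linarith [hf.2]
      _ ≤ _ := Finset.sum_le_sum_of_subset_of_nonneg (Finset.subset_univ _)
          fun _ _ _ => (Real.exp_pos _).le
  have h6 : (B.card : ℝ) * Real.exp (d / 400) ≤
      2 ^ d * Real.exp (-(d / 800)) * Real.exp (d / 400) := by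
    refine (h5.trans h4).trans (le_of_eq ?_)
    rw [mul_assoc, ← Real.exp_add]
    congr 2
    ring
  exact le_of_mul_le_mul_right h6 (Real.exp_pos _)

/-- Few sign vectors are close to a given vector. -/
theorem card_ball (d : ℕ) (u : Fin d → ℝ) :
    (((univ : Finset (Fin d → Bool)).filter
      fun f => ∑ i, (sg (f i) - u i) ^ 2 ≤ (13 / 50) ^ 2 * d).card : ℝ) ≤
      Real.exp (13 / 50 * d) := by
  set B := (univ : Finset (Fin d → Bool)).filter
      fun f => ∑ i, (sg (f i) - u i) ^ 2 ≤ (13 / 50) ^ 2 * d with hB
  rcases B.eq_empty_or_nonempty with h0 | ⟨g, hg⟩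
  · rw [h0]
    simp only [card_empty, Nat.cast_zero]
    positivity
  have h1 : ∑ f : Fin d → Bool, Real.exp (-(3 / 4) * ∑ i, (sg (f i) - sg (g i)) ^ 2) =
      ∏ i, ∑ b, Real.exp (-(3 / 4) * (sg b - sg (g i)) ^ 2) := by
    rw [← sum_pi_prod fun i b => Real.exp (-(3 / 4) * (sg b - sg (g i)) ^ 2)]
    apply Finset.sum_congr rfl
    intro f _
    rw [← Real.exp_sum, Finset.mul_sum]
  have he : Real.exp (-3) ≤ 1 / 20 := by
    have h2 : (20 : ℝ) ≤ Real.exp 3 := by
      have h3 : Real.exp 3 = Real.exp 1 ^ 3 := by
        rw [← Real.exp_nat_mul]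
        norm_num
      rw [h3]
      have h4 : (2.7182 : ℝ) ≤ Real.exp 1 := by linarith [Real.exp_one_gt_d9]
      have := pow_le_pow_left₀ (by norm_num) h4 3
      norm_num at this ⊢
      linarith
    rw [Real.exp_neg, inv_eq_one_div]
    exact one_div_le_one_div_of_le (by norm_num) h2
  have h2 : ∀ i, ∑ b, Real.exp (-(3 / 4) * (sg b - sg (g i)) ^ 2) ≤ Real.exp (1 / 20) := by
    intro i
    have h3 : ∑ b, Real.exp (-(3 / 4) * (sg b - sg (g i)) ^ 2) = 1 + Real.exp (-3) := by
      rw [Fintype.sum_bool]
      cases g i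
      · simp only [sg]
        norm_num
        ring
      · simp only [sg]
        norm_num
    rw [h3]
    have := Real.add_one_le_exp (1 / 20)
    linarith
  have h4 : ∑ f : Fin d → Bool, Real.exp (-(3 / 4) * ∑ i, (sg (f i) - sg (g i)) ^ 2) ≤
      Real.exp (d / 20) := by
    rw [h1]
    calc ∏ i, ∑ b, Real.exp (-(3 / 4) * (sg b - sg (g i)) ^ 2) ≤
        ∏ _i : Fin d, Real.exp (1 / 20) := by
          apply Finset.prod_le_prod
          · intro i _
            positivity
          · intro i _
            exact h2 i
      _ = Real.exp (d / 20) := by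
          rw [Finset.prod_const, Finset.card_univ, Fintype.card_fin, ← Real.exp_nat_mul]
          congr 1
          ring
  rw [hB, mem_filter] at hg
  have h5 : (B.card : ℝ) * Real.exp (-(507 / 2500) * d) ≤
      ∑ f : Fin d → Bool, Real.exp (-(3 / 4) * ∑ i, (sg (f i) - sg (g i)) ^ 2) := by
    calc (B.card : ℝ) * Real.exp (-(507 / 2500) * d) =
          ∑ f ∈ B, Real.exp (-(507 / 2500) * d) := by
          rw [Finset.sum_const, nsmul_eq_mul]
      _ ≤ ∑ f ∈ B, Real.exp (-(3 / 4) * ∑ i, (sg (f i) - sg (g i)) ^ 2) := by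
          apply Finset.sum_le_sum
          intro f hf
          rw [hB, mem_filter] at hf
          apply Real.exp_le_exp.2
          have h6 : ∑ i, (sg (f i) - sg (g i)) ^ 2 ≤
              2 * ∑ i, (sg (f i) - u i) ^ 2 + 2 * ∑ i, (sg (g i) - u i) ^ 2 := by
            rw [Finset.mul_sum, Finset.mul_sum, ← Finset.sum_add_distrib]
            apply Finset.sum_le_sum
            intro i _
            nlinarith [sq_nonneg (sg (f i) + sg (g i) - 2 * u i)]
          have h7 := hf.2
          have h8 := hg.2
          linarith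
      _ ≤ _ := Finset.sum_le_sum_of_subset_of_nonneg (Finset.subset_univ _)
          fun _ _ _ => (Real.exp_pos _).le
  have hd : (0 : ℝ) ≤ d := Nat.cast_nonneg _
  have h6 : (B.card : ℝ) * Real.exp (-(507 / 2500) * d) ≤
      Real.exp (13 / 50 * d) * Real.exp (-(507 / 2500) * d) := by
    refine (h5.trans h4).trans ?_
    rw [← Real.exp_add]
    apply Real.exp_le_exp.2
    nlinarith
  exact le_of_mul_le_mul_right h6 (Real.exp_pos _)

end Newton54
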