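import Pool.Agent.Lib.MP_54d165_co.Width

/-!
Smooth bodies: at most `d + 1` copies, and at most `d` if the width is not constant.
-/

namespace Newton54S

set_option linter.unusedSectionVars false

open Set Filter Topology
open scoped RealInnerProductSpace Pointwise

variable {E : Type*} [NormedAddCommGroup E] [InnerProductSpace ℝ E] [FiniteDimensional ℝ E]

theorem cov_succ {C : Set E} (hconv : Convex ℝ C) (hcomp : IsCompact C)
    (hint : (interior C).Nonempty) (hs : Smooth C) : Cov C (Module.finrank ℝ E + 1) := by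
  set b := stdOrthonormalBasis ℝ E with hb
  set v : Option (Fin (Module.finrank ℝ E)) → E := fun o => o.elim (-∑ j, b j) fun j => b j
    with hv
  have h := cov_smooth hconv hcomp hint hs (fun _ => LinearIsometryEquiv.refl ℝ E)
    (fun _ => 0) continuous_const 0 v (by simp [hv, Fintype.sum_option]) (by
      intro x₀
      simp only [neg_zero]
      refine tendsto_const_nhds.congr fun p => ?_
      have h1 : (LinearIsometryEquiv.refl ℝ E).symm p.2 = p.2 := rfl
      rw [h1, sub_self, smul_zero]) (by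
      intro x _ n hn h0
      exfalso
      have h1 : n = 0 := by
        rw [← inner_self_eq_zero (𝕜 := ℝ)]
        nth_rewrite 2 [← b.sum_repr n]
        rw [inner_sum]
        refine Finset.sum_eq_zero fun j _ => ?_
        have h4 : ⟪n, b j⟫ = 0 := by simpa [hv] using h0 (some j)
        rw [real_inner_smul_right, h4, mul_zero]
      have h2 := hn.1
      rw [h1, norm_zero] at h2
      exact zero_ne_one h2)
  simpa using h

/-- the separation of opposite faces -/
theorem exists_sep {C : Set E} (hconv : Convex ℝ C) (hcomp : IsCompact C) (hne : C.Nonempty)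
    {n : E} (hn : ‖n‖ = 1) (h : ∀ p ∈ C, ∀ q ∈ C,
      (∀ y ∈ C, ⟪n, y⟫ ≤ ⟪n, p⟫) → (∀ y ∈ C, ⟪n, q⟫ ≤ ⟪n, y⟫) → ∀ t : ℝ, p - q ≠ t • n) :
    ∃ (u : E) (κ : ℝ), ‖u‖ = 1 ∧ ⟪u, n⟫ = 0 ∧
      (∀ p ∈ C, (∀ y ∈ C, ⟪n, y⟫ ≤ ⟪n, p⟫) → 0 < ⟪u, p⟫ + κ) ∧
      ∀ q ∈ C, (∀ y ∈ C, ⟪n, q⟫ ≤ ⟪n, y⟫) → ⟪u, q⟫ + κ < 0 := by
  set Fp : Set E := {p | p ∈ C ∧ ∀ y ∈ C, ⟪n, y⟫ ≤ ⟪n, p⟫} with hFp
  set Fm : Set E := {q | q ∈ C ∧ ∀ y ∈ C, ⟪n, q⟫ ≤ ⟪n, y⟫} with hFm
  have hFpc : IsCompact Fp := by
    have h1 : Fp = C ∩ ⋂ y ∈ C, {p | ⟪n, y⟫ ≤ ⟪n, p⟫} := by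
      ext p
      simp [hFp]
    rw [h1]
    refine hcomp.inter_right (isClosed_biInter fun y _ => isClosed_le ?_ ?_) <;> fun_prop
  have hFmc : IsCompact Fm := by
    have h1 : Fm = C ∩ ⋂ y ∈ C, {p | ⟪n, p⟫ ≤ ⟪n, y⟫} := by
      ext p
      simp [hFm]
    rw [h1]
    refine hcomp.inter_right (isClosed_biInter fun y _ => isClosed_le ?_ ?_) <;> fun_prop
  have hFpv : Convex ℝ Fp := by
    intro p hp q hq a b ha hb hab
    refine ⟨hconv hp.1 hq.1 ha hb hab, fun y hy => ?_⟩
    rw [inner_add_right, real_inner_smul_right, real_inner_smul_right]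
    have h1 := hp.2 y hy
    have h2 := hq.2 y hy
    have h3 : ⟪n, y⟫ = a * ⟪n, y⟫ + b * ⟪n, y⟫ := by rw [← add_mul, hab, one_mul]
    rw [h3]
    gcongr
  have hFmv : Convex ℝ Fm := by
    intro p hp q hq a b ha hb hab
    refine ⟨hconv hp.1 hq.1 ha hb hab, fun y hy => ?_⟩
    rw [inner_add_right, real_inner_smul_right, real_inner_smul_right]
    have h1 := hp.2 y hy
    have h2 := hq.2 y hy
    have h3 : ⟪n, y⟫ = a * ⟪n, y⟫ + b * ⟪n, y⟫ := by rw [← add_mul, hab, one_mul]
    rw [h3]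
    gcongr
  have hFpne : Fp.Nonempty := by
    obtain ⟨y, hy, h1⟩ := exists_supp hcomp hne n
    exact ⟨y, hy, fun z hz => by rw [← h1]; exact le_supp hcomp n hz⟩
  have hFmne : Fm.Nonempty := by
    obtain ⟨y, hy, h1⟩ := exists_supp hcomp hne (-n)
    refine ⟨y, hy, fun z hz => ?_⟩
    have h2 := le_supp hcomp (-n) hz
    rw [h1, inner_neg_left, inner_neg_left] at h2
    linarith
  set L : Set E := ((ℝ ∙ n : Submodule ℝ E) : Set E) with hL
  have hLc : IsClosed L := (ℝ ∙ n : Submodule ℝ E).closed_of_finiteDimensional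
  have hLv : Convex ℝ L := (ℝ ∙ n : Submodule ℝ E).convex
  have hTc : IsClosed (Fp + L) := hLc.add_left_of_isCompact hFpc
  have hTv : Convex ℝ (Fp + L) := hFpv.add hLv
  have hdisj : Disjoint Fm (Fp + L) := by
    rw [Set.disjoint_left]
    rintro q hq ⟨p, hp, z, hz, hpz⟩
    obtain ⟨t, ht⟩ := Submodule.mem_span_singleton.1 hz
    refine h p hp.1 q hq.1 hp.2 hq.2 (-t) ?_
    rw [← hpz, neg_smul, ht]
    simp
  obtain ⟨f, c, d, h1, h2, h3⟩ := geometric_hahn_banach_compact_closed hFmv hFmc hTv hTc hdisj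
  set a := (InnerProductSpace.toDual ℝ E).symm f with ha
  have hfa : ∀ y, f y = ⟪a, y⟫ := fun y => by
    rw [ha, InnerProductSpace.toDual_symm_apply]
  have hfn : f n = 0 := by
    obtain ⟨p, hp⟩ := hFpne
    by_contra hne0
    have h4 := h3 (p + ((c - 1 - f p) / f n) • n)
      ⟨p, hp, _, Submodule.smul_mem _ _ (Submodule.mem_span_singleton_self n), rfl⟩
    rw [map_add, map_smul, smul_eq_mul, div_mul_cancel₀ _ hne0] at h4
    linarith
  have ha0 : a ≠ 0 := by
    intro h0
    obtain ⟨p, hp⟩ := hFpne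
    obtain ⟨q, hq⟩ := hFmne
    have h4 := h1 q hq
    have h5 := h3 (p + 0) ⟨p, hp, 0, Submodule.zero_mem _, rfl⟩
    rw [hfa, h0, inner_zero_left] at h4 h5
    linarith
  have han : 0 < ‖a‖ := norm_pos_iff.2 ha0
  refine ⟨‖a‖⁻¹ • a, -(‖a‖⁻¹ * ((c + d) / 2)), ?_, ?_, ?_, ?_⟩
  · rw [norm_smul, norm_inv, norm_norm, inv_mul_cancel₀ han.ne']
  · rw [real_inner_smul_left, ← hfa, hfn, mul_zero]
  · intro p hp hp2
    have h5 := h3 (p + 0) ⟨p, ⟨hp, hp2⟩, 0, Submodule.zero_mem _, rfl⟩
    rw [add_zero, hfa] at h5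
    rw [real_inner_smul_left, ← sub_eq_add_neg, ← mul_sub]
    have : 0 < ⟪a, p⟫ - (c + d) / 2 := by linarith
    positivity
  · intro q hq hq2
    have h5 := h1 q ⟨hq, hq2⟩
    rw [hfa] at h5
    rw [real_inner_smul_left, ← sub_eq_add_neg, ← mul_sub]
    have h6 : ⟪a, q⟫ - (c + d) / 2 < 0 := by linarith
    exact mul_neg_of_pos_of_neg (by positivity) h6

theorem cov_dim {C : Set E} (hconv : Convex ℝ C) (hcomp : IsCompact C)
    (hint : (interior C).Nonempty) (hs : Smooth C) (hw : ¬ ∃ w, CW C w) :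
    Cov C (Module.finrank ℝ E) := by
  have hne : C.Nonempty := hint.mono interior_subset
  obtain ⟨n, hn, hpar⟩ := exists_dir hcomp hne hw
  obtain ⟨u, κ, hu, hun, hp, hm⟩ := exists_sep hconv hcomp hne hn hpar
  set F : Submodule ℝ E := (ℝ ∙ n)ᗮ with hF
  set b := stdOrthonormalBasis ℝ F with hb
  set v : Option (Fin (Module.finrank ℝ F)) → E := fun o => o.elim (-∑ j, (b j : E))
    fun j => (b j : E) with hv
  have h := cov_smooth hconv hcomp hint hs (rot hu hn hun) (om u n) continuous_om (κ • n) v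
    (by simp [hv, Fintype.sum_option]) (rot_tendsto hu hn hun) (by
      intro x hx m hm' h0
      -- `m` is `n` or `-n`
      have h1 : m ∈ Fᗮ := by
        rw [Submodule.mem_orthogonal']
        intro z hz
        have h2 : (⟨z, hz⟩ : F) = ∑ j, b.repr ⟨z, hz⟩ j • b j := (b.sum_repr _).symm
        have h3 := congrArg (fun y : F => (y : E)) h2
        simp only [Submodule.coe_sum, Submodule.coe_smul] at h3
        rw [h3, inner_sum]
        refine Finset.sum_eq_zero fun j _ => ?_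
        have h4 : ⟪m, (b j : E)⟫ = 0 := by simpa [hv] using h0 (some j)
        rw [real_inner_smul_right, h4, mul_zero]
      rw [hF, Submodule.orthogonal_orthogonal] at h1
      obtain ⟨t, ht⟩ := Submodule.mem_span_singleton.1 h1
      have ht1 : |t| = 1 := by
        have h2 := hm'.1
        rw [← ht, norm_smul, hn, mul_one] at h2
        exact h2
      have hom : ⟪n, κ • n + om u n x⟫ = ⟪u, x⟫ + κ := by
        have hnu : ⟪n, u⟫ = 0 := by rw [real_inner_comm]; exact hun
        simp only [om, inner_add_right, inner_sub_right, real_inner_smul_right,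
          real_inner_self_eq_norm_sq, hn, hnu]
        ring
      rcases eq_or_eq_neg_of_abs_eq ht1 with h2 | h2
      · rw [h2, one_smul] at ht
        rw [← ht] at hm' ⊢
        rw [hom]
        exact hp x hx hm'.2
      · rw [h2, neg_smul, one_smul] at ht
        rw [← ht] at hm' ⊢
        rw [inner_neg_left, hom]
        have h3 := hm x hx (fun y hy => by
          have := hm'.2 y hy
          rw [inner_neg_left, inner_neg_left] at this
          linarith)
        linarith)
  have hcard : Fintype.card (Option (Fin (Module.finrank ℝ F))) = Module.finrank ℝ E := by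
    have h1 := Submodule.finrank_add_finrank_orthogonal (ℝ ∙ n)
    rw [← hF] at h1
    have h2 : Module.finrank ℝ (ℝ ∙ n) = 1 := finrank_span_singleton (by
      intro h0
      rw [h0, norm_zero] at hn
      exact zero_ne_one hn)
    simp only [Fintype.card_option, Fintype.card_fin]
    omega
  rw [hcard] at h
  exact h

theorem smooth_main {C : Set E} (hd : 0 < Module.finrank ℝ E) (hconv : Convex ℝ C)
    (hcomp : IsCompact C) (hint : (interior C).Nonempty) (hs : Smooth C) :
    ∃ N : ℕ, IsLeast {k : ℕ | Cov C k} N ∧ N ≤ Module.finrank ℝ E + 1 ∧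
      (N = Module.finrank ℝ E + 1 ↔ ∃ w, CW C w) := by
  have hne : C.Nonempty := hint.mono interior_subset
  have hcov := cov_succ hconv hcomp hint hs
  have hS : {k : ℕ | Cov C k}.Nonempty := ⟨_, hcov⟩
  refine ⟨sInf {k : ℕ | Cov C k}, ⟨Nat.sInf_mem hS, fun k hk => Nat.sInf_le hk⟩,
    Nat.sInf_le hcov, ?_⟩
  constructor
  · intro h
    by_contra hw
    have h1 : sInf {k : ℕ | Cov C k} ≤ Module.finrank ℝ E :=
      Nat.sInf_le (cov_dim hconv hcomp hint hs hw)
    omega
  · rintro ⟨w, hw⟩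
    have h1 : Cov C (sInf {k : ℕ | Cov C k}) := Nat.sInf_mem hS
    have h2 := lower hcomp hne hw hd h1
    have h3 : sInf {k : ℕ | Cov C k} ≤ Module.finrank ℝ E + 1 := Nat.sInf_le hcov
    omega

end Newton54S
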