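import Mathlib

/-!
Covering a neighbourhood of a convex body by copies which are moved by small motions.
-/

namespace Newton54S

set_option linter.unusedSectionVars false

open Set Filter Topology
open scoped RealInnerProductSpace

variable {E : Type*} [NormedAddCommGroup E] [InnerProductSpace ℝ E]

/-- `k` congruent copies of `C` cover a neighbourhood of `C` -/
def Cov (C : Set E) (k : ℕ) : Prop :=
  ∃ g : Fin k → (E ≃ᵢ E), ∃ U : Set E, IsOpen U ∧ C ⊆ U ∧ U ⊆ ⋃ i, g i '' C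

theorem cov_of_fintype {C : Set E} {ι : Type*} [Fintype ι] (G : ι → (E ≃ᵢ E))
    (h : ∀ x ∈ C, ∃ i, (G i).symm x ∈ interior C) : Cov C (Fintype.card ι) := by
  refine ⟨fun j => G ((Fintype.equivFin ι).symm j), ⋃ i, (G i) '' interior C, ?_, ?_, ?_⟩
  · exact isOpen_iUnion fun i => (G i).toHomeomorph.isOpenMap _ isOpen_interior
  · intro x hx
    obtain ⟨i, hi⟩ := h x hx
    exact Set.mem_iUnion.2 ⟨i, (G i).symm x, hi, (G i).apply_symm_apply x⟩
  · intro x hx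
    obtain ⟨i, y, hy, rfl⟩ := Set.mem_iUnion.1 hx
    refine Set.mem_iUnion.2 ⟨Fintype.equivFin ι i, y, interior_subset hy, ?_⟩
    simp

/-- Infinitesimal motions: if for every point `x` of `C` some of the velocity fields `X i` points
outwards, in the sense that `x - τ X i x` is an interior point, then small motions of `C` along
these fields cover a neighbourhood of `C`. -/
theorem cov_of_fields {C : Set E} (hconv : Convex ℝ C) (hcomp : IsCompact C) {ι : Type*}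
    [Fintype ι] (G : ι → ℝ → (E ≃ᵢ E)) (X : ι → E → E)
    (hG : ∀ i x₀, Tendsto (fun p : ℝ × E => (p.1)⁻¹ • ((G i p.1).symm p.2 - p.2))
      (𝓝[>] 0 ×ˢ 𝓝 x₀) (𝓝 (-(X i x₀))))
    (h : ∀ x ∈ C, ∃ i, ∃ τ : ℝ, 0 < τ ∧ x - τ • X i x ∈ interior C) :
    Cov C (Fintype.card ι) := by
  have key : ∃ t₀ : ℝ, 0 < t₀ ∧ ∀ t, 0 < t → t < t₀ → ∀ x ∈ C, x ∈ C →
      ∃ i, (G i t).symm x ∈ interior C := by
    refine hcomp.induction_on (p := fun S => ∃ t₀ : ℝ, 0 < t₀ ∧ ∀ t, 0 < t → t < t₀ →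
      ∀ x ∈ S, x ∈ C → ∃ i, (G i t).symm x ∈ interior C) ?_ ?_ ?_ ?_
    · exact ⟨1, one_pos, fun t _ _ x hx => absurd hx (Set.notMem_empty x)⟩
    · rintro S T hST ⟨t₀, ht₀, hT⟩
      exact ⟨t₀, ht₀, fun t h1 h2 x hx => hT t h1 h2 x (hST hx)⟩
    · rintro S T ⟨t₁, ht₁, hS⟩ ⟨t₂, ht₂, hT⟩
      refine ⟨min t₁ t₂, lt_min ht₁ ht₂, fun t h1 h2 x hx => ?_⟩
      rcases hx with hx | hx
      · exact hS t h1 (h2.trans_le (min_le_left _ _)) x hx
      · exact hT t h1 (h2.trans_le (min_le_right _ _)) x hx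
    · intro x₀ hx₀
      obtain ⟨i, τ, hτ, hint⟩ := h x₀ hx₀
      have h1 : Tendsto (fun p : ℝ × E => p.2 + τ • ((p.1)⁻¹ • ((G i p.1).symm p.2 - p.2)))
          (𝓝[>] 0 ×ˢ 𝓝 x₀) (𝓝 (x₀ + τ • -(X i x₀))) :=
        (tendsto_snd).add ((hG i x₀).const_smul τ)
      have h2 : x₀ + τ • -(X i x₀) = x₀ - τ • X i x₀ := by
        rw [smul_neg, sub_eq_add_neg]
      rw [h2] at h1
      have h3 := h1.eventually (isOpen_interior.mem_nhds hint)
      rw [eventually_prod_iff] at h3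
      obtain ⟨pa, hpa, pb, hpb, hab⟩ := h3
      rw [eventually_nhdsWithin_iff, Metric.eventually_nhds_iff] at hpa
      obtain ⟨ε, hε, hpa⟩ := hpa
      refine ⟨{x | pb x}, mem_nhdsWithin_of_mem_nhds hpb, min ε τ, lt_min hε hτ,
        fun t h4 h5 x hx hxC => ⟨i, ?_⟩⟩
      have h6 : pa t := by
        refine hpa ?_ h4
        rw [Real.dist_eq, sub_zero, abs_of_pos h4]
        exact h5.trans_le (min_le_left _ _)
      have h7 := hab h6 hx
      have h8 : t < τ := h5.trans_le (min_le_right _ _)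
      have h9 : (G i t).symm x = (1 - t / τ) • x +
          (t / τ) • (x + τ • (t⁻¹ • ((G i t).symm x - x))) := by
        rw [smul_add, smul_smul, smul_smul]
        have h10 : t / τ * (τ * t⁻¹) = 1 := by field_simp
        rw [mul_assoc, h10, one_smul, ← add_assoc, ← add_smul]
        simp
      rw [h9]
      refine hconv.combo_self_interior_mem_interior hxC h7 ?_ (by positivity) (by ring)
      rw [sub_nonneg, div_le_one hτ]
      exact h8.le
  obtain ⟨t₀, ht₀, hkey⟩ := key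
  exact cov_of_fintype (fun i => G i (t₀ / 2)) fun x hx =>
    hkey (t₀ / 2) (by positivity) (by linarith) x hx hx

/-- A linear motion followed by a translation. -/
theorem cov_of_linear {C : Set E} (hconv : Convex ℝ C) (hcomp : IsCompact C) {ι : Type*}
    [Fintype ι] (R : ℝ → (E ≃ₗᵢ[ℝ] E)) (Ω : E → E) (a : ι → E)
    (hR : ∀ x₀, Tendsto (fun p : ℝ × E => (p.1)⁻¹ • ((R p.1).symm p.2 - p.2))
      (𝓝[>] 0 ×ˢ 𝓝 x₀) (𝓝 (-(Ω x₀))))
    (h : ∀ x ∈ C, ∃ i, ∃ τ : ℝ, 0 < τ ∧ x - τ • (a i + Ω x) ∈ interior C) :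
    Cov C (Fintype.card ι) := by
  refine cov_of_fields hconv hcomp
    (fun i t => (R t).toIsometryEquiv.trans (IsometryEquiv.addRight (t • a i)))
    (fun i x => a i + Ω x) ?_ h
  intro i x₀
  have hsymm : ∀ (t : ℝ) (x : E), (((R t).toIsometryEquiv.trans
      (IsometryEquiv.addRight (t • a i))).symm x) = (R t).symm (x - t • a i) := by
    intro t x
    rw [IsometryEquiv.symm_apply_eq]
    simp
  simp only [hsymm]
  have h1 : Tendsto (fun p : ℝ × E => (p.1, p.2 - p.1 • a i)) (𝓝[>] 0 ×ˢ 𝓝 x₀)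
      (𝓝[>] 0 ×ˢ 𝓝 x₀) := by
    refine tendsto_fst.prodMk ?_
    have h2 : Tendsto (fun p : ℝ × E => p.2 - p.1 • a i) (𝓝[>] (0 : ℝ) ×ˢ 𝓝 x₀)
        (𝓝 (x₀ - (0 : ℝ) • a i)) := by
      refine tendsto_snd.sub (Tendsto.smul_const ?_ _)
      exact (tendsto_nhdsWithin_of_tendsto_nhds tendsto_id).comp tendsto_fst
    simpa using h2
  have h3 := ((hR x₀).comp h1).sub (tendsto_const_nhds (x := a i))
  have h4 : -(Ω x₀) - a i = -(a i + Ω x₀) := by abel
  rw [h4] at h3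
  refine h3.congr' ?_
  have h5 : ∀ᶠ p : ℝ × E in 𝓝[>] (0 : ℝ) ×ˢ 𝓝 x₀, p.1 ≠ 0 := by
    have h6 : ∀ᶠ t : ℝ in 𝓝[>] (0 : ℝ), t ≠ 0 := by
      filter_upwards [self_mem_nhdsWithin] with t ht
      exact (ne_of_gt ht)
    exact (tendsto_fst (f := 𝓝[>] (0 : ℝ)) (g := 𝓝 x₀)).eventually h6
  filter_upwards [h5] with p hp
  simp only [Function.comp_apply]
  have h6 : (p.1)⁻¹ • ((R p.1).symm (p.2 - p.1 • a i) - p.2) =
      (p.1)⁻¹ • ((R p.1).symm (p.2 - p.1 • a i) - (p.2 - p.1 • a i)) -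
        (p.1)⁻¹ • (p.1 • a i) := by
    rw [← smul_sub]
    congr 1
    abel
  rw [h6, smul_smul, inv_mul_cancel₀ hp, one_smul]

section rotation

variable (u w : E)

/-- infinitesimal rotation in the plane of `u` and `w` -/
def om (x : E) : E := ⟪u, x⟫ • w - ⟪w, x⟫ • u

/-- projection to the plane -/
def pr (x : E) : E := ⟪u, x⟫ • u + ⟪w, x⟫ • w

/-- rotation of the plane of `u` and `w` -/
noncomputable def rotFun (θ : ℝ) (x : E) : E :=
  x + ((Real.cos θ - 1) • pr u w x + Real.sin θ • om u w x)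

variable {u w}

theorem inner_u_rot (hu : ‖u‖ = 1) (huw : ⟪u, w⟫ = 0) (θ : ℝ) (x : E) :
    ⟪u, rotFun u w θ x⟫ = Real.cos θ * ⟪u, x⟫ - Real.sin θ * ⟪w, x⟫ := by
  simp only [rotFun, pr, om, inner_add_right, inner_sub_right, real_inner_smul_right, huw,
    real_inner_self_eq_norm_sq, hu]
  ring

theorem inner_w_rot (hw : ‖w‖ = 1) (huw : ⟪u, w⟫ = 0) (θ : ℝ) (x : E) :
    ⟪w, rotFun u w θ x⟫ = Real.cos θ * ⟪w, x⟫ + Real.sin θ * ⟪u, x⟫ := by
  have hwu : ⟪w, u⟫ = 0 := by rw [real_inner_comm]; exact huw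
  simp only [rotFun, pr, om, inner_add_right, inner_sub_right, real_inner_smul_right, hwu,
    real_inner_self_eq_norm_sq, hw]
  ring

theorem rot_rot (hu : ‖u‖ = 1) (hw : ‖w‖ = 1) (huw : ⟪u, w⟫ = 0) (θ : ℝ) (x : E) :
    rotFun u w θ (rotFun u w (-θ) x) = x := by
  have h1 := inner_u_rot hu huw (-θ) x
  have h2 := inner_w_rot hw huw (-θ) x
  rw [Real.cos_neg, Real.sin_neg] at h1 h2
  have h3 : rotFun u w θ (rotFun u w (-θ) x) = rotFun u w (-θ) x +
      ((Real.cos θ - 1) • pr u w (rotFun u w (-θ) x) +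
        Real.sin θ • om u w (rotFun u w (-θ) x)) := rfl
  rw [h3, pr, om, h1, h2, rotFun, pr, om, Real.cos_neg, Real.sin_neg]
  have h4 := Real.sin_sq_add_cos_sq θ
  have h5 : x + ((Real.cos θ - 1) • (⟪u, x⟫ • u + ⟪w, x⟫ • w) +
      -Real.sin θ • (⟪u, x⟫ • w - ⟪w, x⟫ • u)) +
      ((Real.cos θ - 1) • ((Real.cos θ * ⟪u, x⟫ - -Real.sin θ * ⟪w, x⟫) • u +
        (Real.cos θ * ⟪w, x⟫ + -Real.sin θ * ⟪u, x⟫) • w) +
      Real.sin θ • ((Real.cos θ * ⟪u, x⟫ - -Real.sin θ * ⟪w, x⟫) • w -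
        (Real.cos θ * ⟪w, x⟫ + -Real.sin θ * ⟪u, x⟫) • u)) =
      x + ((Real.sin θ ^ 2 + Real.cos θ ^ 2 - 1) * ⟪u, x⟫) • u +
        ((Real.sin θ ^ 2 + Real.cos θ ^ 2 - 1) * ⟪w, x⟫) • w := by
    module
  rw [h5, h4]
  simp

theorem norm_rot (hu : ‖u‖ = 1) (hw : ‖w‖ = 1) (huw : ⟪u, w⟫ = 0) (θ : ℝ) (x : E) :
    ‖rotFun u w θ x‖ = ‖x‖ := by
  have hwu : ⟪w, u⟫ = 0 := by rw [real_inner_comm]; exact huw
  have h4 := Real.sin_sq_add_cos_sq θ
  have h1 : ‖rotFun u w θ x‖ ^ 2 = ‖x‖ ^ 2 := by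
    rw [← real_inner_self_eq_norm_sq, ← real_inner_self_eq_norm_sq]
    have h2 : ⟪rotFun u w θ x, rotFun u w θ x⟫ = ⟪x, rotFun u w θ x⟫ +
        ((Real.cos θ - 1) * (⟪u, x⟫ * ⟪u, rotFun u w θ x⟫ + ⟪w, x⟫ * ⟪w, rotFun u w θ x⟫) +
        Real.sin θ * (⟪u, x⟫ * ⟪w, rotFun u w θ x⟫ - ⟪w, x⟫ * ⟪u, rotFun u w θ x⟫)) := by
      conv_lhs => rw [rotFun, inner_add_left, inner_add_left, real_inner_smul_left,
        real_inner_smul_left, pr, om, inner_add_left, inner_sub_left, real_inner_smul_left,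
        real_inner_smul_left, real_inner_smul_left, real_inner_smul_left]
      simp only [rotFun, pr, om]
    have h3 : ⟪x, rotFun u w θ x⟫ = ⟪x, x⟫ + (Real.cos θ - 1) * (⟪u, x⟫ * ⟪u, x⟫ +
        ⟪w, x⟫ * ⟪w, x⟫) := by
      simp only [rotFun, pr, om, inner_add_right, inner_sub_right, real_inner_smul_right]
      rw [real_inner_comm u x, real_inner_comm w x]
      ring
    rw [h2, inner_u_rot hu huw, inner_w_rot hw huw, h3]
    have h5 : Real.sin θ ^ 2 = 1 - Real.cos θ ^ 2 := by linarith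
    ring_nf
    rw [h5]
    ring
  exact (sq_eq_sq₀ (norm_nonneg _) (norm_nonneg _)).1 h1

/-- the rotation as a linear isometry -/
noncomputable def rot (hu : ‖u‖ = 1) (hw : ‖w‖ = 1) (huw : ⟪u, w⟫ = 0) (θ : ℝ) :
    E ≃ₗᵢ[ℝ] E where
  toFun := rotFun u w θ
  invFun := rotFun u w (-θ)
  left_inv x := by
    have h := rot_rot hu hw huw (-θ) x
    rwa [neg_neg] at h
  right_inv := rot_rot hu hw huw θ
  map_add' x y := by
    simp only [rotFun, pr, om, inner_add_right]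
    module
  map_smul' c x := by
    simp only [rotFun, pr, om, real_inner_smul_right, RingHom.id_apply]
    module
  norm_map' := norm_rot hu hw huw θ

theorem continuous_om : Continuous (om u w) := by
  unfold om
  fun_prop

theorem continuous_pr : Continuous (pr u w) := by
  unfold pr
  fun_prop

theorem rot_tendsto (hu : ‖u‖ = 1) (hw : ‖w‖ = 1) (huw : ⟪u, w⟫ = 0) (x₀ : E) :
    Tendsto (fun p : ℝ × E => (p.1)⁻¹ • ((rot hu hw huw p.1).symm p.2 - p.2))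
      (𝓝[>] 0 ×ˢ 𝓝 x₀) (𝓝 (-(om u w x₀))) := by
  have hsin : Tendsto (fun t : ℝ => t⁻¹ * Real.sin t) (𝓝[>] 0) (𝓝 1) := by
    have h := (Real.hasDerivAt_sin 0).tendsto_slope_zero_right
    simpa using h
  have hcos : Tendsto (fun t : ℝ => t⁻¹ * (Real.cos t - 1)) (𝓝[>] 0) (𝓝 0) := by
    have h := (Real.hasDerivAt_cos 0).tendsto_slope_zero_right
    simpa using h
  have h1 : ∀ p : ℝ × E, (p.1)⁻¹ • ((rot hu hw huw p.1).symm p.2 - p.2) =
      ((p.1)⁻¹ * (Real.cos p.1 - 1)) • pr u w p.2 -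
        ((p.1)⁻¹ * Real.sin p.1) • om u w p.2 := by
    intro p
    have h2 : (rot hu hw huw p.1).symm p.2 = rotFun u w (-p.1) p.2 := rfl
    rw [h2, rotFun, Real.cos_neg, Real.sin_neg, add_sub_cancel_left]
    module
  simp only [h1]
  have h3 : -(om u w x₀) = (0 : ℝ) • pr u w x₀ - (1 : ℝ) • om u w x₀ := by simp
  rw [h3]
  refine Tendsto.sub ?_ ?_
  · exact (hcos.comp tendsto_fst).smul ((continuous_pr.tendsto x₀).comp tendsto_snd)
  · exact (hsin.comp tendsto_fst).smul ((continuous_om.tendsto x₀).comp tendsto_snd)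

end rotation

end Newton54S
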