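import Pool.Agent.Lib.MP_54d165_co.Geometry
import Pool.Agent.Lib.MP_54d165_co.Greedy

/-!
A finite net of isometries, and the selection of the tips.
-/

namespace Newton54

open scoped RealInnerProductSpace
open Finset

/-- Euclidean space. -/
abbrev Eu (d : ℕ) : Type := EuclideanSpace ℝ (Fin d)

/-- The unit vector of a sign vector. -/
noncomputable def vec {d : ℕ} (f : Fin d → Bool) : Eu d :=
  WithLp.toLp 2 fun i => sg (f i) / √(d : ℝ)

theorem vec_apply {d : ℕ} (f : Fin d → Bool) (i : Fin d) : (vec f) i = sg (f i) / √(d : ℝ) := rfl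

theorem inner_vec {d : ℕ} (f g : Fin d → Bool) :
    ⟪vec f, vec g⟫ = (∑ i, sg (f i) * sg (g i)) / d := by
  rw [PiLp.inner_apply]
  simp only [vec_apply, RCLike.inner_apply, conj_trivial]
  rw [Finset.sum_div]
  apply Finset.sum_congr rfl
  intro i _
  rw [div_mul_div_comm, Real.mul_self_sqrt (Nat.cast_nonneg d), mul_comm]

theorem norm_vec {d : ℕ} (hd : 0 < d) (f : Fin d → Bool) : ‖vec f‖ = 1 := by
  have h : ‖vec f‖ ^ 2 = 1 := by
    rw [← real_inner_self_eq_norm_sq, inner_vec]
    simp only [sg_mul_self, sum_const, card_univ, Fintype.card_fin, nsmul_eq_mul, mul_one]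
    have : (d : ℝ) ≠ 0 := by exact_mod_cast hd.ne'
    field_simp
  nlinarith [norm_nonneg (vec f)]

/-- The finite set of approximate isometries. -/
abbrev Net (d : ℕ) : Type := (Fin d → Fin d → Fin (200 * d + 1)) × (Fin d → Fin (200 * d + 1))

/-- The integer value. -/
def val {d : ℕ} (j : Fin (200 * d + 1)) : ℝ := (j.val : ℝ) - 100 * d

theorem exists_val {d : ℕ} (x : ℝ) (hx : |x| ≤ 100 * d) :
    ∃ j : Fin (200 * d + 1), |val j - x| ≤ 1 / 2 := by
  have hx1 := (abs_le.1 hx).1
  have hx2 := (abs_le.1 hx).2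
  set r : ℤ := round (x + 100 * d) with hr
  have h1 : |x + 100 * d - r| ≤ 1 / 2 := abs_sub_round _
  have h1a := (abs_le.1 h1).1
  have h1b := (abs_le.1 h1).2
  have h2 : 0 ≤ r := by
    by_contra hcon
    push Not at hcon
    have : (r : ℝ) ≤ -1 := by exact_mod_cast (by omega : r ≤ -1)
    linarith
  have h3 : r < 200 * d + 1 := by
    by_contra hcon
    push Not at hcon
    have : ((200 * d + 1 : ℤ) : ℝ) ≤ r := by exact_mod_cast hcon
    push_cast at this
    linarith
  refine ⟨⟨r.toNat, by omega⟩, ?_⟩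
  have h4 : ((r.toNat : ℕ) : ℝ) = (r : ℝ) := by
    have : ((r.toNat : ℕ) : ℤ) = r := Int.toNat_of_nonneg h2
    exact_mod_cast this
  unfold val
  simp only
  rw [h4, abs_le]
  constructor <;> linarith

/-- The approximate image of a sign vector (scaled by `√d`). -/
noncomputable def app {d : ℕ} (w : Net d) (f : Fin d → Bool) (k : Fin d) : ℝ :=
  ∑ l, val (w.1 k l) / (25 * d) * sg (f l) + val (w.2 k) / 25

/-- The sign vectors close to the approximate image. -/
def ballSet {d : ℕ} (w : Net d) (f : Fin d → Bool) : Set (Fin d → Bool) :=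
  {g | ∑ k, (sg (g k) - app w f k) ^ 2 ≤ (13 / 50) ^ 2 * d}

theorem exists_net {d : ℕ} (hd : 0 < d) (h : Eu d ≃ᵢ Eu d) :
    ∃ w : Net d, ∀ f g : Fin d → Bool, ‖h (vec f) - vec g‖ ≤ 11 / 50 → g ∈ ballSet w f := by
  classical
  have hd0 : (0 : ℝ) < d := by exact_mod_cast hd
  have hd1 : (1 : ℝ) ≤ d := by exact_mod_cast hd
  by_cases hex : ∃ f g : Fin d → Bool, ‖h (vec f) - vec g‖ ≤ 11 / 50
  swap
  · push Not at hex
    refine ⟨⟨fun _ _ => 0, fun _ => 0⟩, fun f g hfg => ?_⟩
    exact absurd hfg (not_le.2 (hex f g))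
  obtain ⟨f0, g0, h0⟩ := hex
  set W : Eu d ≃ₗᵢ[ℝ] Eu d := h.toRealLinearIsometryEquiv with hW
  have hh : ∀ z, h z = W z + h 0 := by
    intro z
    rw [hW, IsometryEquiv.toRealLinearIsometryEquiv_apply]
    abel
  set b := h 0 with hb
  have hbn : ‖b‖ ≤ 3 := by
    have h1 : b = (h (vec f0) - vec g0) + vec g0 - W (vec f0) := by
      rw [hh (vec f0)]
      abel
    have h2 : ‖b‖ ≤ ‖h (vec f0) - vec g0‖ + ‖vec g0‖ + ‖W (vec f0)‖ := by
      conv_lhs => rw [h1]
      exact (norm_sub_le _ _).trans (by gcongr; exact norm_add_le _ _)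
    rw [W.norm_map, norm_vec hd, norm_vec hd] at h2
    linarith
  have hcoord : ∀ (x : Eu d) k, |x k| ≤ ‖x‖ := by
    intro x k
    have := PiLp.norm_apply_le x k
    rwa [Real.norm_eq_abs] at this
  set A : Fin d → Fin d → ℝ := fun k l => (W (EuclideanSpace.single l 1)) k with hA
  have hA1 : ∀ k l, |A k l| ≤ 1 := by
    intro k l
    refine (hcoord _ _).trans ?_
    rw [W.norm_map]
    simp
  have hsd : √(d : ℝ) * √(d : ℝ) = d := Real.mul_self_sqrt hd0.le
  have hsd0 : 0 < √(d : ℝ) := Real.sqrt_pos.2 hd0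
  have hsd1 : √(d : ℝ) ≤ d := by
    rw [Real.sqrt_le_left hd0.le]
    nlinarith
  have hj1 : ∀ k l, ∃ j : Fin (200 * d + 1), |val j - 25 * d * A k l| ≤ 1 / 2 := by
    intro k l
    apply exists_val
    rw [abs_mul, abs_of_pos (by positivity : (0 : ℝ) < 25 * d)]
    nlinarith [hA1 k l]
  have hj2 : ∀ k, ∃ j : Fin (200 * d + 1), |val j - 25 * (√(d : ℝ) * b k)| ≤ 1 / 2 := by
    intro k
    apply exists_val
    rw [abs_mul, abs_mul, abs_of_pos (by norm_num : (0 : ℝ) < 25), abs_of_pos hsd0]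
    have h1 : |b k| ≤ 3 := (hcoord b k).trans hbn
    have h2 : √(d : ℝ) * |b k| ≤ d * 3 := mul_le_mul hsd1 h1 (abs_nonneg _) hd0.le
    linarith
  choose Z hZ using hj1
  choose z hz using hj2
  refine ⟨⟨Z, z⟩, fun f g hfg => ?_⟩
  -- coordinates of the image
  have himg : ∀ k, √(d : ℝ) * (h (vec f)) k = ∑ l, A k l * sg (f l) + √(d : ℝ) * b k := by
    intro k
    have h1 : vec f = ∑ l, (sg (f l) / √(d : ℝ)) • EuclideanSpace.single l (1 : ℝ) := by
      ext i
      rw [vec_apply]
      simp [Finset.sum_apply, Pi.single_apply]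
    have h2 : (W (vec f)) k = ∑ l, (sg (f l) / √(d : ℝ)) * A k l := by
      conv_lhs => rw [h1]
      rw [map_sum]
      simp [hA, Finset.sum_apply, map_smul]
    rw [hh (vec f)]
    simp only [PiLp.add_apply]
    rw [h2, mul_add, Finset.mul_sum]
    congr 1
    apply Finset.sum_congr rfl
    intro l _
    field_simp
  have happ : ∀ k, |app (⟨Z, z⟩ : Net d) f k - √(d : ℝ) * (h (vec f)) k| ≤ 1 / 25 := by
    intro k
    rw [himg k]
    unfold app
    simp only
    have h1 : (∑ l, val (Z k l) / (25 * d) * sg (f l) + val (z k) / 25) -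
        (∑ l, A k l * sg (f l) + √(d : ℝ) * b k) =
        ∑ l, (val (Z k l) - 25 * d * A k l) / (25 * d) * sg (f l) +
          (val (z k) - 25 * (√(d : ℝ) * b k)) / 25 := by
      have h2 : ∑ l, (val (Z k l) - 25 * d * A k l) / (25 * d) * sg (f l) =
          ∑ l, val (Z k l) / (25 * d) * sg (f l) - ∑ l, A k l * sg (f l) := by
        rw [← Finset.sum_sub_distrib]
        apply Finset.sum_congr rfl
        intro l _
        field_simp
      rw [h2]
      ring
    rw [h1]
    refine (abs_add_le _ _).trans ?_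
    have h3 : |∑ l, (val (Z k l) - 25 * d * A k l) / (25 * d) * sg (f l)| ≤ 1 / 50 := by
      refine (Finset.abs_sum_le_sum_abs _ _).trans ?_
      have h4 : ∀ l ∈ (univ : Finset (Fin d)),
          |(val (Z k l) - 25 * d * A k l) / (25 * d) * sg (f l)| ≤ 1 / (50 * d) := by
        intro l _
        rw [abs_mul, abs_sg, mul_one, abs_div, abs_of_pos (by positivity : (0 : ℝ) < 25 * d),
          div_le_div_iff₀ (by positivity) (by positivity)]
        nlinarith [hZ k l]
      refine (Finset.sum_le_sum h4).trans (le_of_eq ?_)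
      rw [Finset.sum_const, card_univ, Fintype.card_fin, nsmul_eq_mul]
      field_simp
    have h5 : |(val (z k) - 25 * (√(d : ℝ) * b k)) / 25| ≤ 1 / 50 := by
      rw [abs_div, abs_of_pos (by norm_num : (0 : ℝ) < 25)]
      linarith [hz k]
    linarith
  have hnorm : ∑ k, ((h (vec f)) k - (vec g) k) ^ 2 ≤ (11 / 50) ^ 2 := by
    have h1 : ∑ k, ((h (vec f)) k - (vec g) k) ^ 2 = ‖h (vec f) - vec g‖ ^ 2 := by
      rw [EuclideanSpace.real_norm_sq_eq]
      simp
    rw [h1]
    exact pow_le_pow_left₀ (norm_nonneg _) hfg 2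
  unfold ballSet
  simp only [Set.mem_ofPred_eq]
  have hk : ∀ k ∈ (univ : Finset (Fin d)), (sg (g k) - app (⟨Z, z⟩ : Net d) f k) ^ 2 ≤
      13 / 11 * (d * ((h (vec f)) k - (vec g) k) ^ 2) + 13 / 2 * (1 / 25) ^ 2 := by
    intro k _
    have h1 : d * ((h (vec f)) k - (vec g) k) ^ 2 =
        (√(d : ℝ) * (h (vec f)) k - sg (g k)) ^ 2 := by
      have : √(d : ℝ) * (h (vec f)) k - sg (g k) = √(d : ℝ) * ((h (vec f)) k - (vec g) k) := by
        rw [vec_apply]
        field_simp
      rw [this, mul_pow, Real.sq_sqrt hd0.le]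
    rw [h1]
    have h2 := happ k
    have h3 : (app (⟨Z, z⟩ : Net d) f k - √(d : ℝ) * (h (vec f)) k) ^ 2 ≤ (1 / 25) ^ 2 := by
      rw [← sq_abs]
      exact pow_le_pow_left₀ (abs_nonneg _) h2 2
    set a := √(d : ℝ) * (h (vec f)) k - sg (g k) with ha
    set e := app (⟨Z, z⟩ : Net d) f k - √(d : ℝ) * (h (vec f)) k with he
    have h4 : sg (g k) - app (⟨Z, z⟩ : Net d) f k = -(a + e) := by rw [ha, he]; ring
    rw [h4]
    nlinarith [sq_nonneg (2 * a - 11 * e)]
  refine (Finset.sum_le_sum hk).trans ?_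
  rw [Finset.sum_add_distrib, ← Finset.mul_sum, ← Finset.mul_sum, Finset.sum_const, card_univ,
    Fintype.card_fin, nsmul_eq_mul]
  nlinarith

open Classical in
/-- A set of tips chosen by the greedy algorithm: few tips are taken close to other tips. -/
theorem tips_of_list {d : ℕ} (hd : 0 < d) (l : List (Fin d → Bool)) (T : ℕ)
    (hp : l.Pairwise fun f g => ¬ ((d : ℝ) / 20 < ∑ i, sg (f i) * sg (g i)))
    (hbad : ∀ w : Net d, bad ballSet w l ≤ T) :
    ∃ X : Finset (Eu d), Tips X ∧ X.card = l.length ∧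
      ∀ h : Eu d ≃ᵢ Eu d, ∀ B ⊆ X, (∀ x ∈ B, ∃ y ∈ X, y ≠ x ∧ ‖h x - y‖ ≤ 11 / 50) →
        B.card ≤ 2 * T := by
  have hd0 : (0 : ℝ) < d := by exact_mod_cast hd
  have hself : ∀ f : Fin d → Bool, (d : ℝ) / 20 < ∑ i, sg (f i) * sg (f i) := by
    intro f
    simp only [sg_mul_self, sum_const, card_univ, Fintype.card_fin, nsmul_eq_mul, mul_one]
    linarith
  have hnd : l.Nodup := by
    refine hp.imp ?_
    rintro f g h rfl
    exact h (hself f)
  have hpair : ∀ f ∈ l, ∀ g ∈ l, f ≠ g → ⟪vec f, vec g⟫ ≤ 1 / 20 := by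
    intro f hf g hg hfg
    have hsym : Std.Symm (fun f g : Fin d → Bool => ¬ ((d : ℝ) / 20 < ∑ i, sg (f i) * sg (g i))) := by
      refine ⟨fun f g h => ?_⟩
      have : ∑ i, sg (g i) * sg (f i) = ∑ i, sg (f i) * sg (g i) :=
        Finset.sum_congr rfl fun i _ => mul_comm _ _
      rwa [this]
    have h1 := hp.forall hf hg hfg
    rw [inner_vec, div_le_div_iff₀ hd0 (by norm_num)]
    push Not at h1
    linarith
  have hinj : ∀ f ∈ l, ∀ g ∈ l, vec f = vec g → f = g := by
    intro f hf g hg hfg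
    by_contra hne
    have h1 := hpair f hf g hg hne
    rw [hfg, real_inner_self_eq_norm_sq, norm_vec hd] at h1
    norm_num at h1
  refine ⟨l.toFinset.image vec, ⟨?_, ?_⟩, ?_, ?_⟩
  · intro x hx
    obtain ⟨f, -, rfl⟩ := Finset.mem_image.1 hx
    exact norm_vec hd f
  · intro x hx y hy hxy
    obtain ⟨f, hf, rfl⟩ := Finset.mem_image.1 hx
    obtain ⟨g, hg, rfl⟩ := Finset.mem_image.1 hy
    exact hpair f (List.mem_toFinset.1 hf) g (List.mem_toFinset.1 hg) fun h => hxy (by rw [h])
  · rw [Finset.card_image_of_injOn, List.toFinset_card_of_nodup hnd]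
    intro f hf g hg hfg
    exact hinj f (by simpa using hf) g (by simpa using hg) hfg
  · intro h B hB hBx
    obtain ⟨w1, hw1⟩ := exists_net hd h
    obtain ⟨w2, hw2⟩ := exists_net hd h.symm
    choose! φ hφ1 hφ2 hφ3 using hBx
    -- `B` is covered by two sets
    set B1 := B.filter fun x => x ∈ (badSet ballSet w2 l).image vec with hB1
    set B2 := B.filter fun x => φ x ∈ (badSet ballSet w1 l).image vec with hB2
    have hcov : B ⊆ B1 ∪ B2 := by
      intro x hx
      obtain ⟨f, hf, hfx⟩ := Finset.mem_image.1 (hB hx)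
      obtain ⟨g, hg, hgx⟩ := Finset.mem_image.1 (hφ1 x hx)
      have hne : f ≠ g := by
        rintro rfl
        exact hφ2 x hx (by rw [← hgx, hfx])
      have hn := hφ3 x hx
      rw [← hfx] at hn
      have hgx' : φ (vec f) = vec g := by rw [hfx, hgx]
      rw [hgx'] at hn
      have hn2 : ‖h.symm (vec g) - vec f‖ ≤ 11 / 50 := by
        have h1 : dist (h.symm (vec g)) (vec f) = dist (h (vec f)) (vec g) := by
          rw [← h.dist_eq (h.symm (vec g)) (vec f), h.apply_symm_apply, dist_comm]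
        rw [← dist_eq_norm, h1, dist_eq_norm]
        exact hn
      rw [Finset.mem_union]
      rcases mem_badSet_or ballSet l f (List.mem_toFinset.1 hf) g (List.mem_toFinset.1 hg) hne with
        h1 | h1
      · left
        rw [hB1, Finset.mem_filter]
        exact ⟨hx, Finset.mem_image.2 ⟨f, h1 w2 (hw2 g f hn2), hfx⟩⟩
      · right
        rw [hB2, Finset.mem_filter]
        exact ⟨hx, Finset.mem_image.2 ⟨g, h1 w1 (hw1 f g hn), hgx⟩⟩
    have himg : ∀ w : Net d, ((badSet ballSet w l).image (vec (d := d))).card ≤ T := fun w =>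
      Finset.card_image_le.trans ((card_badSet ballSet w l).trans (hbad w))
    have c1 : B1.card ≤ T := by
      refine le_trans (Finset.card_le_card ?_) (himg w2)
      intro x hx
      rw [hB1, Finset.mem_filter] at hx
      exact hx.2
    have c2 : B2.card ≤ T := by
      have hinjφ : Set.InjOn φ B2 := by
        intro x hx y hy hxy
        by_contra hne
        have hxB : x ∈ B := (Finset.mem_filter.1 hx).1
        have hyB : y ∈ B := (Finset.mem_filter.1 hy).1
        obtain ⟨f, hf, hfx⟩ := Finset.mem_image.1 (hB hxB)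
        obtain ⟨g, hg, hgy⟩ := Finset.mem_image.1 (hB hyB)
        have hfg : f ≠ g := by
          rintro rfl
          exact hne (by rw [← hfx, hgy])
        have h1 := hpair f (List.mem_toFinset.1 hf) g (List.mem_toFinset.1 hg) hfg
        rw [hfx, hgy] at h1
        have h2 : ‖x - y‖ ^ 2 = 2 - 2 * ⟪x, y⟫ := by
          rw [norm_sub_sq_real, ← hfx, ← hgy, norm_vec hd, norm_vec hd]
          ring
        have h3 : ‖x - y‖ ≤ 11 / 25 := by
          have h4 : ‖x - y‖ = ‖h x - h y‖ := by
            rw [← dist_eq_norm, ← dist_eq_norm, h.dist_eq]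
          have h5 : h x - h y = (h x - φ x) - (h y - φ y) := by rw [hxy]; abel
          rw [h4, h5]
          have := norm_sub_le (h x - φ x) (h y - φ y)
          have h6 := hφ3 x hxB
          have h7 := hφ3 y hyB
          linarith
        nlinarith [norm_nonneg (x - y)]
      rw [← Finset.card_image_of_injOn hinjφ]
      refine le_trans (Finset.card_le_card ?_) (himg w1)
      intro z hz
      obtain ⟨x, hx, rfl⟩ := Finset.mem_image.1 hz
      rw [hB2, Finset.mem_filter] at hx
      exact hx.2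
    have := Finset.card_le_card hcov
    have := Finset.card_union_le B1 B2
    omega

end Newton54
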