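import Pool.Agent.Lib.MP_54d165_co.Triangle

/-!
# Regular polygons with an odd number of vertices; similarity; monotonicity
-/

set_option autoImplicit false

namespace Newton54D

open Complex Set Newton54S Newton54P
open scoped RealInnerProductSpace

theorem cov_mono {C : Set ℂ} {k l : ℕ} (hk : 0 < k) (hkl : k ≤ l) (h : Cov C k) : Cov C l := by
  obtain ⟨g, U, hU, hCU, hUg⟩ := h
  refine ⟨fun i => g ⟨min i (k - 1), by omega⟩, U, hU, hCU, fun x hx => ?_⟩
  obtain ⟨i, hi⟩ := mem_iUnion.1 (hUg hx)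
  refine mem_iUnion.2 ⟨⟨i, i.2.trans_le hkl⟩, ?_⟩
  have : (⟨min (i : ℕ) (k - 1), by omega⟩ : Fin k) = i := by
    apply Fin.ext
    have := i.2
    simp only
    omega
  simp only [this]
  exact hi

theorem cov_pos {C : Set ℂ} (hne : C.Nonempty) {k : ℕ} (h : Cov C k) : 0 < k := by
  obtain ⟨g, U, hU, hCU, hUg⟩ := h
  obtain ⟨x, hx⟩ := hne
  obtain ⟨i, -⟩ := mem_iUnion.1 (hUg (hCU hx))
  exact lt_of_le_of_lt (Nat.zero_le _) i.2

theorem three_le {C : Set ℂ} (hne : C.Nonempty) (h2 : ¬ Cov C 2) {k : ℕ} (h : Cov C k) : 3 ≤ k := by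
  by_contra hlt
  exact h2 (cov_mono (cov_pos hne h) (by omega) h)

theorem exp_eq_uv (k j : ℕ) : Complex.exp (Real.pi * Complex.I * j / k) =
    uv ((j : ℝ) * (Real.pi / k)) := by
  rw [uv_eq_exp]
  congr 1
  push_cast
  ring

/-- bodies whose difference body is similar to a regular polygon -/
theorem not_cov_diff' {C : Set ℂ} {k : ℕ} {u : ℂ} (hk : 2 ≤ k) (hu : u ≠ 0) (hconv : Convex ℝ C)
    (hcomp : IsCompact C)
    (hd : {z | ∃ x ∈ C, ∃ y ∈ C, z = x - y} =
      convexHull ℝ (range fun j : Fin (2 * k) => u * Complex.exp (Real.pi * Complex.I * j / k))) :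
    ¬ Cov C 2 := by
  intro hcov
  have hlin : IsLinearMap ℝ fun x : ℂ => u * x := by
    refine ⟨fun x y => mul_add u x y, fun a x => ?_⟩
    simp only [Complex.real_smul]
    ring
  have hpoly : convexHull ℝ (range fun j : Fin (2 * k) =>
      u * Complex.exp (Real.pi * Complex.I * j / k)) = (fun x => u * x) '' poly k := by
    rw [poly, hlin.image_convexHull, ← range_comp]
    congr 2
    funext j
    simp only [Function.comp_apply]
    rw [exp_eq_uv]
  rw [hpoly] at hd
  have hcov' : Cov ((fun x => u⁻¹ * x + 0) '' C) 2 := by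
    refine (cov_mul_iff (inv_ne_zero hu) 0).2 hcov
  refine not_cov_diff hk ?_ (hcomp.image (by fun_prop)) ?_ hcov'
  · rintro _ ⟨x, hx, rfl⟩ _ ⟨y, hy, rfl⟩ a b ha hb hab
    refine ⟨a • x + b • y, hconv hx hy ha hb hab, ?_⟩
    simp only [Complex.real_smul]
    ring
  · intro z
    constructor
    · intro hz
      have h1 : u * z ∈ {z | ∃ x ∈ C, ∃ y ∈ C, z = x - y} := by
        rw [hd]
        exact ⟨z, hz, rfl⟩
      obtain ⟨x, hx, y, hy, hxy⟩ := h1
      refine ⟨_, ⟨x, hx, rfl⟩, _, ⟨y, hy, rfl⟩, ?_⟩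
      simp only
      rw [add_zero, add_zero, ← mul_sub, ← hxy, ← mul_assoc, inv_mul_cancel₀ hu, one_mul]
    · rintro ⟨_, ⟨x, hx, rfl⟩, _, ⟨y, hy, rfl⟩, rfl⟩
      have h1 : x - y ∈ (fun x => u * x) '' poly k := by
        rw [← hd]
        exact ⟨x, hx, y, hy, rfl⟩
      obtain ⟨w, hw, hwe⟩ := h1
      simp only at hwe ⊢
      rw [add_zero, add_zero, ← mul_sub, ← hwe, ← mul_assoc, inv_mul_cancel₀ hu, one_mul]
      exact hw

/-- no two-covering when the union property fails -/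
theorem not_cov_borsuk {C : Set ℂ} (hcomp : IsCompact C) (hint : (interior C).Nonempty)
    (h : ¬ ∃ A B : Set ℂ, C = A ∪ B ∧ Metric.diam A < Metric.diam C ∧
      Metric.diam B < Metric.diam C) : ¬ Cov C 2 := fun hc => h (borsuk_of_cov hcomp hint hc)

/-- vertices of a regular polygon -/
noncomputable def rv (n : ℕ) (c u : ℂ) (j : ℕ) : ℂ :=
  c + u * Complex.exp (2 * Real.pi * Complex.I * j / n)

theorem rv_uv (n : ℕ) (c u : ℂ) (j : ℕ) : rv n c u j = c + u * uv ((j : ℝ) * (2 * Real.pi / n)) := by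
  rw [rv, uv_eq_exp]
  congr 3
  push_cast
  ring

theorem rv_period {n : ℕ} (hn : 0 < n) (c u : ℂ) (j : ℕ) : rv n c u (j + n) = rv n c u j := by
  have hn0 : (n : ℝ) ≠ 0 := by exact_mod_cast hn.ne'
  rw [rv_uv, rv_uv]
  have h1 : ((j + n : ℕ) : ℝ) * (2 * Real.pi / n) = (j : ℝ) * (2 * Real.pi / n) + 2 * Real.pi := by
    push_cast
    field_simp
  rw [h1, uv_add_two_pi]

theorem rv_mod {n : ℕ} (hn : 0 < n) (c u : ℂ) (j : ℕ) : rv n c u (j % n) = rv n c u j := by
  have h : ∀ q i : ℕ, rv n c u (i + q * n) = rv n c u i := by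
    intro q
    induction q with
    | zero => intro i; simp
    | succ q ih =>
      intro i
      rw [show i + (q + 1) * n = i + q * n + n by ring, rv_period hn, ih]
  conv_rhs => rw [(Nat.mod_add_div' j n).symm, h]

theorem dist_uv (a b : ℝ) : dist (uv a) (uv b) = 2 * |Real.sin ((a - b) / 2)| := by
  have h1 : ‖uv a - uv b‖ ^ 2 = (2 * |Real.sin ((a - b) / 2)|) ^ 2 := by
    rw [mul_pow, sq_abs, Complex.sq_norm, Complex.normSq_apply, Complex.sub_re, Complex.sub_im,
      uv_re, uv_re, uv_im, uv_im]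
    have h2 := Real.cos_two_mul ((a - b) / 2)
    rw [show 2 * ((a - b) / 2) = a - b by ring] at h2
    have h3 := Real.sin_sq_add_cos_sq ((a - b) / 2)
    have h4 := Real.cos_sub a b
    have ha := Real.sin_sq_add_cos_sq a
    have hb := Real.sin_sq_add_cos_sq b
    linear_combination ha + hb + 2 * h4 - 2 * h2 - 4 * h3
  rw [dist_eq_norm]
  have h5 := abs_eq_abs.2 (sq_eq_sq_iff_eq_or_eq_neg.1 h1)
  rwa [abs_of_nonneg (norm_nonneg _), abs_of_nonneg (by positivity)] at h5

private theorem cos_odd' {k : ℕ} (hk : 2 ≤ k) (n : ℤ) (hn : n % 2 = 1) :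
    |Real.cos (n * (Real.pi / (2 * k)))| ≤ Real.cos (Real.pi / (2 * k)) := by
  have hk0 : (0 : ℝ) < k := by
    have : 0 < k := by omega
    exact_mod_cast this
  have hpi := Real.pi_pos
  set u : ℝ := Real.pi / (2 * k) with hu
  have hu0 : 0 < u := by positivity
  have hku : 2 * (k : ℝ) * u = Real.pi := by rw [hu]; field_simp
  set m : ℤ := n / (2 * (k : ℤ)) with hm
  set r : ℤ := n % (2 * (k : ℤ)) with hr
  have hk2 : (0 : ℤ) < 2 * (k : ℤ) := by omega
  have h1 : n = r + 2 * (k : ℤ) * m := by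
    rw [hr, hm]
    exact (Int.emod_add_mul_ediv n (2 * (k : ℤ))).symm
  have hr0 : 0 ≤ r := Int.emod_nonneg _ hk2.ne'
  have hr1 : r < 2 * (k : ℤ) := Int.emod_lt_of_pos _ hk2
  have hr2 : r % 2 = 1 := by
    have h2 : (2 * (k : ℤ) * m) % 2 = 0 := by
      rw [mul_assoc]
      exact Int.mul_emod_right 2 _
    omega
  have hr3 : 1 ≤ r := by omega
  have hr4 : r ≤ 2 * (k : ℤ) - 1 := by omega
  have h3 : (n : ℝ) * u = r * u + m * Real.pi := by
    rw [h1]
    push_cast
    rw [← hku]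
    ring
  rw [h3, Real.cos_add_int_mul_pi, abs_mul, abs_zpow, abs_neg, abs_one, one_zpow, one_mul]
  have hr3' : (1 : ℝ) ≤ r := by exact_mod_cast hr3
  have hr4' : (r : ℝ) ≤ 2 * k - 1 := by exact_mod_cast hr4
  have h4 : u ≤ r * u := by nlinarith
  have h5 : r * u ≤ Real.pi - u := by
    rw [← hku]
    nlinarith
  rw [abs_le]
  constructor
  · rw [← Real.cos_pi_sub]
    exact Real.cos_le_cos_of_nonneg_of_le_pi (by nlinarith) (by linarith) h5
  · exact Real.cos_le_cos_of_nonneg_of_le_pi hu0.le (by linarith) h4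

theorem dist_rv {n : ℕ} (c u : ℂ) (a b : ℕ) :
    dist (rv n c u a) (rv n c u b) = ‖u‖ * (2 * |Real.sin (((a : ℝ) - b) * (Real.pi / n))|) := by
  rw [rv_uv, rv_uv, dist_add_left, dist_eq_norm, ← mul_sub, norm_mul, ← dist_eq_norm, dist_uv]
  congr 4
  ring

theorem dist_rv_le {m : ℕ} (hm : 1 ≤ m) (c u : ℂ) (a b : ℕ) :
    dist (rv (2 * m + 1) c u a) (rv (2 * m + 1) c u b) ≤
      ‖u‖ * (2 * Real.cos (Real.pi / (2 * ((2 * m + 1 : ℕ) : ℝ)))) := by
  rw [dist_rv]
  refine mul_le_mul_of_nonneg_left ?_ (norm_nonneg u)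
  refine mul_le_mul_of_nonneg_left ?_ (by norm_num)
  set n : ℕ := 2 * m + 1 with hn
  have hn0 : (0 : ℝ) < n := by
    have : 0 < n := by omega
    exact_mod_cast this
  have h1 : |Real.sin (((a : ℝ) - b) * (Real.pi / n))| =
      |Real.cos (((2 * ((a : ℤ) - b) - n : ℤ) : ℝ) * (Real.pi / (2 * n)))| := by
    have h2 : ((2 * ((a : ℤ) - b) - n : ℤ) : ℝ) * (Real.pi / (2 * n)) =
        ((a : ℝ) - b) * (Real.pi / n) - Real.pi / 2 := by
      push_cast
      field_simp
    rw [h2, Real.cos_sub_pi_div_two]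
  rw [h1]
  exact cos_odd' (by omega) _ (by omega)

theorem dist_rv_eq {m : ℕ} (hm : 1 ≤ m) (c u : ℂ) (a : ℕ) :
    dist (rv (2 * m + 1) c u a) (rv (2 * m + 1) c u (a + m)) =
      ‖u‖ * (2 * Real.cos (Real.pi / (2 * ((2 * m + 1 : ℕ) : ℝ)))) := by
  rw [dist_rv]
  congr 2
  set n : ℕ := 2 * m + 1 with hn
  have hn0 : (0 : ℝ) < n := by
    have : 0 < n := by omega
    exact_mod_cast this
  have hn1 : (1 : ℝ) ≤ n := by
    have : 1 ≤ n := by omega
    exact_mod_cast this
  have hm' : (m : ℝ) = (n - 1) / 2 := by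
    rw [hn]
    push_cast
    ring
  have h2 : ((a : ℝ) - ((a + m : ℕ) : ℝ)) * (Real.pi / n) = Real.pi / (2 * n) - Real.pi / 2 := by
    push_cast
    rw [hm']
    field_simp
    ring
  rw [h2, Real.sin_sub_pi_div_two, abs_neg, abs_of_nonneg]
  refine Real.cos_nonneg_of_mem_Icc ⟨?_, ?_⟩
  · have := Real.pi_pos
    have h3 : 0 ≤ Real.pi / (2 * n) := by positivity
    linarith
  · rw [div_le_div_iff₀ (by positivity) (by norm_num)]
    nlinarith [Real.pi_pos]

/-- regular polygons with an odd number of vertices -/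
theorem not_cov_odd {m : ℕ} (hm : 1 ≤ m) {c u : ℂ}
    (hint : (interior (convexHull ℝ (range fun j : Fin (2 * m + 1) => rv (2 * m + 1) c u j))).Nonempty) :
    ¬ Cov (convexHull ℝ (range fun j : Fin (2 * m + 1) => rv (2 * m + 1) c u j)) 2 := by
  set n : ℕ := 2 * m + 1 with hn
  set P : Set ℂ := convexHull ℝ (range fun j : Fin n => rv n c u j) with hP
  have hcomp : IsCompact P := (finite_range _).isCompact_convexHull (𝕜 := ℝ)
  have hmem : ∀ j : ℕ, rv n c u j ∈ P := by
    intro j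
    rw [← rv_mod (by omega) c u j]
    exact subset_convexHull ℝ _ ⟨⟨j % n, Nat.mod_lt _ (by omega)⟩, rfl⟩
  set D : ℝ := ‖u‖ * (2 * Real.cos (Real.pi / (2 * (n : ℝ)))) with hD
  have hdiam : Metric.diam P ≤ D := by
    rw [hP, convexHull_diam]
    refine Metric.diam_le_of_forall_dist_le ?_ ?_
    · exact dist_nonneg.trans (dist_rv_le hm c u 0 0)
    · rintro _ ⟨a, rfl⟩ _ ⟨b, rfl⟩
      exact dist_rv_le hm c u a b
  refine not_cov_borsuk hcomp hint ?_
  rintro ⟨A, B, hAB, hA, hB⟩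
  have hsub : ∀ S : Set ℂ, S ⊆ P → Metric.diam S < Metric.diam P → ∀ a : ℕ,
      rv n c u a ∈ S → rv n c u (a + m) ∉ S := by
    intro S hS hSd a h1 h2
    have h3 := Metric.dist_le_diam_of_mem (hcomp.isBounded.subset hS) h1 h2
    rw [dist_rv_eq hm] at h3
    linarith
  have hAP : A ⊆ P := by rw [hAB]; exact subset_union_left
  have hBP : B ⊆ P := by rw [hAB]; exact subset_union_right
  have halt : ∀ (S S' : Set ℂ), P = S ∪ S' → Metric.diam S < Metric.diam P →
      Metric.diam S' < Metric.diam P → rv n c u 0 ∈ S → False := by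
    intro S S' hSS hS hS' h0
    have hs1 : S ⊆ P := by rw [hSS]; exact subset_union_left
    have hs2 : S' ⊆ P := by rw [hSS]; exact subset_union_right
    have h1 : ∀ i : ℕ, rv n c u (2 * i * m) ∈ S ∧ rv n c u ((2 * i + 1) * m) ∉ S := by
      intro i
      induction i with
      | zero =>
        refine ⟨by simpa using h0, ?_⟩
        have := hsub S hs1 hS 0 h0
        simpa using this
      | succ i ih =>
        have h2 : rv n c u ((2 * i + 1) * m) ∈ S' := by
          have h3 := hmem ((2 * i + 1) * m)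
          rw [hSS] at h3
          exact h3.resolve_left ih.2
        have h4 := hsub S' hs2 hS' _ h2
        have h5 : rv n c u ((2 * i + 1) * m + m) ∈ S := by
          have h3 := hmem ((2 * i + 1) * m + m)
          rw [hSS] at h3
          exact h3.resolve_right h4
        rw [show (2 * i + 1) * m + m = 2 * (i + 1) * m by ring] at h5
        refine ⟨h5, ?_⟩
        have h6 := hsub S hs1 hS _ h5
        rwa [show 2 * (i + 1) * m + m = (2 * (i + 1) + 1) * m by ring] at h6
    have h7 := (h1 m).2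
    rw [← rv_mod (by omega) c u ((2 * m + 1) * m), ← hn, Nat.mul_mod_right] at h7
    exact h7 h0
  have h0 := hmem 0
  rw [hAB] at h0
  rcases h0 with h0 | h0
  · exact halt A B hAB hA hB h0
  · exact halt B A (by rw [hAB, union_comm]) hB hA h0

end Newton54D
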