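import Pool.Agent.Lib.MP_54d165_co.Motion

/-!
Smooth convex bodies: small motions and normals.
-/

namespace Newton54S

set_option linter.unusedSectionVars false

open Set Filter Topology
open scoped RealInnerProductSpace

variable {E : Type*} [NormedAddCommGroup E] [InnerProductSpace ℝ E] [FiniteDimensional ℝ E]

/-- `n` is a unit outer normal of `C` at `x` -/
def Nml (C : Set E) (x n : E) : Prop := ‖n‖ = 1 ∧ ∀ y ∈ C, ⟪n, y⟫ ≤ ⟪n, x⟫

/-- every boundary point has exactly one supporting hyperplane -/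
def Smooth (C : Set E) : Prop := ∀ x ∈ frontier C, ∀ m n, Nml C x m → Nml C x n → m = n

theorem inward {C : Set E} (hconv : Convex ℝ C) (hint : (interior C).Nonempty) {x : E}
    (hx : x ∈ C) (X : E) (hn : ∀ n, Nml C x n → 0 < ⟪n, X⟫) :
    ∃ τ : ℝ, 0 < τ ∧ x - τ • X ∈ interior C := by
  by_contra hcon
  push Not at hcon
  have hray : Convex ℝ ((fun τ : ℝ => x - τ • X) '' Set.Ioi 0) := by
    rintro _ ⟨s, hs, rfl⟩ _ ⟨t, ht, rfl⟩ a b ha hb hab
    refine ⟨a * s + b * t, ?_, ?_⟩
    · rcases ha.eq_or_lt with h | h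
      · rw [← h] at hab ⊢
        simp only [zero_add] at hab
        rw [hab]
        simpa using ht
      · have h1 : 0 < a * s := mul_pos h hs
        have h2 : 0 ≤ b * t := mul_nonneg hb (le_of_lt ht)
        exact add_pos_of_pos_of_nonneg h1 h2
    · have h1 : a • (x - s • X) + b • (x - t • X) = (a + b) • x - (a * s + b * t) • X := by
        module
      simp only [h1, hab, one_smul]
  have hdisj : Disjoint (interior C) ((fun τ : ℝ => x - τ • X) '' Set.Ioi 0) := by
    rw [Set.disjoint_left]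
    rintro _ h1 ⟨τ, hτ, rfl⟩
    exact hcon τ hτ h1
  obtain ⟨f, u, h1, h2⟩ := geometric_hahn_banach_open hconv.interior isOpen_interior hray hdisj
  have h3 : ∀ y ∈ C, f y ≤ u := by
    intro y hy
    have h4 : C ⊆ closure (interior C) := by
      rw [hconv.closure_interior_eq_closure_of_nonempty_interior hint]
      exact subset_closure
    have h5 : closure (interior C) ⊆ {y | f y ≤ u} :=
      closure_minimal (fun z hz => (h1 z hz).le) (isClosed_le f.continuous continuous_const)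
    exact h5 (h4 hy)
  have h4 : ∀ τ : ℝ, 0 < τ → u ≤ f x - τ * f X := by
    intro τ hτ
    have := h2 _ ⟨τ, hτ, rfl⟩
    simpa using this
  have hfX : f X ≤ 0 := by
    have h5 := h4 1 one_pos
    have h6 := h3 x hx
    linarith
  have hfx : u ≤ f x := by
    by_contra hlt
    push Not at hlt
    have h5 : 0 < (u - f x) / (1 - f X) := div_pos (by linarith) (by linarith)
    have h6 := h4 _ h5
    have h7 : -((u - f x) / (1 - f X) * f X) < u - f x := by
      have h8 : (u - f x) / (1 - f X) * (1 - f X) = u - f x := by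
        field_simp [show (1 - f X) ≠ 0 by linarith]
      nlinarith
    linarith
  obtain ⟨z, hz⟩ := hint
  set v := (InnerProductSpace.toDual ℝ E).symm f with hv
  have hfv : ∀ y, f y = ⟪v, y⟫ := fun y => by
    rw [hv, InnerProductSpace.toDual_symm_apply]
  have hv0 : v ≠ 0 := by
    intro h
    have h5 := h1 z hz
    rw [hfv, h, inner_zero_left] at h5
    have h6 := hfx
    rw [hfv, h, inner_zero_left] at h6
    linarith
  have hvn : 0 < ‖v‖ := norm_pos_iff.2 hv0
  have h5 : Nml C x (‖v‖⁻¹ • v) := by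
    refine ⟨by rw [norm_smul, norm_inv, norm_norm, inv_mul_cancel₀ hvn.ne'], fun y hy => ?_⟩
    rw [real_inner_smul_left, real_inner_smul_left, ← hfv, ← hfv]
    have h6 : f y ≤ f x := (h3 y hy).trans hfx
    gcongr
  have h6 := hn _ h5
  rw [real_inner_smul_left, ← hfv] at h6
  have h7 : ‖v‖⁻¹ * f X ≤ 0 := mul_nonpos_of_nonneg_of_nonpos (by positivity) hfX
  linarith

/-- For smooth bodies it is enough to look at the normals. -/
theorem inward_smooth {C : Set E} (hconv : Convex ℝ C) (hint : (interior C).Nonempty)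
    (hs : Smooth C) {x n : E} (hx : x ∈ C) (hn : Nml C x n) (X : E) (hX : 0 < ⟪n, X⟫) :
    ∃ τ : ℝ, 0 < τ ∧ x - τ • X ∈ interior C := by
  refine inward hconv hint hx X fun m hm => ?_
  have hfr : x ∈ frontier C := by
    refine ⟨subset_closure hx, fun hxi => ?_⟩
    have h1 : Tendsto (fun t : ℝ => x + t • n) (𝓝 0) (𝓝 (x + (0 : ℝ) • n)) := by
      have : Continuous fun t : ℝ => x + t • n := by fun_prop
      exact this.tendsto 0
    rw [zero_smul, add_zero] at h1
    have h2 := h1.eventually (isOpen_interior.mem_nhds hxi)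
    obtain ⟨ε, hε, h3⟩ := Metric.eventually_nhds_iff.1 h2
    have h4 : x + (ε / 2) • n ∈ C := by
      refine interior_subset (h3 ?_)
      rw [Real.dist_eq, sub_zero, abs_of_pos (by positivity)]
      linarith
    have h5 := hn.2 _ h4
    rw [inner_add_right, real_inner_smul_right, real_inner_self_eq_norm_sq, hn.1] at h5
    linarith
  rw [hs x hfr m n hm hn]
  exact hX

theorem exists_normal {C : Set E} (hconv : Convex ℝ C) (hint : (interior C).Nonempty) {x : E}
    (hx : x ∈ C) (hxi : x ∉ interior C) : ∃ n, Nml C x n := by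
  by_contra hcon
  push Not at hcon
  obtain ⟨τ, -, h⟩ := inward hconv hint hx 0 fun n hn => absurd hn (hcon n)
  rw [smul_zero, sub_zero] at h
  exact hxi h

theorem isCompact_nml {C : Set E} (hcomp : IsCompact C) :
    IsCompact {p : E × E | p.1 ∈ C ∧ Nml C p.1 p.2} := by
  have h1 : {p : E × E | p.1 ∈ C ∧ Nml C p.1 p.2} =
      (C ×ˢ Metric.sphere (0 : E) 1) ∩ ⋂ y ∈ C, {p : E × E | ⟪p.2, y⟫ ≤ ⟪p.2, p.1⟫} := by
    ext p
    simp only [Nml, mem_ofPred_eq, mem_inter_iff, mem_prod, mem_sphere_zero_iff_norm,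
      mem_iInter]
    tauto
  rw [h1]
  refine (hcomp.prod (isCompact_sphere _ _)).inter_right ?_
  refine isClosed_biInter fun y _ => isClosed_le ?_ ?_ <;> fun_prop

theorem compact_combine {α : Type*} [TopologicalSpace α] {K : Set α} (hK : IsCompact K)
    {ψ φ : α → ℝ} (hψ : Continuous ψ) (hφ : Continuous φ) (h0 : ∀ x ∈ K, 0 ≤ ψ x)
    (h : ∀ x ∈ K, ψ x = 0 → 0 < φ x) : ∃ L : ℝ, 0 < L ∧ ∀ x ∈ K, 0 < L * ψ x + φ x := by
  have key : ∃ L₀ : ℝ, 0 < L₀ ∧ ∀ L, L₀ ≤ L → ∀ x ∈ K, x ∈ K → 0 < L * ψ x + φ x := by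
    refine hK.induction_on (p := fun S => ∃ L₀ : ℝ, 0 < L₀ ∧ ∀ L, L₀ ≤ L →
      ∀ x ∈ S, x ∈ K → 0 < L * ψ x + φ x) ?_ ?_ ?_ ?_
    · exact ⟨1, one_pos, fun L _ x hx => absurd hx (Set.notMem_empty x)⟩
    · rintro S T hST ⟨L, hL, hT⟩
      exact ⟨L, hL, fun L' h1 x hx => hT L' h1 x (hST hx)⟩
    · rintro S T ⟨L₁, hL₁, hS⟩ ⟨L₂, hL₂, hT⟩
      refine ⟨max L₁ L₂, lt_max_of_lt_left hL₁, fun L h1 x hx => ?_⟩
      rcases hx with hx | hx
      · exact hS L ((le_max_left _ _).trans h1) x hx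
      · exact hT L ((le_max_right _ _).trans h1) x hx
    · intro x₀ hx₀
      rcases (h0 x₀ hx₀).eq_or_lt with h1 | h1
      · have h2 := h x₀ hx₀ h1.symm
        refine ⟨{x | 0 < φ x}, mem_nhdsWithin_of_mem_nhds
          ((isOpen_lt continuous_const hφ).mem_nhds h2), 1, one_pos, fun L hL x hx hxK => ?_⟩
        have h3 : 0 ≤ L * ψ x := mul_nonneg (by linarith) (h0 x hxK)
        have h4 : 0 < φ x := hx
        linarith
      · refine ⟨{x | ψ x₀ / 2 < ψ x ∧ φ x₀ - 1 < φ x}, mem_nhdsWithin_of_mem_nhds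
          (((isOpen_lt continuous_const hψ).inter (isOpen_lt continuous_const hφ)).mem_nhds
            ⟨by simp only [mem_ofPred_eq]; linarith, by simp⟩),
          2 * (|φ x₀| + 1) / ψ x₀, by positivity, fun L hL x hx hxK => ?_⟩
        obtain ⟨h2, h3⟩ := hx
        have hL0 : 0 < L := lt_of_lt_of_le (by positivity) hL
        have h4 : |φ x₀| + 1 ≤ L * (ψ x₀ / 2) := by
          rw [div_le_iff₀ h1] at hL
          linarith
        have h5 : L * (ψ x₀ / 2) < L * ψ x := mul_lt_mul_of_pos_left h2 hL0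
        have h6 := neg_abs_le (φ x₀)
        linarith
  obtain ⟨L, hL, hkey⟩ := key
  exact ⟨L, hL, fun x hx => hkey L le_rfl x hx hx⟩

/-- The main covering lemma. -/
theorem cov_smooth {C : Set E} (hconv : Convex ℝ C) (hcomp : IsCompact C)
    (hint : (interior C).Nonempty) (hs : Smooth C) {ι : Type*} [Fintype ι] [hι : Nonempty ι]
    (R : ℝ → (E ≃ₗᵢ[ℝ] E)) (Ω : E → E) (hΩ : Continuous Ω) (b : E) (v : ι → E)
    (hv : ∑ i, v i = 0)
    (hR : ∀ x₀, Tendsto (fun p : ℝ × E => (p.1)⁻¹ • ((R p.1).symm p.2 - p.2))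
      (𝓝[>] 0 ×ˢ 𝓝 x₀) (𝓝 (-(Ω x₀))))
    (h : ∀ x ∈ C, ∀ n, Nml C x n → (∀ i, ⟪n, v i⟫ = 0) → 0 < ⟪n, b + Ω x⟫) :
    Cov C (Fintype.card ι) := by
  set ψ : E × E → ℝ := fun p => ∑ i, max ⟪p.2, v i⟫ 0 with hψ
  set φ : E × E → ℝ := fun p => ⟪p.2, b + Ω p.1⟫ with hφ
  have hψc : Continuous ψ := by
    simp only [hψ]
    fun_prop
  have hφc : Continuous φ := by
    simp only [hφ]
    fun_prop
  obtain ⟨L, hL, hLK⟩ := compact_combine (isCompact_nml hcomp) hψc hφc
    (fun p _ => Finset.sum_nonneg fun i _ => le_max_right _ _)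
    (fun p hp hp0 => by
      refine h p.1 hp.1 p.2 hp.2 ?_
      have h1 : ∀ i, ⟪p.2, v i⟫ ≤ 0 := by
        intro i
        have h2 := (Finset.sum_eq_zero_iff_of_nonneg fun i _ => le_max_right ⟪p.2, v i⟫ 0).1
          hp0 i (Finset.mem_univ i)
        rw [← h2]
        exact le_max_left _ _
      have h3 : ∑ i, ⟪p.2, v i⟫ = 0 := by
        rw [← inner_sum, hv, inner_zero_right]
      intro i
      exact (Finset.sum_eq_zero_iff_of_nonpos fun i _ => h1 i).1 h3 i (Finset.mem_univ i))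
  set N : ℝ := (Fintype.card ι : ℝ) with hN
  have hN0 : 0 < N := by
    rw [hN]
    exact_mod_cast Fintype.card_pos
  refine cov_of_linear hconv hcomp R Ω (fun i => (N * L) • v i + b) hR fun x hx => ?_
  by_cases hxi : x ∈ interior C
  · have h1 : ∀ X : E, ∃ τ : ℝ, 0 < τ ∧ x - τ • X ∈ interior C := by
      intro X
      have h2 : Tendsto (fun t : ℝ => x - t • X) (𝓝 0) (𝓝 (x - (0 : ℝ) • X)) := by
        have : Continuous fun t : ℝ => x - t • X := by fun_prop
        exact this.tendsto 0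
      rw [zero_smul, sub_zero] at h2
      obtain ⟨ε, hε, h3⟩ := Metric.eventually_nhds_iff.1
        (h2.eventually (isOpen_interior.mem_nhds hxi))
      refine ⟨ε / 2, by positivity, h3 ?_⟩
      rw [Real.dist_eq, sub_zero, abs_of_pos (by positivity)]
      linarith
    obtain ⟨i⟩ := hι
    exact ⟨i, h1 _⟩
  · obtain ⟨n, hn⟩ := exists_normal hconv hint hx hxi
    have h1 := hLK (x, n) ⟨hx, hn⟩
    by_contra hcon
    push Not at hcon
    have h2 : ∀ i, ⟪n, (N * L) • v i + b + Ω x⟫ ≤ 0 := by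
      intro i
      by_contra h3
      push Not at h3
      obtain ⟨τ, hτ, h4⟩ := inward_smooth hconv hint hs hx hn _ h3
      exact hcon i τ hτ h4
    have h3 : ∀ i, N * L * ⟪n, v i⟫ + φ (x, n) ≤ 0 := by
      intro i
      have := h2 i
      rw [add_assoc, inner_add_right, real_inner_smul_right] at this
      exact this
    have h4 : φ (x, n) ≤ 0 := by
      have h5 : ∑ i, (N * L * ⟪n, v i⟫ + φ (x, n)) ≤ 0 := Finset.sum_nonpos fun i _ => h3 i
      rw [Finset.sum_add_distrib, ← Finset.mul_sum, ← inner_sum, hv, inner_zero_right,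
        mul_zero, zero_add, Finset.sum_const, Finset.card_univ, nsmul_eq_mul] at h5
      by_contra h6
      push Not at h6
      have : 0 < N * φ (x, n) := mul_pos hN0 h6
      linarith
    have h5 : ∀ i, N * L * max ⟪n, v i⟫ 0 ≤ -φ (x, n) := by
      intro i
      rcases le_total ⟪n, v i⟫ 0 with h6 | h6
      · rw [max_eq_right h6]
        linarith
      · rw [max_eq_left h6]
        have := h3 i
        linarith
    have h6 : N * L * ψ (x, n) ≤ N * -φ (x, n) := by
      simp only [hψ]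
      rw [Finset.mul_sum]
      calc ∑ i, N * L * max ⟪n, v i⟫ 0 ≤ ∑ _i : ι, -φ (x, n) :=
            Finset.sum_le_sum fun i _ => h5 i
        _ = N * -φ (x, n) := by
            rw [Finset.sum_const, Finset.card_univ, nsmul_eq_mul]
    have h7 : L * ψ (x, n) ≤ -φ (x, n) := by
      rw [mul_assoc] at h6
      exact le_of_mul_le_mul_left h6 hN0
    linarith

end Newton54S
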