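import Pool.Agent.Lib.MP_54d165_co.DiffPoly

/-!
# A short segment plus a translation, and triangles
-/

set_option autoImplicit false

namespace Newton54D

open Complex Set Newton54S Newton54P
open scoped RealInnerProductSpace Topology

/-- the isometry whose inverse is `x ↦ α x + c` -/
noncomputable def isoInv (α c : ℂ) (hα : ‖α‖ = 1) : ℂ ≃ᵢ ℂ :=
  (IsometryEquiv.mk' (fun x : ℂ => α * x + c) (fun y : ℂ => α⁻¹ * (y - c))
    (fun x => by
      have h0 : α ≠ 0 := by
        rintro rfl
        rw [norm_zero] at hα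
        exact zero_ne_one hα
      show α * (α⁻¹ * (x - c)) + c = x
      rw [← mul_assoc, mul_inv_cancel₀ h0, one_mul, sub_add_cancel])
    (Isometry.of_dist_eq fun x y => by
      rw [dist_add_right, dist_eq_norm, ← mul_sub, norm_mul, hα, one_mul, dist_eq_norm])).symm

theorem isoInv_symm (α c : ℂ) (hα : ‖α‖ = 1) (x : ℂ) : (isoInv α c hα).symm x = α * x + c := rfl

/-- moving from a point of `C` towards an interior point -/
theorem small_step {C : Set ℂ} (hconv : Convex ℝ C) {x v : ℂ} (hx : x ∈ C) {τ σ : ℝ} (hσ : 0 < σ)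
    (hστ : σ ≤ τ) (h : x - τ • v ∈ interior C) : x - σ • v ∈ interior C := by
  have hτ : 0 < τ := hσ.trans_le hστ
  have h1 := hconv.combo_self_interior_mem_interior hx h (a := 1 - σ / τ) (b := σ / τ)
    (by rw [sub_nonneg, div_le_one hτ]; exact hστ) (by positivity) (by ring)
  have h2 : (1 - σ / τ) • x + (σ / τ) • (x - τ • v) = x - σ • v := by
    rw [smul_sub, smul_smul, div_mul_cancel₀ _ hτ.ne', sub_smul, one_smul]
    ring
  rwa [h2] at h1

/-- a segment shorter than the diameter fits into the interior -/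
theorem exists_copy_segment {C : Set ℂ} (hconv : Convex ℝ C) (hint : (interior C).Nonempty) {p q : ℂ} (hpq : dist p q < Metric.diam C) :
    ∃ (α c : ℂ) (_ : ‖α‖ = 1), ∀ x ∈ segment ℝ p q, α * x + c ∈ interior C := by
  -- two points of `C` at a larger distance
  obtain ⟨x, hx, y, hy, hxy⟩ : ∃ x ∈ C, ∃ y ∈ C, dist p q < dist x y := by
    by_contra hcon
    push Not at hcon
    have := Metric.diam_le_of_forall_dist_le dist_nonneg hcon
    linarith
  have hcl : C ⊆ closure (interior C) := by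
    rw [hconv.closure_interior_eq_closure_of_nonempty_interior hint]
    exact subset_closure
  set ε : ℝ := (dist x y - dist p q) / 2 with hε
  have hε0 : 0 < ε := by rw [hε]; linarith
  obtain ⟨x', hx', hxx⟩ := Metric.mem_closure_iff.1 (hcl hx) ε hε0
  obtain ⟨y', hy', hyy⟩ := Metric.mem_closure_iff.1 (hcl hy) ε hε0
  have hlt : dist p q < dist x' y' := by
    have h1 := dist_triangle4 x x' y' y
    rw [dist_comm y' y] at h1
    linarith
  have hd0 : 0 < dist x' y' := lt_of_le_of_lt dist_nonneg hlt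
  rcases eq_or_ne p q with rfl | hne
  · refine ⟨1, x' - p, norm_one, fun z hz => ?_⟩
    rw [segment_same, mem_singleton_iff] at hz
    rw [hz, one_mul, add_sub_cancel]
    exact hx'
  · have hqp : q - p ≠ 0 := sub_ne_zero.2 hne.symm
    have hn : 0 < ‖q - p‖ := norm_pos_iff.2 hqp
    have hn' : 0 < ‖y' - x'‖ := by rwa [dist_comm, dist_eq_norm] at hd0
    have hlt' : ‖q - p‖ < ‖y' - x'‖ := by
      rw [dist_comm, dist_eq_norm, dist_comm, dist_eq_norm] at hlt
      exact hlt
    set α : ℂ := ((‖q - p‖ / ‖y' - x'‖ : ℝ) : ℂ) * (y' - x') / (q - p) with hα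
    have hα1 : ‖α‖ = 1 := by
      rw [hα, norm_div, norm_mul, Complex.norm_real, Real.norm_of_nonneg (by positivity)]
      field_simp
    refine ⟨α, x' - α * p, hα1, ?_⟩
    rintro z ⟨a, b, ha, hb, hab, rfl⟩
    have hz : α * (a • p + b • q) + (x' - α * p) = x' + (b * (‖q - p‖ / ‖y' - x'‖)) • (y' - x') := by
      have h1 : α * (q - p) = ((‖q - p‖ / ‖y' - x'‖ : ℝ) : ℂ) * (y' - x') := by
        rw [hα, div_mul_cancel₀ _ hqp]
      have ha' : a = 1 - b := by linarith
      rw [ha', Complex.real_smul, Complex.real_smul, Complex.real_smul]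
      push_cast at h1 ⊢
      linear_combination (b : ℂ) * h1
    rw [hz]
    have hs0 : 0 ≤ b * (‖q - p‖ / ‖y' - x'‖) := by positivity
    have hs1 : b * (‖q - p‖ / ‖y' - x'‖) ≤ 1 := by
      have h1 : ‖q - p‖ / ‖y' - x'‖ ≤ 1 := by
        rw [div_le_one hn']
        exact hlt'.le
      have hb1 : b ≤ 1 := by linarith
      calc b * (‖q - p‖ / ‖y' - x'‖) ≤ 1 * 1 := mul_le_mul hb1 h1 (by positivity) zero_le_one
        _ = 1 := one_mul 1
    exact hconv.interior.add_smul_sub_mem hx' hy' ⟨hs0, hs1⟩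

/-- **Short segment lemma.**  If all points of `C` outside a segment shorter than the diameter are
covered by small translations in one direction, two copies suffice. -/
theorem cov_short {C : Set ℂ} (hconv : Convex ℝ C) (hcomp : IsCompact C)
    (hint : (interior C).Nonempty) {p q v : ℂ} (hpq : dist p q < Metric.diam C)
    (hv : ∀ x ∈ C, x ∉ segment ℝ p q → ∃ τ : ℝ, 0 < τ ∧ x - τ • v ∈ interior C) : Cov C 2 := by
  obtain ⟨α, c, hα, hseg⟩ := exists_copy_segment hconv hint hpq
  -- the compact rest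
  set K : Set ℂ := {x | x ∈ C ∧ α * x + c ∉ interior C} with hK
  have hKcomp : IsCompact K := by
    have h1 : IsClosed {x : ℂ | α * x + c ∉ interior C} := by
      have h2 : IsOpen {x : ℂ | α * x + c ∈ interior C} :=
        isOpen_interior.preimage (by fun_prop : Continuous fun x : ℂ => α * x + c)
      exact h2.isClosed_compl
    exact hcomp.inter_right h1
  have hKs : ∀ x ∈ K, ∃ τ : ℝ, 0 < τ ∧ x - τ • v ∈ interior C := fun x hx =>
    hv x hx.1 fun hxs => hx.2 (hseg x hxs)
  obtain ⟨σ, hσ, hσK⟩ : ∃ σ : ℝ, 0 < σ ∧ ∀ x ∈ K, x - σ • v ∈ interior C := by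
    have hopen : ∀ n : ℕ, IsOpen {x : ℂ | x - (1 / ((n : ℝ) + 1)) • v ∈ interior C} := fun n =>
      isOpen_interior.preimage (by fun_prop : Continuous fun x : ℂ => x - (1 / ((n : ℝ) + 1)) • v)
    have hcover : K ⊆ ⋃ n : ℕ, {x : ℂ | x - (1 / ((n : ℝ) + 1)) • v ∈ interior C} := by
      intro x hx
      obtain ⟨τ, hτ, hτx⟩ := hKs x hx
      obtain ⟨n, hn⟩ := exists_nat_one_div_lt hτ
      exact mem_iUnion.2 ⟨n, small_step hconv hx.1 (by positivity) hn.le hτx⟩
    obtain ⟨t, ht⟩ := hKcomp.elim_finite_subcover _ hopen hcover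
    refine ⟨1 / (((t.sup id : ℕ) : ℝ) + 1), by positivity, fun x hx => ?_⟩
    obtain ⟨n, hnt, hn⟩ := mem_iUnion₂.1 (ht hx)
    have hle : (n : ℝ) ≤ ((t.sup id : ℕ) : ℝ) := by
      exact_mod_cast Finset.le_sup (f := id) hnt
    exact small_step hconv hx.1 (by positivity)
      (one_div_le_one_div_of_le (by positivity) (by linarith)) hn
  have h := cov_of_fintype (C := C) (ι := Fin 2)
    ![isoInv α c hα, isoInv 1 (-(σ • v)) norm_one] (fun x hx => by
      by_cases hxK : α * x + c ∈ interior C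
      · exact ⟨0, by simpa [isoInv_symm] using hxK⟩
      · refine ⟨1, ?_⟩
        have h1 := hσK x ⟨hx, hxK⟩
        show (isoInv 1 (-(σ • v)) norm_one).symm x ∈ interior C
        rw [isoInv_symm, one_mul, ← sub_eq_add_neg]
        exact h1)
  simpa using h

/-- the interior of a triangle -/
theorem tri_interior {a b c : ℂ} (h : AffineIndependent ℝ ![a, b, c]) {α β γ : ℝ} (hα : 0 < α)
    (hβ : 0 < β) (hγ : 0 < γ) (hsum : α + β + γ = 1) :
    α • a + β • b + γ • c ∈ interior (convexHull ℝ {a, b, c}) := by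
  have htop : affineSpan ℝ (range ![a, b, c]) = ⊤ :=
    (h.affineSpan_eq_top_iff_card_eq_finrank_add_one).2 (by simp [Complex.finrank_real_complex])
  let B : AffineBasis (Fin 3) ℝ ℂ := ⟨![a, b, c], h, htop⟩
  have hr : range B = {a, b, c} := by
    show range ![a, b, c] = {a, b, c}
    rw [Matrix.range_cons, Matrix.range_cons, Matrix.range_cons, Matrix.range_empty]
    ext z
    simp only [mem_union, mem_singleton_iff, mem_insert_iff, Set.union_empty]
  have h1 : interior (convexHull ℝ {a, b, c}) = {x | ∀ i, 0 < B.coord i x} := by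
    rw [← hr]
    exact B.interior_convexHull
  rw [h1]
  intro i
  have hw : ∑ i, ![α, β, γ] i = 1 := by
    rw [Fin.sum_univ_three]
    exact hsum
  have h2 : Finset.univ.affineCombination ℝ B ![α, β, γ] = α • a + β • b + γ • c := by
    rw [Finset.affineCombination_eq_linear_combination _ _ _ hw, Fin.sum_univ_three]
    rfl
  rw [← h2, B.coord_apply_combination_of_mem (Finset.mem_univ i) hw]
  fin_cases i
  · exact hα
  · exact hβ
  · exact hγ

theorem tri_mem {a b c x : ℂ} (hx : x ∈ convexHull ℝ {a, b, c}) :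
    ∃ α β γ : ℝ, 0 ≤ α ∧ 0 ≤ β ∧ 0 ≤ γ ∧ α + β + γ = 1 ∧ x = α • a + β • b + γ • c := by
  have h1 : convexHull ℝ ({a, b, c} : Set ℂ) ⊆
      {x | ∃ α β γ : ℝ, 0 ≤ α ∧ 0 ≤ β ∧ 0 ≤ γ ∧ α + β + γ = 1 ∧ x = α • a + β • b + γ • c} := by
    refine convexHull_min ?_ ?_
    · rintro z (rfl | rfl | rfl)
      · exact ⟨1, 0, 0, by norm_num, le_refl _, le_refl _, by norm_num, by simp⟩
      · exact ⟨0, 1, 0, le_refl _, by norm_num, le_refl _, by norm_num, by simp⟩
      · exact ⟨0, 0, 1, le_refl _, le_refl _, by norm_num, by norm_num, by simp⟩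
    · rintro _ ⟨α, β, γ, hα, hβ, hγ, hs, rfl⟩ _ ⟨α', β', γ', hα', hβ', hγ', hs', rfl⟩ s t hs0 ht0 hst
      refine ⟨s * α + t * α', s * β + t * β', s * γ + t * γ', by positivity, by positivity,
        by positivity, ?_, ?_⟩
      · linear_combination s * hs + t * hs' + hst
      · simp only [smul_add, add_smul, smul_smul]
        ring
  exact h1 hx

/-- a triangle with a side shorter than another side -/
theorem tri_cov {a b c : ℂ} (h : AffineIndependent ℝ ![a, b, c])
    (hlt : dist a b < dist b c ∨ dist a b < dist c a) : Cov (convexHull ℝ {a, b, c}) 2 := by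
  have hconv : Convex ℝ (convexHull ℝ ({a, b, c} : Set ℂ)) := convex_convexHull ℝ _
  have hcomp : IsCompact (convexHull ℝ ({a, b, c} : Set ℂ)) :=
    (toFinite ({a, b, c} : Set ℂ)).isCompact_convexHull (𝕜 := ℝ)
  have hint : (interior (convexHull ℝ ({a, b, c} : Set ℂ))).Nonempty :=
    ⟨_, tri_interior h (α := 1 / 3) (β := 1 / 3) (γ := 1 / 3) (by norm_num) (by norm_num)
      (by norm_num) (by norm_num)⟩
  have ma : a ∈ convexHull ℝ ({a, b, c} : Set ℂ) := subset_convexHull ℝ _ (by simp)
  have mb : b ∈ convexHull ℝ ({a, b, c} : Set ℂ) := subset_convexHull ℝ _ (by simp)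
  have mc : c ∈ convexHull ℝ ({a, b, c} : Set ℂ) := subset_convexHull ℝ _ (by simp)
  have hd : dist a b < Metric.diam (convexHull ℝ ({a, b, c} : Set ℂ)) := by
    rcases hlt with h1 | h1
    · exact h1.trans_le (Metric.dist_le_diam_of_mem hcomp.isBounded mb mc)
    · exact h1.trans_le (Metric.dist_le_diam_of_mem hcomp.isBounded mc ma)
  refine cov_short hconv hcomp hint (v := c - (1 / 2 : ℝ) • (a + b)) hd ?_
  intro x hx hxs
  obtain ⟨α, β, γ, hα, hβ, hγ, hs, rfl⟩ := tri_mem hx
  have hγ0 : 0 < γ := by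
    rcases eq_or_lt_of_le hγ with h0 | h0
    · exfalso
      refine hxs ⟨α, β, hα, hβ, by linarith, ?_⟩
      rw [← h0, zero_smul, add_zero]
    · exact h0
  refine ⟨γ / 2, by linarith, ?_⟩
  have h1 := tri_interior h (α := α + γ / 4) (β := β + γ / 4) (γ := γ / 2) (by linarith)
    (by linarith) (by linarith) (by linarith)
  have h2 : α • a + β • b + γ • c - (γ / 2) • (c - (1 / 2 : ℝ) • (a + b)) =
      (α + γ / 4) • a + (β + γ / 4) • b + (γ / 2) • c := by
    simp only [Complex.real_smul]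
    push_cast
    ring
  rw [h2]
  exact h1

end Newton54D
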