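import Pool.Agent.Lib.MP_54d165_co.Smooth
import Pool.Agent.Lib.MP_54d165_co.BU2

/-!
Constant width and the number of copies.
-/

namespace Newton54S

set_option linter.unusedSectionVars false

open Set Filter Topology
open scoped RealInnerProductSpace

variable {E : Type*} [NormedAddCommGroup E] [InnerProductSpace ℝ E] [FiniteDimensional ℝ E]

/-- support function -/
noncomputable def supp (C : Set E) (x : E) : ℝ := sSup ((fun y => ⟪x, y⟫) '' C)

/-- constant width `w` -/
def CW (C : Set E) (w : ℝ) : Prop :=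
  ∀ u : E, ‖u‖ = 1 → sSup ((fun y => ⟪u, y⟫) '' C) - sInf ((fun y => ⟪u, y⟫) '' C) = w

theorem le_supp {C : Set E} (hcomp : IsCompact C) (x : E) {y : E} (hy : y ∈ C) :
    ⟪x, y⟫ ≤ supp C x :=
  le_csSup (hcomp.image (by fun_prop : Continuous fun y => ⟪x, y⟫)).bddAbove ⟨y, hy, rfl⟩

theorem exists_supp {C : Set E} (hcomp : IsCompact C) (hne : C.Nonempty) (x : E) :
    ∃ y ∈ C, supp C x = ⟪x, y⟫ := by
  obtain ⟨y, hy, h⟩ := hcomp.exists_sSup_image_eq hne
    (by fun_prop : Continuous fun y => ⟪x, y⟫).continuousOn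
  exact ⟨y, hy, h⟩

theorem continuous_supp {C : Set E} (hcomp : IsCompact C) : Continuous (supp C) :=
  hcomp.continuous_sSup (by fun_prop : Continuous fun p : E × E => ⟪p.1, p.2⟫)

theorem supp_eq {C : Set E} (hcomp : IsCompact C) (x : E) {y : E} (hy : y ∈ C)
    (h : ∀ z ∈ C, ⟪x, z⟫ ≤ ⟪x, y⟫) : supp C x = ⟪x, y⟫ := by
  refine le_antisymm ?_ (le_supp hcomp x hy)
  obtain ⟨z, hz, hz2⟩ := exists_supp hcomp ⟨y, hy⟩ x
  rw [hz2]
  exact h z hz

theorem sInf_eq {C : Set E} (hcomp : IsCompact C) (hne : C.Nonempty) (u : E) :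
    sInf ((fun y => ⟪u, y⟫) '' C) = -supp C (-u) := by
  obtain ⟨y, hy, h⟩ := exists_supp hcomp hne (-u)
  rw [h, inner_neg_left, neg_neg]
  have hb : BddBelow ((fun y => ⟪u, y⟫) '' C) :=
    (hcomp.image (by fun_prop : Continuous fun y => ⟪u, y⟫)).bddBelow
  refine le_antisymm (csInf_le hb ⟨y, hy, rfl⟩) ?_
  refine le_csInf (hne.image _) ?_
  rintro _ ⟨z, hz, rfl⟩
  have h1 := le_supp hcomp (-u) hz
  rw [h, inner_neg_left, inner_neg_left] at h1
  simpa using h1

theorem width_eq {C : Set E} (hcomp : IsCompact C) (hne : C.Nonempty) (u : E) :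
    sSup ((fun y => ⟪u, y⟫) '' C) - sInf ((fun y => ⟪u, y⟫) '' C) =
      supp C u + supp C (-u) := by
  rw [sInf_eq hcomp hne, sub_neg_eq_add]
  rfl

theorem supp_smul {C : Set E} (hcomp : IsCompact C) (hne : C.Nonempty) {t : ℝ} (ht : 0 ≤ t)
    (x : E) : supp C (t • x) = t * supp C x := by
  obtain ⟨y, hy, h⟩ := exists_supp hcomp hne x
  rw [supp_eq hcomp (t • x) hy, h, real_inner_smul_left]
  intro z hz
  rw [real_inner_smul_left, real_inner_smul_left]
  have h1 := le_supp hcomp x hz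
  rw [h] at h1
  gcongr

theorem cw_iff {C : Set E} (hcomp : IsCompact C) (hne : C.Nonempty) {w : ℝ} (hw : CW C w)
    (x : E) : supp C x + supp C (-x) = w * ‖x‖ := by
  rcases eq_or_ne x 0 with rfl | hx
  · have h1 : supp C (0 : E) = 0 := by
      have := supp_smul hcomp hne (le_refl (0 : ℝ)) (0 : E)
      simpa using this
    simp [h1]
  · have hx' : 0 < ‖x‖ := norm_pos_iff.2 hx
    have h1 : x = ‖x‖ • (‖x‖⁻¹ • x) := by
      rw [smul_smul, mul_inv_cancel₀ hx'.ne', one_smul]
    have h2 : -x = ‖x‖ • (-(‖x‖⁻¹ • x)) := by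
      rw [smul_neg, ← h1]
    have h3 : ‖‖x‖⁻¹ • x‖ = 1 := by
      rw [norm_smul, norm_inv, norm_norm, inv_mul_cancel₀ hx'.ne']
    have h4 := hw _ h3
    rw [width_eq hcomp hne] at h4
    rw [h2]
    nth_rewrite 1 [h1]
    rw [supp_smul hcomp hne hx'.le, supp_smul hcomp hne hx'.le, ← mul_add, h4, mul_comm]

/-- the support function of a congruent copy -/
theorem supp_copy {C : Set E} (hcomp : IsCompact C) (hne : C.Nonempty) (g : E ≃ᵢ E) :
    ∃ (A : E ≃ₗᵢ[ℝ] E), ∀ x, supp (g '' C) x = supp C (A.symm x) + ⟪x, g 0⟫ := by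
  set A := g.toRealAffineIsometryEquiv.linearIsometryEquiv with hA
  have hg : ∀ y, g y = A y + g 0 := by
    intro y
    have h1 := g.toRealAffineIsometryEquiv.map_vadd 0 y
    simpa [hA] using h1
  refine ⟨A, fun x => ?_⟩
  have hin : ∀ y, ⟪x, g y⟫ = ⟪A.symm x, y⟫ + ⟪x, g 0⟫ := by
    intro y
    rw [hg y, inner_add_right]
    congr 1
    have h1 := A.inner_map_map (A.symm x) y
    rw [A.apply_symm_apply] at h1
    exact h1
  obtain ⟨y, hy, h⟩ := exists_supp hcomp hne (A.symm x)
  have hcg : IsCompact (g '' C) := hcomp.image g.continuous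
  rw [supp_eq hcg x (mem_image_of_mem _ hy), hin, h]
  rintro _ ⟨z, hz, rfl⟩
  rw [hin z, hin y]
  have h1 := le_supp hcomp (A.symm x) hz
  rw [h] at h1
  linarith

/-- Bodies of constant width need `d + 1` copies. -/
theorem lower {C : Set E} (hcomp : IsCompact C) (hne : C.Nonempty) {w : ℝ} (hw : CW C w)
    (hd : 0 < Module.finrank ℝ E) {k : ℕ} (hk : Cov C k) : Module.finrank ℝ E + 1 ≤ k := by
  obtain ⟨g, U, hU, hCU, hUg⟩ := hk
  have hcg : ∀ i, IsCompact (g i '' C) := fun i => hcomp.image (g i).continuous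
  have hodd : ∀ i x, supp (g i '' C) x + supp (g i '' C) (-x) = w * ‖x‖ := by
    intro i x
    obtain ⟨A, hA⟩ := supp_copy hcomp hne (g i)
    rw [hA, hA, inner_neg_left, map_neg]
    have h1 := cw_iff hcomp hne hw (A.symm x)
    rw [LinearIsometryEquiv.norm_map] at h1
    linarith
  refine NewtonLS.ls hd (fun i => {x | supp C x < supp (g i '' C) x}) ?_ ?_ ?_
  · intro i
    exact isOpen_lt (continuous_supp hcomp) (continuous_supp (hcg i))
  · intro i x hx hx'
    simp only [mem_ofPred_eq] at hx hx'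
    have h1 := hodd i x
    have h2 := cw_iff hcomp hne hw x
    linarith
  · intro x hx
    obtain ⟨p, hp, h⟩ := exists_supp hcomp hne x
    have h1 : Tendsto (fun t : ℝ => p + t • x) (𝓝 0) (𝓝 (p + (0 : ℝ) • x)) := by
      have : Continuous fun t : ℝ => p + t • x := by fun_prop
      exact this.tendsto 0
    rw [zero_smul, add_zero] at h1
    obtain ⟨ε, hε, h3⟩ := Metric.eventually_nhds_iff.1
      (h1.eventually (hU.mem_nhds (hCU hp)))
    have h4 : p + (ε / 2) • x ∈ U := by
      refine h3 ?_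
      rw [Real.dist_eq, sub_zero, abs_of_pos (by positivity)]
      linarith
    obtain ⟨i, hi⟩ := mem_iUnion.1 (hUg h4)
    refine ⟨i, ?_⟩
    have h5 := le_supp (hcg i) x hi
    rw [inner_add_right, real_inner_smul_right, real_inner_self_eq_norm_sq] at h5
    have h6 : 0 < ‖x‖ := norm_pos_iff.2 hx
    have h7 : 0 < ε / 2 * ‖x‖ ^ 2 := by positivity
    simp only [mem_ofPred_eq]
    rw [h]
    linarith

theorem const_of_sq {φ : ℝ → ℝ} {K : ℝ} (h : ∀ s t, |φ s - φ t| ≤ K * (s - t) ^ 2) (s t : ℝ) :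
    φ s = φ t := by
  have hd : ∀ x, HasDerivAt φ 0 x := by
    intro x
    rw [hasDerivAt_iff_isLittleO]
    have h1 : (fun x' => φ x' - φ x - (x' - x) • (0 : ℝ)) =O[𝓝 x] fun x' => ‖x' - x‖ ^ 2 := by
      refine Asymptotics.IsBigO.of_bound K (Filter.Eventually.of_forall fun x' => ?_)
      simp only [smul_zero, sub_zero, Real.norm_eq_abs]
      have h2 := h x' x
      rwa [abs_of_nonneg (by positivity : (0 : ℝ) ≤ |x' - x| ^ 2), sq_abs]
    exact h1.trans_isLittleO (Asymptotics.isLittleO_pow_sub_sub x (by norm_num))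
  exact is_const_of_deriv_eq_zero (fun x => (hd x).differentiableAt) (fun x => (hd x).deriv) s t

/-- If the body does not have constant width, there is a direction without parallel pairs. -/
theorem exists_dir {C : Set E} (hcomp : IsCompact C) (hne : C.Nonempty)
    (hw : ¬ ∃ w, CW C w) : ∃ n : E, ‖n‖ = 1 ∧ ∀ p ∈ C, ∀ q ∈ C,
      (∀ y ∈ C, ⟪n, y⟫ ≤ ⟪n, p⟫) → (∀ y ∈ C, ⟪n, q⟫ ≤ ⟪n, y⟫) → ∀ t : ℝ, p - q ≠ t • n := by
  by_contra hcon
  push Not at hcon
  set W : E → ℝ := fun u => supp C u + supp C (-u) with hW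
  have hWneg : ∀ u, W (-u) = W u := by
    intro u
    simp only [hW, neg_neg]
    ring
  have hWge : ∀ u, ∀ p ∈ C, ∀ q ∈ C, ⟪u, p - q⟫ ≤ W u := by
    intro u p hp q hq
    have h1 := le_supp hcomp u hp
    have h2 := le_supp hcomp (-u) hq
    rw [inner_neg_left] at h2
    rw [inner_sub_right]
    simp only [hW]
    linarith
  have hkey : ∀ n m : E, ‖n‖ = 1 → ‖m‖ = 1 → W n * ⟪m, n⟫ ≤ W m := by
    intro n m hn hm
    obtain ⟨p, hp, q, hq, h1, h2, t, ht⟩ := hcon n hn
    have h3 : W n = t := by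
      have h4 : supp C n = ⟪n, p⟫ := supp_eq hcomp n hp h1
      have h5 : supp C (-n) = -⟪n, q⟫ := by
        rw [supp_eq hcomp (-n) hq, inner_neg_left]
        intro z hz
        rw [inner_neg_left, inner_neg_left]
        exact neg_le_neg (h2 z hz)
      have h6 : ⟪n, p - q⟫ = t := by
        rw [ht, real_inner_smul_right, real_inner_self_eq_norm_sq, hn]
        ring
      rw [inner_sub_right] at h6
      simp only [hW, h4, h5]
      linarith
    have h4 := hWge m p hp q hq
    rw [ht, real_inner_smul_right] at h4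
    rw [h3]
    exact h4
  -- upper bound for the width
  obtain ⟨K, hK0, hK⟩ : ∃ K : ℝ, 0 ≤ K ∧ ∀ u : E, ‖u‖ = 1 → W u ≤ K := by
    have h1 : IsCompact (Metric.sphere (0 : E) 1) := isCompact_sphere _ _
    have h2 : Continuous W := by
      have := continuous_supp hcomp
      simp only [hW]
      fun_prop
    obtain ⟨K, hK⟩ := (h1.image h2).bddAbove
    refine ⟨max K 0, le_max_right _ _, fun u hu => le_max_of_le_left (hK ⟨u, by simpa using hu,
      rfl⟩)⟩
  have hcirc : ∀ n v : E, ‖n‖ = 1 → ‖v‖ = 1 → ⟪n, v⟫ = 0 → ∀ s : ℝ,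
      W (Real.cos s • n + Real.sin s • v) = W n := by
    intro n v hn hv hnv s
    have hvn : ⟪v, n⟫ = 0 := by rw [real_inner_comm]; exact hnv
    set γ : ℝ → E := fun s => Real.cos s • n + Real.sin s • v with hγ
    have hin : ∀ s t, ⟪γ s, γ t⟫ = Real.cos (s - t) := by
      intro s t
      simp only [hγ, inner_add_left, inner_add_right, real_inner_smul_left,
        real_inner_smul_right, real_inner_self_eq_norm_sq, hn, hv, hnv, hvn]
      rw [Real.cos_sub]
      ring
    have hnorm : ∀ s, ‖γ s‖ = 1 := by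
      intro s
      have h1 := hin s s
      rw [sub_self, Real.cos_zero, real_inner_self_eq_norm_sq] at h1
      have h2 := norm_nonneg (γ s)
      nlinarith
    have hone : ∀ s t, W (γ s) - W (γ t) ≤ K / 2 * (s - t) ^ 2 := by
      intro s t
      have h1 := hkey (γ s) (γ t) (hnorm s) (hnorm t)
      rw [hin] at h1
      have h2 := Real.one_sub_sq_div_two_le_cos (x := t - s)
      have h3 := hK (γ s) (hnorm s)
      have h0 : 0 ≤ W (γ s) := by
        obtain ⟨z, hz⟩ := hne
        have := hWge (γ s) z hz z hz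
        simpa using this
      have h4 : W (γ s) * (1 - (t - s) ^ 2 / 2) ≤ W (γ s) * Real.cos (t - s) := by gcongr
      have h5 : W (γ s) * ((t - s) ^ 2 / 2) ≤ K * ((t - s) ^ 2 / 2) := by gcongr
      nlinarith
    have h1 := const_of_sq (φ := fun s => W (γ s)) (K := K / 2) (fun s t => by
      rw [abs_le]
      constructor
      · have := hone t s
        have h2 : (t - s) ^ 2 = (s - t) ^ 2 := by ring
        rw [h2] at this
        linarith
      · exact hone s t) s 0
    simpa [hγ] using h1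
  have hconst : ∀ n m : E, ‖n‖ = 1 → ‖m‖ = 1 → W m = W n := by
    intro n m hn hm
    set z : E := m - ⟪n, m⟫ • n with hz
    have hnz : ⟪n, z⟫ = 0 := by
      rw [hz, inner_sub_right, real_inner_smul_right, real_inner_self_eq_norm_sq, hn]
      ring
    rcases eq_or_ne z 0 with h0 | h0
    · have h1 : m = ⟪n, m⟫ • n := by
        rw [hz, sub_eq_zero] at h0
        exact h0
      have h2 : |⟪n, m⟫| = 1 := by
        have h3 := congrArg norm h1
        rw [hm, norm_smul, hn, mul_one] at h3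
        exact h3.symm
      rcases eq_or_eq_neg_of_abs_eq h2 with h3 | h3
      · rw [h1, h3, one_smul]
      · rw [h1, h3, neg_smul, one_smul, hWneg]
    · have hz0 : 0 < ‖z‖ := norm_pos_iff.2 h0
      have h1 : ‖z‖ ^ 2 + ⟪n, m⟫ ^ 2 = 1 := by
        have h2 : ‖z‖ ^ 2 = ‖m‖ ^ 2 - ⟪n, m⟫ ^ 2 := by
          rw [hz, norm_sub_sq_real, real_inner_smul_right, norm_smul, hn, real_inner_comm m n,
            Real.norm_eq_abs, mul_one, sq_abs]
          ring
        rw [h2, hm]
        ring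
      have h2 : |⟪n, m⟫| ≤ 1 := by
        rw [abs_le_one_iff_mul_self_le_one]
        nlinarith
      obtain ⟨h3, h4⟩ := abs_le.1 h2
      have h5 := hcirc n (‖z‖⁻¹ • z) hn
        (by rw [norm_smul, norm_inv, norm_norm, inv_mul_cancel₀ hz0.ne'])
        (by rw [real_inner_smul_right, hnz, mul_zero]) (Real.arccos ⟪n, m⟫)
      rw [Real.cos_arccos h3 h4, Real.sin_arccos] at h5
      have h6 : √(1 - ⟪n, m⟫ ^ 2) = ‖z‖ := by
        rw [← h1, add_sub_cancel_right]
        exact Real.sqrt_sq hz0.le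
      rw [h6, smul_smul, mul_inv_cancel₀ hz0.ne', one_smul] at h5
      have h7 : ⟪n, m⟫ • n + z = m := by rw [hz]; abel
      rw [h7] at h5
      exact h5
  apply hw
  by_cases hex : ∃ n : E, ‖n‖ = 1
  · obtain ⟨n, hn⟩ := hex
    refine ⟨W n, fun u hu => ?_⟩
    rw [width_eq hcomp hne]
    exact hconst n u hn hu
  · exact ⟨0, fun u hu => absurd ⟨u, hu⟩ hex⟩

end Newton54S
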